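import Pool.Agent.Lib.MP_685115_al.Defs

/-! Artin monoids: basic facts, parabolic submonoids, lcm theory. -/

set_option linter.unusedSectionVars false
set_option linter.unusedVariables false

namespace Pool.Agent.MP685115

section alt
variable {A A' : Type*} [Monoid A] [Monoid A']

lemma alt_op (s t : A) (n : ℕ) :
    alt (MulOpposite.op s) (MulOpposite.op t) n =
      MulOpposite.op (if Even n then alt t s n else alt s t n) := by
  induction n generalizing s t with
  | zero => simp
  | succ n ih =>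
    rw [alt_succ, ih, ← MulOpposite.op_mul]
    congr 1
    by_cases h : Even n
    · simp only [h, if_true, Nat.even_add_one, not_true_eq_false, if_false]
      rw [alt_succ_right, if_pos h]
    · simp only [h, if_false, Nat.even_add_one, not_false_eq_true, if_true]
      rw [alt_succ_right, if_neg h]

lemma alt_idem {A : Type*} [CommMonoid A] {s t : A} (hs : s * s = s) (ht : t * t = t) (n : ℕ) :
    alt s t (n + 2) = s * t := by
  have hst : s * t * (s * t) = s * t := by
    rw [mul_mul_mul_comm, hs, ht]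
  induction n using Nat.strong_induction_on with
  | _ n ih =>
    match n with
    | 0 => simp [alt_succ]
    | 1 =>
      simp only [alt_succ, alt_zero, mul_one]
      rw [mul_comm t s, ← mul_assoc, hs]
    | n + 2 =>
      rw [alt_succ, alt_succ, ih n (by omega), ← mul_assoc, hst]

end alt

variable {B : Type}

/-- The braid relations of the Artin monoid. -/
def relM (M : CoxeterMatrix B) (u v : FreeMonoid B) : Prop :=
  ∃ s t, M s t ≠ 0 ∧ u = alt (FreeMonoid.of s) (FreeMonoid.of t) (M s t) ∧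
    v = alt (FreeMonoid.of t) (FreeMonoid.of s) (M s t)

/-- The Artin monoid. -/
abbrev AM (M : CoxeterMatrix B) : Type := PresentedMonoid (relM M)

/-- The generators of the Artin monoid. -/
def sg (M : CoxeterMatrix B) (s : B) : AM M := PresentedMonoid.of (relM M) s

section lift
variable {M : CoxeterMatrix B} {A : Type*} [Monoid A]

/-- Universal property. -/
def liftAM (f : B → A)
    (h : ∀ s t, M s t ≠ 0 → alt (f s) (f t) (M s t) = alt (f t) (f s) (M s t)) : AM M →* A :=
  PresentedMonoid.lift f (by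
    rintro u v ⟨s, t, hst, rfl, rfl⟩
    rw [map_alt, map_alt]
    simpa using h s t hst)

lemma liftAM_sg (f : B → A) (h) (s : B) : liftAM (M := M) f h (sg M s) = f s := rfl

lemma sg_rel {s t : B} (h : M s t ≠ 0) :
    alt (sg M s) (sg M t) (M s t) = alt (sg M t) (sg M s) (M s t) := by
  have := PresentedMonoid.mk_eq_mk_of_rel (rels := relM M) ⟨s, t, h, rfl, rfl⟩
  rwa [map_alt, map_alt] at this

/-- Induction from the left. -/
theorem AM_ind {p : AM M → Prop} (h1 : p 1) (hs : ∀ s u, p u → p (sg M s * u)) (u : AM M) :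
    p u := by
  induction u using PresentedMonoid.inductionOn with
  | h a =>
    induction a using FreeMonoid.recOn with
    | one => simpa using h1
    | of_mul x xs ih =>
      rw [map_mul]
      exact hs x _ ih

theorem AM_ext {f g : AM M →* A} (h : ∀ s, f (sg M s) = g (sg M s)) : f = g := by
  apply DFunLike.ext
  intro u
  induction u using AM_ind with
  | h1 => simp
  | hs s u ih => rw [map_mul, map_mul, h, ih]

end lift

variable (M : CoxeterMatrix B)

/-- Length as a homomorphism. -/
def lenHom : AM M →* Multiplicative ℕ :=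
  liftAM (fun _ => Multiplicative.ofAdd 1) (fun _ _ _ => rfl)

variable {M}

/-- Length of an element. -/
def len (u : AM M) : ℕ := Multiplicative.toAdd (lenHom M u)

@[simp] lemma len_one : len (1 : AM M) = 0 := by simp [len]

@[simp] lemma len_mul (u v : AM M) : len (u * v) = len u + len v := by simp [len]

@[simp] lemma len_sg (s : B) : len (sg M s) = 1 := by
  rw [len, lenHom, liftAM_sg]; rfl

lemma len_pow (u : AM M) (n : ℕ) : len (u ^ n) = n * len u := by
  induction n with
  | zero => simp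
  | succ n ih => rw [pow_succ, len_mul, ih]; ring

lemma eq_one_or (u : AM M) : u = 1 ∨ ∃ s v, u = sg M s * v := by
  induction u using AM_ind with
  | h1 => exact Or.inl rfl
  | hs s u ih => exact Or.inr ⟨s, u, rfl⟩

lemma eq_one_of_len {u : AM M} (h : len u = 0) : u = 1 := by
  rcases eq_one_or u with h1 | ⟨s, v, rfl⟩
  · exact h1
  · simp at h

lemma dvd_one {u : AM M} (h : u ∣ 1) : u = 1 := by
  obtain ⟨c, hc⟩ := h
  have := congrArg len hc
  simp only [len_one, len_mul] at this
  exact eq_one_of_len (by omega)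

/-! ### Reversal -/

variable (M) in
/-- Reversal as an antihomomorphism. -/
def revHom : AM M →* (AM M)ᵐᵒᵖ :=
  liftAM (fun s => MulOpposite.op (sg M s)) (by
    intro s t h
    rw [alt_op, alt_op, sg_rel h])

/-- Reversal. -/
def rev (u : AM M) : AM M := MulOpposite.unop (revHom M u)

@[simp] lemma rev_one : rev (1 : AM M) = 1 := by simp [rev]

@[simp] lemma rev_mul (u v : AM M) : rev (u * v) = rev v * rev u := by simp [rev]

@[simp] lemma rev_sg (s : B) : rev (sg M s) = sg M s := by
  rw [rev, revHom, liftAM_sg]; rfl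

@[simp] lemma rev_rev (u : AM M) : rev (rev u) = u := by
  induction u using AM_ind with
  | h1 => simp
  | hs s u ih => rw [rev_mul, rev_mul, ih, rev_sg, rev_sg]

@[simp] lemma len_rev (u : AM M) : len (rev u) = len u := by
  induction u using AM_ind with
  | h1 => simp
  | hs s u ih => rw [rev_mul, len_mul, len_mul, ih, rev_sg]; ring

/-! ### Parabolic submonoids -/

open Classical in
variable (M) in
/-- Indicator homomorphism of a set of letters. -/
noncomputable def chiHom (X : Set B) : AM M →* ℕ :=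
  liftAM (fun s => if s ∈ X then 1 else 0) (by
    intro s t h
    by_cases hst : s = t
    · subst hst; rfl
    · have h1 : M s t ≠ 1 := M.off_diagonal s t hst
      obtain ⟨n, hn⟩ : ∃ n, M s t = n + 2 := ⟨M s t - 2, by omega⟩
      have e1 : ∀ s : B, (if s ∈ X then 1 else 0 : ℕ) * (if s ∈ X then 1 else 0)
          = if s ∈ X then 1 else 0 := by
        intro s; split_ifs <;> rfl
      rw [hn, alt_idem (e1 s) (e1 t), alt_idem (e1 t) (e1 s), mul_comm])

/-- Membership in the parabolic submonoid of a set of letters. -/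
def inX (X : Set B) (u : AM M) : Prop := chiHom M X u ≠ 0

open Classical in
lemma inX_sg {X : Set B} {s : B} : inX X (sg M s) ↔ s ∈ X := by
  rw [inX, chiHom, liftAM_sg]
  split_ifs with h <;> simp [h]

lemma inX_mul {X : Set B} {u v : AM M} : inX X (u * v) ↔ inX X u ∧ inX X v := by
  rw [inX, map_mul, inX, inX]
  exact mul_ne_zero_iff

lemma inX_one {X : Set B} : inX X (1 : AM M) := by simp [inX]

lemma inX_alt {X : Set B} {s t : B} (hs : s ∈ X) (ht : t ∈ X) (n : ℕ) :
    inX X (alt (sg M s) (sg M t) n) := by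
  induction n generalizing s t with
  | zero => exact inX_one
  | succ n ih => rw [alt_succ, inX_mul]; exact ⟨inX_sg.2 hs, ih ht hs⟩

lemma inX_of_dvd {X : Set B} {u v : AM M} (h : u ∣ v) (hv : inX X v) : inX X u := by
  obtain ⟨c, rfl⟩ := h
  exact (inX_mul.1 hv).1

lemma inX_rev {X : Set B} {u : AM M} : inX X (rev u) ↔ inX X u := by
  induction u using AM_ind with
  | h1 => simp
  | hs s u ih => rw [rev_mul, inX_mul, inX_mul, ih, rev_sg]; tauto

lemma inX_pow {X : Set B} {u : AM M} (h : inX X u) (n : ℕ) : inX X (u ^ n) := by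
  induction n with
  | zero => simpa using inX_one
  | succ n ih => rw [pow_succ, inX_mul]; exact ⟨ih, h⟩

lemma inX_univ (u : AM M) : inX Set.univ u := by
  induction u using AM_ind with
  | h1 => exact inX_one
  | hs s u ih => rw [inX_mul]; exact ⟨inX_sg.2 trivial, ih⟩

lemma inX_mono {X Y : Set B} (h : X ⊆ Y) {u : AM M} (hu : inX X u) : inX Y u := by
  induction u using AM_ind with
  | h1 => exact inX_one
  | hs s u ih =>
    rw [inX_mul] at hu ⊢
    exact ⟨inX_sg.2 (h (inX_sg.1 hu.1)), ih hu.2⟩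

/-! ### Lcm theory -/

/-- Left cancellation of letters and the atomic lcm property. -/
structure HasP (M : CoxeterMatrix B) : Prop where
  cancel : ∀ s (u v : AM M), sg M s * u = sg M s * v → u = v
  lcm : ∀ s t (u v : AM M), s ≠ t → sg M s * u = sg M t * v →
    M s t ≠ 0 ∧ alt (sg M s) (sg M t) (M s t) ∣ sg M s * u

lemma HasP.cancelAll (hP : HasP M) (a : AM M) {u v : AM M} (h : a * u = a * v) : u = v := by
  induction a using AM_ind generalizing u v with
  | h1 => simpa using h
  | hs s a ih =>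
    rw [mul_assoc, mul_assoc] at h
    exact ih (hP.cancel s _ _ h)

lemma HasP.cancelRight (hP : HasP M) (a : AM M) {u v : AM M} (h : u * a = v * a) : u = v := by
  have h1 := congrArg rev h
  rw [rev_mul, rev_mul] at h1
  have h2 := hP.cancelAll _ h1
  rw [← rev_rev u, h2, rev_rev]

lemma HasP.dvd_of_mul (hP : HasP M) {a u v : AM M} (h : a * u ∣ a * v) : u ∣ v := by
  obtain ⟨c, hc⟩ := h
  rw [mul_assoc] at hc
  exact ⟨c, hP.cancelAll a hc⟩

lemma dvd_antisymm_AM {u v : AM M} (h1 : u ∣ v) (h2 : v ∣ u) : u = v := by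
  obtain ⟨c, rfl⟩ := h1
  obtain ⟨d, hd⟩ := h2
  have := congrArg len hd
  simp only [len_mul] at this
  have : c = 1 := eq_one_of_len (by omega)
  rw [this, mul_one]

/-- Least common right multiples. -/
def IsLcm (a b l : AM M) : Prop := a ∣ l ∧ b ∣ l ∧ ∀ w, a ∣ w → b ∣ w → l ∣ w

lemma IsLcm.unique {a b l l' : AM M} (h : IsLcm a b l) (h' : IsLcm a b l') : l = l' :=
  dvd_antisymm_AM (h.2.2 l' h'.1 h'.2.1) (h'.2.2 l h.1 h.2.1)

lemma IsLcm.symm {a b l : AM M} (h : IsLcm a b l) : IsLcm b a l :=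
  ⟨h.2.1, h.1, fun w h1 h2 => h.2.2 w h2 h1⟩

lemma IsLcm.mul_left (hP : HasP M) {a b l : AM M} (c : AM M) (h : IsLcm a b l) :
    IsLcm (c * a) (c * b) (c * l) := by
  refine ⟨mul_dvd_mul_left c h.1, mul_dvd_mul_left c h.2.1, fun w h1 h2 => ?_⟩
  obtain ⟨d, rfl⟩ := h1
  rw [mul_assoc] at h2 ⊢
  exact mul_dvd_mul_left c (h.2.2 _ (Dvd.intro _ rfl) (hP.dvd_of_mul h2))

lemma atom_lcm (hP : HasP M) {s t : B} (hst : s ≠ t) {w : AM M} (h1 : sg M s ∣ w)
    (h2 : sg M t ∣ w) : M s t ≠ 0 ∧ alt (sg M s) (sg M t) (M s t) ∣ w := by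
  obtain ⟨u, hu⟩ := h1
  obtain ⟨v, hv⟩ := h2
  have := hP.lcm s t u v hst (by rw [← hu, ← hv])
  rw [← hu] at this
  exact this

/-- Elements with a common multiple have an lcm, inside every parabolic submonoid. -/
theorem exists_lcm (hP : HasP M) : ∀ (n : ℕ) (u a b : AM M), len u = n → a ∣ u → b ∣ u →
    ∃ l, IsLcm a b l ∧ ∀ X : Set B, inX X a → inX X b → inX X l := by
  intro n
  induction n using Nat.strong_induction_on with
  | _ n IH =>
    intro u a b hn ha hb
    rcases eq_one_or a with rfl | ⟨s, a', rfl⟩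
    · exact ⟨b, ⟨one_dvd b, dvd_refl b, fun w _ h => h⟩, fun X _ h => h⟩
    rcases eq_one_or b with rfl | ⟨t, b', rfl⟩
    · exact ⟨sg M s * a', ⟨dvd_refl _, one_dvd _, fun w h _ => h⟩, fun X h _ => h⟩
    by_cases hst : s = t
    · subst hst
      obtain ⟨u1, hu1⟩ : sg M s ∣ u := dvd_trans (Dvd.intro _ rfl) ha
      rw [hu1] at ha hb
      have hlen : len u1 < n := by rw [← hn, hu1, len_mul, len_sg]; omega
      obtain ⟨l, hl, hX⟩ := IH _ hlen u1 a' b' rfl (hP.dvd_of_mul ha) (hP.dvd_of_mul hb)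
      refine ⟨sg M s * l, hl.mul_left hP _, fun X h1 h2 => ?_⟩
      rw [inX_mul] at h1 h2 ⊢
      exact ⟨h1.1, hX X h1.2 h2.2⟩
    · have hs : sg M s ∣ u := dvd_trans (Dvd.intro _ rfl) ha
      have ht : sg M t ∣ u := dvd_trans (Dvd.intro _ rfl) hb
      obtain ⟨hM, halt⟩ := atom_lcm hP hst hs ht
      have h1 : M s t ≠ 1 := M.off_diagonal s t hst
      obtain ⟨k, hk⟩ : ∃ k, M s t = k + 1 := ⟨M s t - 1, by omega⟩
      have hk1 : 1 ≤ k := by omega
      -- the two forms of the lcm of the letters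
      have e1 : alt (sg M s) (sg M t) (M s t) = sg M s * alt (sg M t) (sg M s) k := by
        rw [hk, alt_succ]
      have e2 : alt (sg M s) (sg M t) (M s t) = sg M t * alt (sg M s) (sg M t) k := by
        rw [sg_rel hM, hk, alt_succ]
      set c := alt (sg M t) (sg M s) k with hc
      set d := alt (sg M s) (sg M t) k with hd
      obtain ⟨u1, hu1⟩ := hs
      obtain ⟨u2, hu2⟩ := ht
      have l1 : len u1 < n := by rw [← hn, hu1, len_mul, len_sg]; omega
      have l2 : len u2 < n := by rw [← hn, hu2, len_mul, len_sg]; omega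
      have ha' : a' ∣ u1 := by rw [hu1] at ha; exact hP.dvd_of_mul ha
      have hb' : b' ∣ u2 := by rw [hu2] at hb; exact hP.dvd_of_mul hb
      have hc' : c ∣ u1 := by
        have := halt
        rw [e1, hu1] at this
        exact hP.dvd_of_mul this
      have hd' : d ∣ u2 := by
        have := halt
        rw [e2, hu2] at this
        exact hP.dvd_of_mul this
      obtain ⟨p1, hp1, hX1⟩ := IH _ l1 u1 a' c rfl ha' hc'
      obtain ⟨p2, hp2, hX2⟩ := IH _ l2 u2 b' d rfl hb' hd'
      obtain ⟨q1, hq1⟩ := hp1.2.1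
      obtain ⟨q2, hq2⟩ := hp2.2.1
      obtain ⟨u3, hu3⟩ := halt
      have l3 : len u3 < n := by
        rw [← hn, hu3, e1, len_mul, len_mul, len_sg]; omega
      have hq1' : q1 ∣ u3 := by
        have h5 : p1 ∣ u1 := hp1.2.2 u1 ha' hc'
        have h6 : sg M s * p1 ∣ u := by rw [hu1]; exact mul_dvd_mul_left _ h5
        rw [hq1, ← mul_assoc, ← e1, hu3] at h6
        exact hP.dvd_of_mul h6
      have hq2' : q2 ∣ u3 := by
        have h5 : p2 ∣ u2 := hp2.2.2 u2 hb' hd'
        have h6 : sg M t * p2 ∣ u := by rw [hu2]; exact mul_dvd_mul_left _ h5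
        rw [hq2, ← mul_assoc, ← e2, hu3] at h6
        exact hP.dvd_of_mul h6
      obtain ⟨l, hl, hX⟩ := IH _ l3 u3 q1 q2 rfl hq1' hq2'
      refine ⟨alt (sg M s) (sg M t) (M s t) * l, ⟨?_, ?_, ?_⟩, ?_⟩
      · have h5 : sg M s * a' ∣ sg M s * p1 := mul_dvd_mul_left _ hp1.1
        rw [hq1, ← mul_assoc, ← e1] at h5
        exact dvd_trans h5 (mul_dvd_mul_left _ hl.1)
      · have h5 : sg M t * b' ∣ sg M t * p2 := mul_dvd_mul_left _ hp2.1
        rw [hq2, ← mul_assoc, ← e2] at h5
        exact dvd_trans h5 (mul_dvd_mul_left _ hl.2.1)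
      · intro w hw1 hw2
        have g1 : sg M s ∣ w := dvd_trans (Dvd.intro _ rfl) hw1
        have g2 : sg M t ∣ w := dvd_trans (Dvd.intro _ rfl) hw2
        obtain ⟨-, g3⟩ := atom_lcm hP hst g1 g2
        obtain ⟨w1, hw1'⟩ := g1
        obtain ⟨w2, hw2'⟩ := g2
        obtain ⟨w3, hw3⟩ := g3
        have k1 : a' ∣ w1 := by rw [hw1'] at hw1; exact hP.dvd_of_mul hw1
        have k2 : b' ∣ w2 := by rw [hw2'] at hw2; exact hP.dvd_of_mul hw2
        have k3 : c ∣ w1 := by
          have : sg M s * c ∣ sg M s * w1 := ⟨w3, by rw [← e1, ← hw1', hw3]⟩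
          exact hP.dvd_of_mul this
        have k4 : d ∣ w2 := by
          have : sg M t * d ∣ sg M t * w2 := ⟨w3, by rw [← e2, ← hw2', hw3]⟩
          exact hP.dvd_of_mul this
        have m1 : q1 ∣ w3 := by
          have h6 : sg M s * p1 ∣ w := by rw [hw1']; exact mul_dvd_mul_left _ (hp1.2.2 _ k1 k3)
          rw [hq1, ← mul_assoc, ← e1, hw3] at h6
          exact hP.dvd_of_mul h6
        have m2 : q2 ∣ w3 := by
          have h6 : sg M t * p2 ∣ w := by rw [hw2']; exact mul_dvd_mul_left _ (hp2.2.2 _ k2 k4)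
          rw [hq2, ← mul_assoc, ← e2, hw3] at h6
          exact hP.dvd_of_mul h6
        rw [hw3]
        exact mul_dvd_mul_left _ (hl.2.2 _ m1 m2)
      · intro X h5 h6
        rw [inX_mul] at h5 h6
        have hsX := inX_sg.1 h5.1
        have htX := inX_sg.1 h6.1
        have i1 : inX X p1 := hX1 X h5.2 (inX_alt htX hsX k)
        have i2 : inX X p2 := hX2 X h6.2 (inX_alt hsX htX k)
        rw [hq1, inX_mul] at i1
        rw [hq2, inX_mul] at i2
        rw [inX_mul]
        exact ⟨inX_alt hsX htX _, hX X i1.2 i2.2⟩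

theorem exists_lcm' (hP : HasP M) {u a b : AM M} (ha : a ∣ u) (hb : b ∣ u) :
    ∃ l, IsLcm a b l ∧ ∀ X : Set B, inX X a → inX X b → inX X l :=
  exists_lcm hP _ u a b rfl ha hb

/-- Least common multiples of finite sets of letters. -/
def IsLcmS (F : Finset B) (l : AM M) : Prop :=
  (∀ s ∈ F, sg M s ∣ l) ∧ ∀ w, (∀ s ∈ F, sg M s ∣ w) → l ∣ w

lemma IsLcmS.unique {F : Finset B} {l l' : AM M} (h : IsLcmS F l) (h' : IsLcmS F l') : l = l' :=
  dvd_antisymm_AM (h.2 l' h'.1) (h'.2 l h.1)

theorem exists_lcmS (hP : HasP M) [DecidableEq B] (F : Finset B) {u : AM M}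
    (hu : ∀ s ∈ F, sg M s ∣ u) :
    ∃ l : AM M, IsLcmS F l ∧ inX (F : Set B) l := by
  induction F using Finset.induction_on with
  | empty => exact ⟨1, ⟨by simp, fun w _ => one_dvd w⟩, inX_one⟩
  | insert s F hs ih =>
    obtain ⟨l, hl, hX⟩ := ih (fun t ht => hu t (Finset.mem_insert_of_mem ht))
    have h1 : l ∣ u := hl.2 u (fun t ht => hu t (Finset.mem_insert_of_mem ht))
    obtain ⟨l', hl', hX'⟩ := exists_lcm' hP (hu s (Finset.mem_insert_self s F)) h1
    refine ⟨l', ⟨?_, ?_⟩, ?_⟩
    · intro t ht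
      rcases Finset.mem_insert.1 ht with rfl | ht
      · exact hl'.1
      · exact dvd_trans (hl.1 t ht) hl'.2.1
    · intro w hw
      exact hl'.2.2 w (hw s (Finset.mem_insert_self s F))
        (hl.2 w (fun t ht => hw t (Finset.mem_insert_of_mem ht)))
    · apply hX'
      · exact inX_sg.2 (by simp)
      · exact inX_mono (by simp) hX

end Pool.Agent.MP685115
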