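import Mathlib

/-! Definitions used in the statement: Artin groups, parabolic subgroups, orbits. -/

set_option linter.unusedSectionVars false
set_option linter.unusedVariables false

namespace Pool.Agent.MP685115

open scoped Pointwise

/-- The alternating product `s t s ...` with `n` factors. -/
def alt {A : Type*} [Monoid A] : A → A → ℕ → A
  | _, _, 0 => 1
  | s, t, n + 1 => s * alt t s n

section alt
variable {A A' : Type*} [Monoid A] [Monoid A']

@[simp] lemma alt_zero (s t : A) : alt s t 0 = 1 := rfl

lemma alt_succ (s t : A) (n : ℕ) : alt s t (n + 1) = s * alt t s n := rfl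

lemma map_alt (f : A →* A') (s t : A) (n : ℕ) : f (alt s t n) = alt (f s) (f t) n := by
  induction n generalizing s t with
  | zero => simp
  | succ n ih => rw [alt_succ, map_mul, ih, alt_succ]

lemma alt_succ_right (s t : A) (n : ℕ) :
    alt s t (n + 1) = alt s t n * (if Even n then s else t) := by
  induction n generalizing s t with
  | zero => simp [alt_succ]
  | succ n ih =>
    rw [alt_succ, ih, alt_succ, mul_assoc]
    congr 2
    by_cases h : Even n
    · simp [h, Nat.even_add_one]
    · simp [h, Nat.even_add_one]

lemma alt_add (s t : A) (m n : ℕ) :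
    alt s t (m + n) = alt s t m * (if Even m then alt s t n else alt t s n) := by
  induction m generalizing s t with
  | zero => simp
  | succ m ih =>
    rw [Nat.add_right_comm, alt_succ, ih, alt_succ, mul_assoc]
    congr 2
    by_cases h : Even m
    · simp [h, Nat.even_add_one]
    · simp [h, Nat.even_add_one]

lemma alt_mul_rev {a b : A} (ha : a * a = 1) (hb : b * b = 1) (m : ℕ) :
    alt a b m * (if Even m then alt b a m else alt a b m) = 1 := by
  induction m generalizing a b with
  | zero => simp
  | succ m ih =>
    have e1 : alt a b (m + 1) = a * alt b a m := alt_succ _ _ _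
    by_cases h : Even m
    · have h' : ¬ Even (m + 1) := by rw [Nat.even_add_one]; simpa using h
      have e2 : alt a b (m + 1) = alt a b m * a := by rw [alt_succ_right, if_pos h]
      have ih' := ih hb ha
      rw [if_pos h] at ih'
      rw [if_neg h']
      calc alt a b (m + 1) * alt a b (m + 1) = (a * alt b a m) * (alt a b m * a) := by
            rw [← e1, ← e2]
        _ = a * (alt b a m * alt a b m) * a := by simp only [mul_assoc]
        _ = 1 := by rw [ih', mul_one, ha]
    · have h' : Even (m + 1) := by rw [Nat.even_add_one]; exact h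
      have e2 : alt b a (m + 1) = alt b a m * a := by rw [alt_succ_right, if_neg h]
      have ih' := ih hb ha
      rw [if_neg h] at ih'
      rw [if_pos h']
      calc alt a b (m + 1) * alt b a (m + 1) = (a * alt b a m) * (alt b a m * a) := by
            rw [← e1, ← e2]
        _ = a * (alt b a m * alt b a m) * a := by simp only [mul_assoc]
        _ = 1 := by rw [ih', mul_one, ha]

lemma pow_eq_alt (a b : A) (m : ℕ) : (a * b) ^ m = alt a b (2 * m) := by
  induction m with
  | zero => simp
  | succ m ih =>
    have : 2 * (m + 1) = 2 * m + 1 + 1 := by ring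
    rw [this, alt_succ, alt_succ, ← ih, pow_succ', mul_assoc]

lemma pow_eq_one_of_alt {a b : A} (ha : a * a = 1) (hb : b * b = 1) {m : ℕ}
    (h : alt a b m = alt b a m) : (a * b) ^ m = 1 := by
  rw [pow_eq_alt, two_mul, alt_add]
  have h2 := alt_mul_rev hb ha m
  rw [← h2]
  congr 1

lemma alt_eq_of_pow {G : Type*} [Group G] {a b : G} (ha : a * a = 1) (hb : b * b = 1) {m : ℕ}
    (h : (a * b) ^ m = 1) : alt a b m = alt b a m := by
  rw [pow_eq_alt, two_mul, alt_add] at h
  have h2 := alt_mul_rev hb ha m
  exact mul_right_cancel (h.trans h2.symm)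

end alt

variable {B : Type} (M : CoxeterMatrix B)

/-- The relators of the Artin group. -/
def artRel : Set (FreeGroup B) :=
  {r | ∃ s t, M s t ≠ 0 ∧ r = alt (FreeGroup.of s) (FreeGroup.of t) (M s t) *
    (alt (FreeGroup.of t) (FreeGroup.of s) (M s t))⁻¹}

/-- The Artin group of a Coxeter matrix. -/
abbrev AG : Type := PresentedGroup (artRel M)

/-- The standard generators of the Artin group. -/
def ga (s : B) : AG M := PresentedGroup.of s

/-- Standard parabolic subgroups. -/
def AX (X : Set B) : Subgroup (AG M) := Subgroup.closure (ga M '' X)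

/-- The Coxeter graph: distinct letters which do not commute are joined. -/
def coxGraph : SimpleGraph B where
  Adj s t := s ≠ t ∧ M s t ≠ 2
  symm := ⟨fun s t h => ⟨h.1.symm, by rw [M.symmetric t s]; exact h.2⟩⟩
  loopless := ⟨fun s h => h.1 rfl⟩

/-- Irreducible subsets: nonempty with connected Coxeter graph. -/
def Irr (X : Set B) : Prop := ((coxGraph M).induce X).Connected

/-- Vertices: proper irreducible parabolic subgroups. -/
def IsVertex (P : Subgroup (AG M)) : Prop :=
  ∃ (X : Set B) (g : AG M), X ≠ Set.univ ∧ Irr M X ∧ P = MulAut.conj g • AX M X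

variable {M}

/-- The orbit of `P` under conjugation by the powers of `α`. -/
def orb (α : AG M) (P : Subgroup (AG M)) : Set (Subgroup (AG M)) :=
  {Q | ∃ k : ℤ, Q = MulAut.conj (α ^ (-k)) • P}

/-- Homomorphisms out of the Artin group. -/
def liftAG {A : Type*} [Group A] (f : B → A)
    (h : ∀ s t, M s t ≠ 0 → alt (f s) (f t) (M s t) = alt (f t) (f s) (M s t)) : AG M →* A :=
  PresentedGroup.toGroup (f := f) (by
    rintro r ⟨s, t, hst, rfl⟩
    rw [map_mul, map_inv, map_alt, map_alt, FreeGroup.lift_apply_of, FreeGroup.lift_apply_of,
      h s t hst, mul_inv_cancel])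

lemma liftAG_ga {A : Type*} [Group A] (f : B → A) (h) (s : B) :
    liftAG (M := M) f h (ga M s) = f s := PresentedGroup.toGroup.of _

lemma simple_sq' (s : B) : M.simple s * M.simple s = 1 := by
  have := M.toCoxeterSystem.simple_mul_simple_self s
  rwa [CoxeterMatrix.toCoxeterSystem_simple] at this

lemma simple_alt (s t : B) :
    alt (M.simple s) (M.simple t) (M s t) = alt (M.simple t) (M.simple s) (M s t) := by
  apply alt_eq_of_pow (simple_sq' s) (simple_sq' t)
  have := M.toCoxeterSystem.simple_mul_simple_pow s t
  rwa [CoxeterMatrix.toCoxeterSystem_simple] at this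

variable (M) in
/-- The canonical map from the Artin group to the Coxeter group. -/
def piG : AG M →* M.Group := liftAG (fun s => M.simple s) (fun s t _ => simple_alt s t)

lemma piG_ga (s : B) : piG M (ga M s) = M.simple s := liftAG_ga _ _ s

end Pool.Agent.MP685115
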