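import Pool.Agent.Lib.MP_685115_al.Rep
import Pool.Agent.Lib.MP_685115_al.Artin

/-! Detection of left divisors by the Krammer operators, simply laced case. -/

set_option linter.unusedSectionVars false
set_option linter.unusedVariables false

namespace Pool.Agent.MP685115

open Polynomial

variable {S : Type} [Fintype S] [DecidableEq S] (G : SimpleGraph S) [DecidableRel G.Adj]

/-- The simply laced Coxeter matrix of a graph. -/
def slM : CoxeterMatrix S where
  M := Matrix.of fun s t => if s = t then 1 else if G.Adj s t then 3 else 2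
  isSymm := by
    ext s t
    simp only [Matrix.transpose_apply, Matrix.of_apply]
    by_cases h : s = t
    · subst h; rfl
    · rw [if_neg h, if_neg (Ne.symm h)]
      by_cases h2 : G.Adj s t
      · rw [if_pos h2, if_pos h2.symm]
      · rw [if_neg h2, if_neg (fun e => h2 e.symm)]
  diagonal i := by simp
  off_diagonal i i' h := by
    simp only [Matrix.of_apply, if_neg h]
    split_ifs <;> norm_num

lemma slM_adj {s t : S} (h : G.Adj s t) : slM G s t = 3 := by
  have : s ≠ t := G.ne_of_adj h
  show (if s = t then 1 else if G.Adj s t then 3 else 2) = 3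
  rw [if_neg this, if_pos h]

lemma slM_nadj {s t : S} (hne : s ≠ t) (h : ¬ G.Adj s t) : slM G s t = 2 := by
  show (if s = t then 1 else if G.Adj s t then 3 else 2) = 2
  rw [if_neg hne, if_neg h]

lemma slM_ne_zero (s t : S) : slM G s t ≠ 0 := by
  show (if s = t then 1 else if G.Adj s t then 3 else 2) ≠ 0
  split_ifs <;> norm_num

variable {G}

lemma sl_comm {s t : S} (hne : s ≠ t) (h : ¬ G.Adj s t) :
    sg (slM G) s * sg (slM G) t = sg (slM G) t * sg (slM G) s := by
  have := sg_rel (M := slM G) (slM_ne_zero G s t)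
  rw [slM_nadj G hne h] at this
  simpa [alt_succ] using this

lemma sl_braid {s t : S} (h : G.Adj s t) :
    sg (slM G) s * (sg (slM G) t * sg (slM G) s) = sg (slM G) t * (sg (slM G) s * sg (slM G) t) := by
  have := sg_rel (M := slM G) (slM_ne_zero G s t)
  rw [slM_adj G h] at this
  simpa [alt_succ] using this

/-- Lift from relations in the simply laced case. -/
lemma sl_relations {A : Type*} [Monoid A] (f : S → A)
    (hc : ∀ s t, s ≠ t → ¬ G.Adj s t → f s * f t = f t * f s)
    (hb : ∀ s t, G.Adj s t → f s * (f t * f s) = f t * (f s * f t)) :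
    ∀ s t, slM G s t ≠ 0 → alt (f s) (f t) (slM G s t) = alt (f t) (f s) (slM G s t) := by
  intro s t _
  by_cases hne : s = t
  · subst hne; rfl
  by_cases h : G.Adj s t
  · rw [slM_adj G h]
    simpa [alt_succ] using hb s t h
  · rw [slM_nadj G hne h]
    simpa [alt_succ] using hc s t hne h

section ring
variable [hG : Fact (PD G)] {R : Type*} [CommRing R] (x y : R)

variable (G) in
/-- The Krammer representation of the Artin monoid. -/
noncomputable def rhoHom : AM (slM G) →* Module.End R (PR G →₀ R) :=
  liftAM (fun s => rho x y s) (sl_relations _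
    (fun s t hne h => LinearMap.ext (fun v => rho_comm x y hne h v))
    (fun s t h => LinearMap.ext (fun v => rho_braid x y h v)))

lemma rhoHom_sg_mul (s : S) (u : AM (slM G)) (v : PR G →₀ R) :
    rhoHom G x y (sg _ s * u) v = rho x y s (rhoHom G x y u v) := by
  rw [map_mul]; rfl

/-! ### Coordinates of psi -/

lemma e_apply (b c : PR G) : (e b : PR G →₀ R) c = if b = c then 1 else 0 := by
  simp [e, Finsupp.single_apply]

lemma rfp_eq_iff {s : S} {b c : PR G} : rfp G s b = c ↔ b = rfp G s c := by
  constructor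
  · rintro rfl; rw [rfp_rfp]
  · rintro rfl; rw [rfp_rfp]

lemma psi_coord_al (s : S) (v : PR G →₀ R) : psi y s v (alp G s) = 0 := by
  have : (Finsupp.lapply (alp G s)).comp (psi y s) = (0 : (PR G →₀ R) →ₗ[R] R) := by
    apply ext_e
    intro b
    simp only [LinearMap.comp_apply, Finsupp.lapply_apply, LinearMap.zero_apply]
    have ha : pr G s (alp G s).1 = 2 := pr_al_self G s
    rcases PR.cases s b with h | h | h | h
    · rw [psi_al y h]; rfl
    · rw [psi_zero y h, e_apply, if_neg]
      rintro rfl; omega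
    · have h1 : b.1 ≠ al s := ne1 h
      have h2 := pr_rfp_self h1
      rw [psi_one y h, Finsupp.smul_apply, e_apply, if_neg, smul_zero]
      intro h3; rw [h3] at h2; omega
    · have h1 : b.1 ≠ al s := nem h
      have h2 := pr_rfp_self h1
      rw [psi_neg y h, Finsupp.add_apply, Finsupp.smul_apply, e_apply, e_apply, if_neg, if_neg,
        smul_zero, add_zero]
      · intro h3; rw [h3] at h2; omega
      · rintro rfl; omega
  exact LinearMap.congr_fun this v

lemma psi_coord_zero {s : S} {c : PR G} (hc : pr G s c.1 = 0) (v : PR G →₀ R) :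
    psi y s v c = v c := by
  have : (Finsupp.lapply c).comp (psi y s) = (Finsupp.lapply c : (PR G →₀ R) →ₗ[R] R) := by
    apply ext_e
    intro b
    simp only [LinearMap.comp_apply, Finsupp.lapply_apply]
    rcases PR.cases s b with h | h | h | h
    · have hb : pr G s b.1 = 2 := by rw [h, pr_al_self]
      rw [psi_al y h, e_apply, if_neg]
      · rfl
      · rintro rfl; omega
    · rw [psi_zero y h]
    · have h1 : b.1 ≠ al s := ne1 h
      have h2 := pr_rfp_self h1
      rw [psi_one y h, Finsupp.smul_apply, e_apply, e_apply, if_neg, if_neg, smul_zero]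
      · rintro rfl; omega
      · intro h3; rw [h3] at h2; omega
    · have h1 : b.1 ≠ al s := nem h
      have h2 := pr_rfp_self h1
      rw [psi_neg y h, Finsupp.add_apply, Finsupp.smul_apply, e_apply, e_apply, if_neg, if_neg,
        smul_zero, add_zero]
      · intro h3; rw [h3] at h2; omega
      · rintro rfl; omega
  exact LinearMap.congr_fun this v

lemma psi_coord_one {s : S} {c : PR G} (hc : pr G s c.1 = 1) (v : PR G →₀ R) :
    psi y s v c = v (rfp G s c) := by
  have hc1 : c.1 ≠ al s := ne1 hc
  have hc2 := pr_rfp_self hc1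
  have : (Finsupp.lapply c).comp (psi y s) =
      (Finsupp.lapply (rfp G s c) : (PR G →₀ R) →ₗ[R] R) := by
    apply ext_e
    intro b
    simp only [LinearMap.comp_apply, Finsupp.lapply_apply]
    rcases PR.cases s b with h | h | h | h
    · have hb : pr G s b.1 = 2 := by rw [h, pr_al_self]
      rw [psi_al y h, e_apply, if_neg]
      · rfl
      · intro h3; rw [h3] at hb; omega
    · rw [psi_zero y h, e_apply, e_apply, if_neg, if_neg]
      · intro h3; rw [h3] at h; omega
      · rintro rfl; omega
    · have h1 : b.1 ≠ al s := ne1 h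
      have h2 := pr_rfp_self h1
      rw [psi_one y h, Finsupp.smul_apply, e_apply, e_apply, if_neg, if_neg, smul_zero]
      · intro h3; rw [h3] at h; omega
      · intro h3; rw [h3] at h2; omega
    · rw [psi_neg y h, Finsupp.add_apply, Finsupp.smul_apply, e_apply, e_apply, e_apply, if_neg,
        smul_zero, zero_add]
      · by_cases h3 : rfp G s b = c
        · rw [if_pos h3, if_pos (rfp_eq_iff.1 h3)]
        · rw [if_neg h3, if_neg (fun h4 => h3 (rfp_eq_iff.2 h4))]
      · rintro rfl; omega
  exact LinearMap.congr_fun this v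

lemma psi_coord_neg {s : S} {c : PR G} (hc : pr G s c.1 = -1) (v : PR G →₀ R) :
    psi y s v c = (1 - y) * v c + y * v (rfp G s c) := by
  have hc1 : c.1 ≠ al s := nem hc
  have hc2 := pr_rfp_self hc1
  have : (Finsupp.lapply c).comp (psi y s) =
      (1 - y) • (Finsupp.lapply c : (PR G →₀ R) →ₗ[R] R) +
        y • (Finsupp.lapply (rfp G s c) : (PR G →₀ R) →ₗ[R] R) := by
    apply ext_e
    intro b
    simp only [LinearMap.comp_apply, Finsupp.lapply_apply, LinearMap.add_apply,
      LinearMap.smul_apply, smul_eq_mul]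
    rcases PR.cases s b with h | h | h | h
    · have hb : pr G s b.1 = 2 := by rw [h, pr_al_self]
      rw [psi_al y h, e_apply, e_apply, if_neg, if_neg]
      · simp
      · intro h3; rw [h3] at hb; omega
      · rintro rfl; omega
    · rw [psi_zero y h, e_apply, e_apply, if_neg, if_neg]
      · simp
      · intro h3; rw [h3] at h; omega
      · rintro rfl; omega
    · have h1 : b.1 ≠ al s := ne1 h
      have h2 := pr_rfp_self h1
      rw [psi_one y h, Finsupp.smul_apply, e_apply, e_apply, e_apply, smul_eq_mul,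
        if_neg (c := b = c)]
      · by_cases h3 : rfp G s b = c
        · rw [if_pos h3, if_pos (rfp_eq_iff.1 h3)]; ring
        · rw [if_neg h3, if_neg (fun h4 => h3 (rfp_eq_iff.2 h4))]; ring
      · rintro rfl; omega
    · have h1 : b.1 ≠ al s := nem h
      have h2 := pr_rfp_self h1
      rw [psi_neg y h, Finsupp.add_apply, Finsupp.smul_apply, e_apply, e_apply, e_apply,
        if_neg (c := rfp G s b = c), if_neg (c := b = rfp G s c)]
      · rw [smul_eq_mul]; ring
      · intro h3; rw [h3] at h; omega
      · intro h3; rw [h3] at h2; omega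
  have h2 := LinearMap.congr_fun this v
  simpa using h2

lemma rho_zero (s : S) (v : PR G →₀ R) : rho 0 y s v = psi y s v := by
  rw [rho_apply]; simp

end ring

/-! ### Detection -/

section detect
variable [hG : Fact (PD G)]

/-- The row of the root `b` vanishes in the operator of `u` at the parameters `(0, 1/2)`. -/
def Z (u : AM (slM G)) (b : PR G) : Prop :=
  ∀ c, (rhoHom G (0 : ℚ) (1/2) u (e c)) b = 0

lemma half_nonneg (u : AM (slM G)) (c b : PR G) :
    0 ≤ (rhoHom G (0 : ℚ) (1/2) u (e c)) b := by
  induction u using AM_ind generalizing b with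
  | h1 =>
    rw [map_one, Module.End.one_apply, e_apply]
    split_ifs <;> norm_num
  | hs s u ih =>
    rw [rhoHom_sg_mul, rho_zero]
    rcases PR.cases s b with h | h | h | h
    · have : b = alp G s := Subtype.ext h
      rw [this, psi_coord_al]
    · rw [psi_coord_zero _ h]; exact ih _
    · rw [psi_coord_one _ h]; exact ih _
    · rw [psi_coord_neg _ h]
      have h1 := ih b
      have h2 := ih (rfp G s b)
      linarith

lemma Z_al (s : S) (u : AM (slM G)) : Z (sg _ s * u) (alp G s) := by
  intro c
  rw [rhoHom_sg_mul, rho_zero, psi_coord_al]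

lemma Z_zero {s : S} {b : PR G} (h : pr G s b.1 = 0) (u : AM (slM G)) :
    Z (sg _ s * u) b ↔ Z u b := by
  simp only [Z, rhoHom_sg_mul, rho_zero, psi_coord_zero _ h]

lemma Z_one {s : S} {b : PR G} (h : pr G s b.1 = 1) (u : AM (slM G)) :
    Z (sg _ s * u) b ↔ Z u (rfp G s b) := by
  simp only [Z, rhoHom_sg_mul, rho_zero, psi_coord_one _ h]

lemma Z_neg {s : S} {b : PR G} (h : pr G s b.1 = -1) (u : AM (slM G)) :
    Z (sg _ s * u) b ↔ Z u b ∧ Z u (rfp G s b) := by
  simp only [Z, rhoHom_sg_mul, rho_zero, psi_coord_neg _ h]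
  constructor
  · intro hz
    have key : ∀ c, (rhoHom G (0 : ℚ) (1/2) u (e c)) b = 0 ∧
        (rhoHom G (0 : ℚ) (1/2) u (e c)) (rfp G s b) = 0 := by
      intro c
      have h1 := half_nonneg u c b
      have h2 := half_nonneg u c (rfp G s b)
      have h3 := hz c
      constructor <;> linarith
    exact ⟨fun c => (key c).1, fun c => (key c).2⟩
  · rintro ⟨h1, h2⟩ c
    rw [h1 c, h2 c]; ring

lemma not_Z_one (b : PR G) : ¬ Z (1 : AM (slM G)) b := by
  intro h
  have := h b
  rw [map_one, Module.End.one_apply, e_apply, if_pos rfl] at this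
  exact one_ne_zero this

lemma Z_sg_mul_cases {s t : S} (hst : s ≠ t) (u : AM (slM G))
    (ih : ∀ v : AM (slM G), len v ≤ len u → ∀ r, Z v (alp G r) → sg _ r ∣ v)
    (hz : Z (sg _ t * u) (alp G s)) :
    alt (sg _ s) (sg _ t) (slM G s t) ∣ sg (slM G) t * u := by
  rw [sg_rel (slM_ne_zero G s t)]
  by_cases hadj : G.Adj s t
  · have h1 : pr G t (alp G s).1 = -1 := pr_al_adj G hadj.symm
    rw [Z_neg h1] at hz
    obtain ⟨u', hu'⟩ := ih u le_rfl s hz.1
    have h2 := hz.2
    have n1 : (alp G s).1 ≠ al t := nem h1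
    have h4 : pr G s (rfp G t (alp G s)).1 = 1 := by
      rw [pr_rfp_adj n1 hadj, h1]; simp only [alp]; rw [pr_al_self]; norm_num
    have h5 : pr G t (rfp G t (alp G s)).1 = 1 := by rw [pr_rfp_self n1]; omega
    have h6 : rfp G s (rfp G t (alp G s)) = alp G t := by
      apply Subtype.ext
      rw [rfp_val (ne1 h4)]
      exact rf_eq_al_of_one_one hG.out (rfp G t (alp G s)).2 hadj.symm h5 h4
    rw [hu', Z_one h4, h6] at h2
    obtain ⟨u'', hu''⟩ := ih u' (by rw [hu', len_mul]; omega) t h2
    rw [slM_adj G hadj]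
    refine ⟨u'', ?_⟩
    rw [hu', hu'']
    simp [alt_succ, mul_assoc]
  · have h1 : pr G t (alp G s).1 = 0 :=
      pr_al_nadj G hst.symm (fun h => hadj h.symm)
    rw [Z_zero h1] at hz
    obtain ⟨u', hu'⟩ := ih u le_rfl s hz
    rw [slM_nadj G hst hadj]
    refine ⟨u', ?_⟩
    rw [hu']
    simp [alt_succ, mul_assoc]

/-- Detection of left divisors. -/
theorem detect : ∀ (n : ℕ) (u : AM (slM G)), len u = n → ∀ s, Z u (alp G s) → sg _ s ∣ u := by
  intro n
  induction n using Nat.strong_induction_on with
  | _ n IH =>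
    intro u hu s hz
    rcases eq_one_or u with rfl | ⟨t, v, rfl⟩
    · exact absurd hz (not_Z_one _)
    · by_cases hst : s = t
      · rw [hst]; exact Dvd.intro _ rfl
      · rw [len_mul, len_sg] at hu
        have := Z_sg_mul_cases hst v
          (fun w hw r hr => IH (len w) (by omega) w rfl r hr) hz
        refine dvd_trans ?_ this
        have h1 := slM_ne_zero G s t
        obtain ⟨k, hk⟩ : ∃ k, slM G s t = k + 1 := ⟨slM G s t - 1, by omega⟩
        rw [hk, alt_succ]
        exact Dvd.intro _ rfl

theorem Z_iff_dvd (u : AM (slM G)) (s : S) : Z u (alp G s) ↔ sg _ s ∣ u := by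
  constructor
  · exact detect _ u rfl s
  · rintro ⟨v, rfl⟩
    exact Z_al s v

theorem sl_lcm {s t : S} (hst : s ≠ t) {u v : AM (slM G)} (h : sg _ s * u = sg _ t * v) :
    alt (sg _ s) (sg _ t) (slM G s t) ∣ sg (slM G) s * u := by
  rw [h]
  apply Z_sg_mul_cases hst v (fun w _ r hr => detect _ w rfl r hr)
  rw [← h]
  exact Z_al s u

end detect

/-! ### Change of rings -/

section functor
variable [hG : Fact (PD G)] {R R' : Type*} [CommRing R] [CommRing R'] (f : R →+* R')

/-- Coordinatewise image. -/
noncomputable def mapf (v : PR G →₀ R) : PR G →₀ R' := Finsupp.mapRange f (map_zero f) v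

lemma mapf_apply (v : PR G →₀ R) (b : PR G) : mapf f v b = f (v b) := by simp [mapf]

lemma mapf_add (v w : PR G →₀ R) : mapf f (v + w) = mapf f v + mapf f w := by
  ext b; simp [mapf_apply]

lemma mapf_smul (r : R) (v : PR G →₀ R) : mapf f (r • v) = f r • mapf f v := by
  ext b; simp [mapf_apply]

lemma mapf_e (b : PR G) : mapf f (e b) = e b := by
  ext c
  rw [mapf_apply, e_apply, e_apply]
  split_ifs <;> simp

lemma mapf_zero : mapf f (0 : PR G →₀ R) = 0 := by ext b; simp [mapf_apply]

lemma mapf_psiv (y : R) (s : S) (b : PR G) : mapf f (psiv y s b) = psiv (f y) s b := by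
  simp only [psiv]
  split_ifs
  · exact mapf_zero f
  · exact mapf_e f b
  · rw [mapf_smul, mapf_e]
  · rw [mapf_add, mapf_smul, mapf_e, mapf_e]; simp

lemma f_aeval (y : R) (p : ℤ[X]) : f (aeval y p) = aeval (f y) p := by
  rw [aeval_def, aeval_def, hom_eval₂]
  congr 1
  exact RingHom.ext_int _ _

lemma e_span (v : PR G →₀ R) : ∀ (p : (PR G →₀ R) → Prop), p 0 →
    (∀ v w, p v → p w → p (v + w)) → (∀ (r : R) b, p (r • e b)) → p v := by
  intro p h0 ha hs
  induction v using Finsupp.induction_linear with
  | zero => exact h0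
  | add v w hv hw => exact ha v w hv hw
  | single b r =>
    have : Finsupp.single b r = r • (e b : PR G →₀ R) := by simp [e]
    rw [this]; exact hs r b

lemma mapf_rho (x y : R) (s : S) (v : PR G →₀ R) :
    mapf f (rho x y s v) = rho (f x) (f y) s (mapf f v) := by
  refine e_span v (fun v => mapf f (rho x y s v) = rho (f x) (f y) s (mapf f v)) ?_ ?_ ?_
  · simp only [map_zero, mapf_zero]
  · intro v w hv hw
    rw [map_add, mapf_add, hv, hw, mapf_add, map_add]
  · intro r b
    rw [map_smul, mapf_smul, mapf_smul, map_smul, mapf_e]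
    congr 1
    rw [rho_apply, rho_apply, mapf_add, psi_e, psi_e, mapf_psiv, mapf_smul, mapf_e, fn_e, fn_e,
      map_mul, f_aeval]

lemma mapf_rhoHom (x y : R) (u : AM (slM G)) (v : PR G →₀ R) :
    mapf f (rhoHom G x y u v) = rhoHom G (f x) (f y) u (mapf f v) := by
  induction u using AM_ind with
  | h1 => simp
  | hs s u ih => rw [rhoHom_sg_mul, mapf_rho, ih, rhoHom_sg_mul]

end functor

/-! ### Faithfulness on the monoid -/

section faithful
variable [hG : Fact (PD G)]

/-- A parameter ring: the data needed for faithfulness. -/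
structure Param (R P : Type*) [CommRing R] [CommRing P] where
  x : P
  y : P
  i : P →+* R
  inj : Function.Injective i
  ev : P →+* ℚ
  ev_x : ev x = 0
  ev_y : ev y = 1 / 2
  hx : IsUnit (i x)
  hy : IsUnit (i y)

variable {R P : Type*} [CommRing R] [CommRing P] (pm : Param R P)

lemma Z_eq_of_rho_eq {u v : AM (slM G)}
    (h : rhoHom G (pm.i pm.x) (pm.i pm.y) u = rhoHom G (pm.i pm.x) (pm.i pm.y) v) (b : PR G) :
    Z u b ↔ Z v b := by
  have h1 : ∀ c, rhoHom G pm.x pm.y u (e c) = rhoHom G pm.x pm.y v (e c) := by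
    intro c
    have a1 := mapf_rhoHom pm.i pm.x pm.y u (e c)
    have a2 := mapf_rhoHom pm.i pm.x pm.y v (e c)
    rw [h, ← a2] at a1
    ext b
    have a3 := DFunLike.congr_fun a1 b
    rw [mapf_apply, mapf_apply] at a3
    exact pm.inj a3
  have h2 : ∀ c, rhoHom G (0 : ℚ) (1/2) u (e c) = rhoHom G (0 : ℚ) (1/2) v (e c) := by
    intro c
    have a1 := mapf_rhoHom pm.ev pm.x pm.y u (e c)
    have a2 := mapf_rhoHom pm.ev pm.x pm.y v (e c)
    rw [pm.ev_x, pm.ev_y, mapf_e] at a1 a2
    rw [← a1, ← a2, h1]
  simp only [Z, h2]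

theorem rhoHom_injective : ∀ (n : ℕ) (u v : AM (slM G)), len u = n →
    rhoHom G (pm.i pm.x) (pm.i pm.y) u = rhoHom G (pm.i pm.x) (pm.i pm.y) v → u = v := by
  intro n
  induction n with
  | zero =>
    intro u v hu h
    have hu1 : u = 1 := eq_one_of_len hu
    rcases eq_one_or v with rfl | ⟨s, v', rfl⟩
    · exact hu1
    · exfalso
      have := (Z_eq_of_rho_eq pm h (alp G s)).2 (Z_al s v')
      rw [hu1] at this
      exact not_Z_one _ this
  | succ n ih =>
    intro u v hu h
    rcases eq_one_or u with rfl | ⟨s, u', rfl⟩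
    · simp at hu
    · have h1 := (Z_eq_of_rho_eq pm h (alp G s)).1 (Z_al s u')
      obtain ⟨v', rfl⟩ := (Z_iff_dvd v s).1 h1
      congr 1
      apply ih u' v' (by rw [len_mul, len_sg] at hu; omega)
      apply LinearMap.ext
      intro w
      have h2 := LinearMap.congr_fun h w
      rw [rhoHom_sg_mul, rhoHom_sg_mul] at h2
      exact (rho_bijective _ _ pm.hx pm.hy s).1 h2

include pm in
theorem hasP_sl : HasP (slM G) where
  cancel s u v h := by
    apply rhoHom_injective pm _ u v rfl
    apply LinearMap.ext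
    intro w
    have h2 := congrArg (fun z => rhoHom G (pm.i pm.x) (pm.i pm.y) z w) h
    simp only [rhoHom_sg_mul] at h2
    exact (rho_bijective _ _ pm.hx pm.hy s).1 h2
  lcm s t u v hst h := ⟨slM_ne_zero G s t, sl_lcm hst h⟩

end faithful

end Pool.Agent.MP685115
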