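import Pool.Agent.Lib.MP_685115_al.Final

/-! Dihedral Artin groups: orbits of unbounded size in rank two. -/

set_option linter.unusedSectionVars false
set_option linter.unusedVariables false

namespace Pool.Agent.MP685115

open scoped Pointwise

/-- Groups generated by two involutions with product of finite order are finite. -/
theorem finite_of_two {W : Type*} [Group W] {s t : W} (hs : s * s = 1) (ht : t * t = 1)
    {m : ℕ} (hm : 0 < m) (hst : (s * t) ^ m = 1)
    (hind : ∀ p : W → Prop, p 1 → (∀ w, p w → p (s * w)) → (∀ w, p w → p (t * w)) → ∀ w, p w) :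
    Finite W := by
  set a := s * t with ha
  have hs' : s⁻¹ = s := inv_eq_of_mul_eq_one_left hs
  have ht' : t⁻¹ = t := inv_eq_of_mul_eq_one_left ht
  have hconj : s * a * s⁻¹ = a⁻¹ := by
    rw [ha, mul_inv_rev, hs', ht', ← mul_assoc, hs, one_mul]
  have h1 : ∀ i : ℤ, s * a ^ i = a ^ (-i) * s := by
    intro i
    have h2 : (s * a * s⁻¹) ^ i = s * a ^ i * s⁻¹ := conj_zpow
    rw [hconj, inv_zpow, ← zpow_neg] at h2
    rw [h2, mul_assoc, inv_mul_cancel, mul_one]
  have ht2 : t = a⁻¹ * s := by rw [ha, mul_inv_rev, hs', ht', mul_assoc, hs, mul_one]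
  have h2 : ∀ i : ℤ, t * a ^ i = a ^ (-1 - i) * s := by
    intro i
    rw [ht2, mul_assoc, h1, ← mul_assoc, ← zpow_neg_one, ← zpow_add]
    rfl
  have hall : ∀ w : W, ∃ i : ℤ, w = a ^ i ∨ w = a ^ i * s := by
    apply hind
    · exact ⟨0, Or.inl (by simp)⟩
    · rintro w ⟨i, rfl | rfl⟩
      · exact ⟨-i, Or.inr (h1 i)⟩
      · exact ⟨-i, Or.inl (by rw [← mul_assoc, h1, mul_assoc, hs, mul_one])⟩
    · rintro w ⟨i, rfl | rfl⟩
      · exact ⟨-1 - i, Or.inr (h2 i)⟩
      · exact ⟨-1 - i, Or.inl (by rw [← mul_assoc, h2, mul_assoc, hs, mul_one])⟩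
  have hfin : (Subgroup.zpowers a : Set W).Finite := by
    rw [finite_zpowers, isOfFinOrder_iff_pow_eq_one]
    exact ⟨m, hm, hst⟩
  have huniv : (Set.univ : Set W).Finite := by
    apply (hfin.union (hfin.image (· * s))).subset
    intro w _
    obtain ⟨i, hi | hi⟩ := hall w
    · exact Or.inl (by rw [hi]; exact Subgroup.zpow_mem_zpowers a i)
    · exact Or.inr ⟨a ^ i, Subgroup.zpow_mem_zpowers a i, hi.symm⟩
  exact Set.finite_univ_iff.1 huniv

lemma I_label (k : ℕ) : CoxeterMatrix.I k 0 1 = k + 2 := rfl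

lemma I_label' (k : ℕ) : CoxeterMatrix.I k 1 0 = k + 2 := rfl

theorem finite_I (k : ℕ) : Finite (CoxeterMatrix.I k).Group := by
  apply finite_of_two (s := (CoxeterMatrix.I k).simple 0) (t := (CoxeterMatrix.I k).simple 1)
    (simple_sq' 0) (simple_sq' 1) (m := k + 2) (by omega)
  · have := (CoxeterMatrix.I k).toCoxeterSystem.simple_mul_simple_pow 0 1
    rwa [CoxeterMatrix.toCoxeterSystem_simple] at this
  · intro p h1 hs ht w
    apply (CoxeterMatrix.I k).toCoxeterSystem.simple_induction_left w h1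
    intro w i hw
    rw [CoxeterMatrix.toCoxeterSystem_simple]
    fin_cases i
    · exact hs w hw
    · exact ht w hw

/-- The map to the dihedral group. -/
noncomputable def toDih (k : ℕ) : AG (CoxeterMatrix.I k) →* DihedralGroup (k + 2) :=
  liftAG (fun i => DihedralGroup.sr ((i.val : ℕ) : ZMod (k + 2))) (by
    intro i j _
    apply alt_eq_of_pow (DihedralGroup.sr_mul_self _) (DihedralGroup.sr_mul_self _)
    by_cases h : i = j
    · subst h
      rw [DihedralGroup.sr_mul_self, one_pow]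
    · have h2 : (CoxeterMatrix.I k) i j = k + 2 := by
        show (if i = j then 1 else k + 2) = k + 2
        rw [if_neg h]
      rw [h2, DihedralGroup.sr_mul_sr, DihedralGroup.r_pow, ZMod.natCast_self, mul_zero,
        DihedralGroup.r_zero])

lemma toDih_ga (k : ℕ) (i : Fin 2) :
    toDih k (ga (CoxeterMatrix.I k) i) = DihedralGroup.sr ((i.val : ℕ) : ZMod (k + 2)) :=
  liftAG_ga _ _ i

/-- The Coxeter element. -/
def cox (k : ℕ) : AG (CoxeterMatrix.I k) :=
  ga (CoxeterMatrix.I k) 0 * ga (CoxeterMatrix.I k) 1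

lemma toDih_cox_pow (k j : ℕ) : toDih k (cox k ^ j) = DihedralGroup.r (j : ZMod (k + 2)) := by
  have h : toDih k (cox k) = DihedralGroup.r 1 := by
    rw [cox, map_mul, toDih_ga, toDih_ga, DihedralGroup.sr_mul_sr]
    simp
  rw [map_pow, h, DihedralGroup.r_one_pow]

lemma AX_single {B : Type} (M : CoxeterMatrix B) (s : B) :
    AX M {s} = Subgroup.zpowers (ga M s) := by
  rw [AX, Set.image_singleton, Subgroup.zpowers_eq_closure]

/-- Some power of the Coxeter element normalises the parabolic subgroup. -/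
lemma cox_pow_norm (k : ℕ) (hk : Odd k) :
    MulAut.conj (cox k ^ (k + 2)) • AX (CoxeterMatrix.I k) {0} = AX (CoxeterMatrix.I k) {0} := by
  set a := ga (CoxeterMatrix.I k) 0 with ha
  set b := ga (CoxeterMatrix.I k) 1 with hb
  have hodd : ¬ Even (k + 2) := by
    intro h
    obtain ⟨r, hr⟩ := hk
    obtain ⟨q, hq⟩ := h
    omega
  have hrel : alt a b (k + 2) = alt b a (k + 2) :=
    ga_rel (M := CoxeterMatrix.I k) (s := 0) (t := 1) (by rw [I_label]; omega)
  have h1 : (a * b) ^ (k + 2) = (b * a) ^ (k + 2) := by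
    rw [pow_eq_alt, pow_eq_alt, two_mul, alt_add a b (k + 2) (k + 2),
      alt_add b a (k + 2) (k + 2), if_neg hodd, if_neg hodd, hrel]
  have h2 : cox k ^ (k + 2) * a * (cox k ^ (k + 2))⁻¹ = a := by
    have h3 : (a * b) ^ (k + 2) * a = a * (a * b) ^ (k + 2) := by
      rw [mul_pow_mul, ← h1]
    have h4 : cox k = a * b := rfl
    rw [h4, h3, mul_assoc, mul_inv_cancel, mul_one]
  rw [AX, Subgroup.smul_closure]
  congr 1
  rw [Set.image_singleton, Set.smul_set_singleton, MulAut.smul_def, MulAut.conj_apply, ← ha, h2]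

lemma dvd_of_cox_pow_norm (k : ℕ) (hk : Odd k) (j : ℕ)
    (h : MulAut.conj (cox k ^ j) • AX (CoxeterMatrix.I k) {0} = AX (CoxeterMatrix.I k) {0}) :
    k + 2 ∣ j := by
  set a := ga (CoxeterMatrix.I k) 0 with ha
  have h1 : MulAut.conj (cox k ^ j) • a ∈ AX (CoxeterMatrix.I k) {0} := by
    have : MulAut.conj (cox k ^ j) • a ∈ MulAut.conj (cox k ^ j) • AX (CoxeterMatrix.I k) {0} := by
      apply Subgroup.smul_mem_pointwise_smul
      rw [AX_single]; exact Subgroup.mem_zpowers _
    rwa [h] at this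
  rw [AX_single, MulAut.smul_def, MulAut.conj_apply] at h1
  obtain ⟨i, hi⟩ := Subgroup.mem_zpowers_iff.1 h1
  have h2 := congrArg (toDih k) hi
  rw [map_zpow, map_mul, map_mul, map_inv, toDih_cox_pow, toDih_ga] at h2
  have h0 : ((((0 : Fin 2).val : ℕ)) : ZMod (k + 2)) = 0 := by simp
  rw [h0, DihedralGroup.r_mul_sr, DihedralGroup.inv_r, DihedralGroup.sr_mul_r] at h2
  have hsq : (DihedralGroup.sr (0 : ZMod (k + 2))) ^ (2 : ℤ) = 1 := by
    rw [zpow_two, DihedralGroup.sr_mul_self]
  rcases Int.even_or_odd' i with ⟨q, rfl | rfl⟩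
  · rw [zpow_mul, hsq, one_zpow, DihedralGroup.one_def] at h2
    cases h2
  · rw [zpow_add, zpow_mul, hsq, one_zpow, one_mul, zpow_one] at h2
    have h3 : (0 : ZMod (k + 2)) = 0 - (j : ZMod (k + 2)) + -(j : ZMod (k + 2)) :=
      DihedralGroup.sr.inj h2
    have h4 : ((2 * j : ℕ) : ZMod (k + 2)) = 0 := by
      push_cast
      linear_combination h3
    have h5 := (ZMod.natCast_eq_zero_iff _ _).1 h4
    have h6 : Nat.Coprime (k + 2) 2 := by
      rw [Nat.coprime_two_right]
      obtain ⟨r, hr⟩ := hk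
      exact ⟨r + 1, by omega⟩
    exact h6.dvd_of_dvd_mul_left h5

theorem rank_two (N : ℕ) : ∃ M : CoxeterMatrix (Fin 2), Finite M.Group ∧
    ∃ (α : AG M) (P : Subgroup (AG M)), IsVertex M P ∧ (orb α P).Finite ∧
      N < (orb α P).ncard := by
  set k := 2 * N + 1 with hkdef
  have hk : Odd k := ⟨N, rfl⟩
  refine ⟨CoxeterMatrix.I k, finite_I k, cox k, AX (CoxeterMatrix.I k) {0}, ?_, ?_⟩
  · refine ⟨{0}, 1, ?_, ?_, ?_⟩
    · intro h
      have : (1 : Fin 2) ∈ ({0} : Set (Fin 2)) := by rw [h]; trivial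
      simp at this
    · have : Subsingleton ({0} : Set (Fin 2)) := by
        constructor
        rintro ⟨a, ha⟩ ⟨b, hb⟩
        apply Subtype.ext
        rw [Set.mem_singleton_iff] at ha hb
        exact ha.trans hb.symm
      have hne : Nonempty ({0} : Set (Fin 2)) := ⟨⟨0, rfl⟩⟩
      exact { preconnected := fun a b => by rw [Subsingleton.elim a b], nonempty := hne }
    · rw [map_one, one_smul]
  · set P := AX (CoxeterMatrix.I k) {0} with hP
    set a := MulAut.conj (cox k) with ha
    set p := Function.minimalPeriod (a • ·) P with hp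
    have h1 : p ∣ k + 2 := by
      rw [hp]
      apply MulAction.pow_smul_eq_iff_minimalPeriod_dvd.1
      rw [ha, ← map_pow]
      exact cox_pow_norm k hk
    have h2 : k + 2 ∣ p := by
      apply dvd_of_cox_pow_norm k hk
      rw [map_pow]
      exact MulAction.pow_smul_eq_iff_minimalPeriod_dvd.2 (dvd_refl p)
    have h3 : p = k + 2 := Nat.dvd_antisymm h1 h2
    have hne : NeZero p := ⟨by omega⟩
    have hfin : Finite (MulAction.orbit (Subgroup.zpowers a) P) := by
      have hf : Finite (ZMod p) := inferInstance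
      exact Finite.of_equiv _ (MulAction.orbitZPowersEquiv a P).symm
    rw [orb_eq]
    refine ⟨Set.toFinite _, ?_⟩
    have hft := Fintype.ofFinite (MulAction.orbit (Subgroup.zpowers a) P)
    have hcard : (MulAction.orbit (Subgroup.zpowers a) P).ncard = p := by
      rw [hp, MulAction.minimalPeriod_eq_card, ← Nat.card_coe_set_eq, Nat.card_eq_fintype_card]
    rw [← ha, hcard, h3]
    omega

end Pool.Agent.MP685115
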