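import Pool.Agent.Lib.MP_685115_al.Unip

/-! Orbits of irreducible parabolic subgroups. -/

set_option linter.unusedSectionVars false
set_option linter.unusedVariables false

namespace Pool.Agent.MP685115

open scoped Pointwise
open Real

/-! ### The bound for one group -/

lemma orb_eq {B : Type} {M : CoxeterMatrix B} (α : AG M) (P : Subgroup (AG M)) :
    orb α P = MulAction.orbit (Subgroup.zpowers (MulAut.conj α)) P := by
  ext Q
  constructor
  · rintro ⟨k, rfl⟩
    refine ⟨⟨MulAut.conj α ^ (-k), Subgroup.zpow_mem_zpowers _ _⟩, ?_⟩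
    simp only [map_zpow]
    rfl
  · rintro ⟨⟨a, ⟨k, rfl⟩⟩, rfl⟩
    refine ⟨-k, ?_⟩
    rw [neg_neg, map_zpow]
    rfl

lemma conj_pow_smul_iff {B : Type} {M : CoxeterMatrix B} (α g : AG M) (n : ℕ)
    (Q : Subgroup (AG M)) :
    MulAut.conj (α ^ n) • (MulAut.conj g • Q) = MulAut.conj g • Q ↔
      MulAut.conj ((g⁻¹ * α * g) ^ n) • Q = Q := by
  have h1 : (g⁻¹ * α * g) ^ n = g⁻¹ * α ^ n * g := by
    have := conj_pow (i := n) (a := g⁻¹) (b := α)
    rwa [inv_inv] at this
  rw [h1, map_mul, map_mul, mul_smul, mul_smul, map_inv, inv_smul_eq_iff]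

theorem orb_dvd {B : Type} [Finite B] (M : CoxeterMatrix B) [Finite M.Group] {X : Set B}
    (hX : Irr M X) (g α : AG M) (hfin : (orb α (MulAut.conj g • AX M X)).Finite) :
    (orb α (MulAut.conj g • AX M X)).ncard ∣ orderOf (piG M α) := by
  classical
  have := Fintype.ofFinite B
  set P := MulAut.conj g • AX M X with hP
  rw [orb_eq] at hfin ⊢
  have := hfin.fintype
  have hcard : (MulAction.orbit (Subgroup.zpowers (MulAut.conj α)) P).ncard
      = Function.minimalPeriod (MulAut.conj α • ·) P := by
    rw [MulAction.minimalPeriod_eq_card, ← Nat.card_coe_set_eq, Nat.card_eq_fintype_card]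
  rw [hcard]
  have hpos : 0 < Function.minimalPeriod (MulAut.conj α • ·) P := by
    have := hfin.to_subtype
    exact Nat.pos_of_ne_zero (MulAction.minimalPeriod_pos (MulAut.conj α) P).out
  set p := Function.minimalPeriod (MulAut.conj α • ·) P with hp
  have h1 : MulAut.conj (α ^ p) • P = P := by
    rw [map_pow]
    exact MulAction.pow_smul_eq_iff_minimalPeriod_dvd.2 (dvd_refl p)
  obtain ⟨Y, rfl⟩ : ∃ Y : Finset B, (Y : Set B) = X := ⟨X.toFinset, by simp⟩
  have h2 := (conj_pow_smul_iff α g p (AX M (Y : Set B))).1 h1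
  set n := orderOf (piG M α) with hn
  have h3 : piG M ((g⁻¹ * α * g) ^ n) = 1 := by
    have h4 : (g⁻¹ * α * g) ^ n = g⁻¹ * α ^ n * g := by
      have := conj_pow (i := n) (a := g⁻¹) (b := α)
      rwa [inv_inv] at this
    rw [h4, map_mul, map_mul, map_pow, hn, pow_orderOf_eq_one, mul_one, ← map_mul, inv_mul_cancel,
      map_one]
  have h5 := pow_normalises hX hpos h2 h3
  have h6 := (conj_pow_smul_iff α g n (AX M (Y : Set B))).2 h5
  rw [map_pow] at h6
  exact MulAction.pow_smul_eq_iff_minimalPeriod_dvd.1 h6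

theorem orb_le_card {B : Type} [Finite B] (M : CoxeterMatrix B) [Finite M.Group] {X : Set B}
    (hX : Irr M X) (g α : AG M) (hfin : (orb α (MulAut.conj g • AX M X)).Finite) :
    (orb α (MulAut.conj g • AX M X)).ncard ≤ Nat.card M.Group :=
  Nat.le_of_dvd Nat.card_pos ((orb_dvd M hX g α hfin).trans (orderOf_dvd_natCard _))

/-! ### Uniformity for bounded labels -/

lemma finite_labels (n L : ℕ) : {M : CoxeterMatrix (Fin n) | ∀ s t, M s t ≤ L}.Finite := by
  let f : CoxeterMatrix (Fin n) → (Fin n → Fin n → ℕ) := fun M s t => M s t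
  have hf : Function.Injective f := by
    intro M M' h
    cases M; cases M'
    congr
  have hfin : (Set.pi Set.univ (fun _ : Fin n => Set.pi Set.univ
      (fun _ : Fin n => Set.Iic L))).Finite :=
    Set.Finite.pi' (fun _ => Set.Finite.pi' (fun _ => Set.finite_Iic L)) |>.subset (by
      intro x hx i j
      exact hx i (Set.mem_univ i) j (Set.mem_univ j))
  apply Set.Finite.of_finite_image _ hf.injOn
  apply hfin.subset
  rintro x ⟨M, hM, rfl⟩
  intro i _ j _
  exact hM i j

theorem uniform_labels (n L : ℕ) : ∃ N : ℕ, ∀ M : CoxeterMatrix (Fin n), Finite M.Group →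
    (∀ s t, M s t ≤ L) → ∀ (α : AG M) (P : Subgroup (AG M)), IsVertex M P → (orb α P).Finite →
      (orb α P).ncard ≤ N := by
  obtain ⟨N, hN⟩ := ((finite_labels n L).image (fun M => Nat.card M.Group)).bddAbove
  refine ⟨N, fun M hM hL α P hP hfin => ?_⟩
  obtain ⟨X, g, -, hX, rfl⟩ := hP
  exact (orb_le_card M hX g α hfin).trans (hN ⟨M, hL, rfl⟩)

/-! ### Irreducible groups of rank at least three have small labels -/

section labels
variable {B : Type} [Fintype B] [DecidableEq B] (M : CoxeterMatrix B)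

lemma gB_add_left (x y z : B → ℝ) : gB M (x + y) z = gB M x z + gB M y z := by
  simp only [gB, Pi.add_apply, add_mul, Finset.sum_add_distrib]

lemma gB_smul_left (k : ℝ) (x z : B → ℝ) : gB M (k • x) z = k * gB M x z := by
  simp only [gB, Pi.smul_apply, smul_eq_mul, Finset.mul_sum, mul_assoc]

lemma gB_single_left (s : B) (z : B → ℝ) : gB M (Pi.single s 1) z = gp M s z := by
  rw [gB, Finset.sum_eq_single s]
  · simp
  · intro t _ ht; simp [ht]
  · simp

lemma cc_ge_of_le {s t : B} {m : ℕ} (hm : 2 ≤ m) (h : m ≤ M s t) : 2 * cos (π / m) ≤ cc M s t := by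
  have h0 : M s t ≠ 0 := by omega
  rw [cc, if_neg h0]
  have hmR : (2 : ℝ) ≤ m := by exact_mod_cast hm
  have hMR : (m : ℝ) ≤ M s t := by exact_mod_cast h
  have h1 : π / M s t ≤ π / m := div_le_div_of_nonneg_left pi_pos.le (by linarith) hMR
  have h2 : 0 ≤ π / M s t := by positivity
  have h3 : π / m ≤ π := by
    rw [div_le_iff₀ (by linarith)]
    nlinarith [pi_pos]
  have := cos_le_cos_of_nonneg_of_le_pi h2 h3 h1
  linarith

lemma no_big_label [Finite M.Group] {s t r : B} (hst : s ≠ t) (hsr : s ≠ r) (htr : t ≠ r)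
    (h6 : 6 ≤ M s t) (h3 : 3 ≤ M s r) : False := by
  set c := cc M s t with hc
  set d := cc M s r with hd
  set f := cc M t r with hf
  have hc6 : √3 ≤ c := by
    have := cc_ge_of_le M (m := 6) (by norm_num) h6
    have h := cos_pi_div_six
    push_cast at this
    rw [h] at this
    linarith
  have hd3 : 1 ≤ d := by
    have := cc_ge_of_le M (m := 3) (by norm_num) h3
    have h := cos_pi_div_three
    push_cast at this
    rw [h] at this
    linarith
  have hf0 : 0 ≤ f := cc_nonneg M htr
  set x : B → ℝ := (2 : ℝ) • (Pi.single s 1 : B → ℝ) + (√3) • (Pi.single t 1 : B → ℝ)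
    + (Pi.single r 1 : B → ℝ) with hx
  have hx0 : x ≠ 0 := by
    intro e
    have := congrFun e s
    simp [hx, hst, hsr] at this
  have h1 := gB_pos M hx0
  have e1 : gp M s x = 4 - √3 * c - d := by
    rw [hx, gp_add, gp_add, gp_smul, gp_smul, gp_single_self, gp_single_ne M hst,
      gp_single_ne M hsr]; ring
  have e2 : gp M t x = 2 * √3 - 2 * c - f := by
    rw [hx, gp_add, gp_add, gp_smul, gp_smul, gp_single_self, gp_single_ne M hst.symm,
      gp_single_ne M htr, cc_symm M t s]; ring
  have e3 : gp M r x = 2 - 2 * d - √3 * f := by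
    rw [hx, gp_add, gp_add, gp_smul, gp_smul, gp_single_self, gp_single_ne M hsr.symm,
      gp_single_ne M htr.symm, cc_symm M r s, cc_symm M r t]; ring
  have e4 : gB M x x = 2 * gp M s x + √3 * gp M t x + gp M r x := by
    conv_lhs => rw [hx, gB_add_left, gB_add_left, gB_smul_left, gB_smul_left, gB_single_left,
      gB_single_left, gB_single_left]
  have h33 : √3 * √3 = 3 := mul_self_sqrt (by norm_num)
  have hs0 : 0 ≤ √3 := sqrt_nonneg 3
  rw [e4, e1, e2, e3] at h1
  nlinarith [mul_le_mul_of_nonneg_left hc6 hs0, mul_nonneg hs0 hf0]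

theorem small_labels [Finite M.Group] (hirr : Irr M Set.univ) (hcard : 3 ≤ Fintype.card B)
    (s t : B) : M s t ≤ 5 := by
  by_contra hcon
  push Not at hcon
  have h6 : 6 ≤ M s t := hcon
  have hst : s ≠ t := by
    rintro rfl
    rw [M.diagonal] at h6
    omega
  -- a letter adjacent to s or t outside
  have hex : ∃ r, r ≠ s ∧ r ≠ t ∧ (M s r ≠ 2 ∨ M t r ≠ 2) := by
    by_contra hno
    push Not at hno
    obtain ⟨r0, hr0⟩ : ∃ r0, r0 ∉ ({s, t} : Finset B) := by
      by_contra hall
      push Not at hall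
      have : Fintype.card B ≤ ({s, t} : Finset B).card := by
        rw [← Finset.card_univ]
        exact Finset.card_le_card (fun x _ => hall x)
      rw [Finset.card_pair hst] at this
      omega
    have key : ∀ a b : (Set.univ : Set B), ((coxGraph M).induce Set.univ).Reachable a b →
        (a.1 = s ∨ a.1 = t) → (b.1 = s ∨ b.1 = t) := by
      intro a b hab
      obtain ⟨p⟩ := hab
      induction p with
      | nil => exact id
      | @cons x y z hxy p ih =>
        intro hx
        apply ih
        have hadj : (coxGraph M).Adj x.1 y.1 := hxy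
        by_contra hy
        push Not at hy
        obtain ⟨h1, h2⟩ := hno y.1 hy.1 hy.2
        rcases hx with hx | hx
        · rw [hx] at hadj; exact hadj.2 h1
        · rw [hx] at hadj; exact hadj.2 h2
    have := key ⟨s, trivial⟩ ⟨r0, trivial⟩ (hirr.preconnected _ _) (Or.inl rfl)
    apply hr0
    rcases this with h | h
    · simp at h; simp [h]
    · simp at h; simp [h]
  obtain ⟨r, hrs, hrt, h | h⟩ := hex
  · have h3 : 3 ≤ M s r := by
      have := two_le_label (M := M) (Ne.symm hrs)
      omega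
    exact no_big_label M hst (Ne.symm hrs) (Ne.symm hrt) h6 h3
  · have h3 : 3 ≤ M t r := by
      have := two_le_label (M := M) (Ne.symm hrt)
      omega
    exact no_big_label M (Ne.symm hst) (Ne.symm hrt) (Ne.symm hrs)
      (by rw [M.symmetric t s]; exact h6) h3

end labels

theorem uniform_irr (n : ℕ) (hn : 3 ≤ n) : ∃ N : ℕ, ∀ M : CoxeterMatrix (Fin n),
    Finite M.Group → Irr M Set.univ → ∀ (α : AG M) (P : Subgroup (AG M)), IsVertex M P →
      (orb α P).Finite → (orb α P).ncard ≤ N := by
  obtain ⟨N, hN⟩ := uniform_labels n 5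
  refine ⟨N, fun M hM hirr => hN M hM (fun s t => ?_)⟩
  exact small_labels M hirr (by rw [Fintype.card_fin]; exact hn) s t

end Pool.Agent.MP685115
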