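import Mathlib

/-! Positive definiteness of the canonical form of a finite Coxeter group. -/

set_option linter.unusedSectionVars false
set_option linter.unusedVariables false

namespace Pool.Agent.MP685115

open Real

/-- The sequence `sin (k θ) / sin θ` for `c = 2 cos θ`. -/
noncomputable def U (c : ℝ) : ℕ → ℝ
  | 0 => 0
  | 1 => 1
  | n + 2 => c * U c (n + 1) - U c n

lemma U_succ_succ (c : ℝ) (n : ℕ) : U c (n + 2) = c * U c (n + 1) - U c n := rfl

lemma U_mul_sin (θ : ℝ) : ∀ n : ℕ, U (2 * cos θ) n * sin θ = sin (n * θ) := by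
  have key : ∀ n : ℕ, U (2 * cos θ) n * sin θ = sin (n * θ) ∧
      U (2 * cos θ) (n + 1) * sin θ = sin ((n + 1 : ℕ) * θ) := by
    intro n
    induction n with
    | zero => simp [U]
    | succ n ih =>
      refine ⟨ih.2, ?_⟩
      rw [U_succ_succ, sub_mul, mul_assoc, ih.1, ih.2]
      push_cast
      have e1 : ((n : ℝ) + 1 + 1) * θ = ((n : ℝ) + 1) * θ + θ := by ring
      have e2 : (n : ℝ) * θ = ((n : ℝ) + 1) * θ - θ := by ring
      rw [e1, e2, sin_add, sin_sub]; ring
  exact fun n => (key n).1

variable {B : Type} [Fintype B] [DecidableEq B] (M : CoxeterMatrix B)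

/-- The coefficient `2 cos (π / m)`, and `2` for infinite labels. -/
noncomputable def cc (s t : B) : ℝ := if M s t = 0 then 2 else 2 * cos (π / M s t)

lemma cc_symm (s t : B) : cc M s t = cc M t s := by
  simp only [cc, M.symmetric s t]

lemma cc_nonneg {s t : B} (h : s ≠ t) : 0 ≤ cc M s t := by
  rw [cc]
  split_ifs with h0
  · norm_num
  · have h1 := M.off_diagonal s t h
    have h2 : (2 : ℝ) ≤ M s t := by exact_mod_cast (by omega : 2 ≤ M s t)
    apply mul_nonneg (by norm_num)
    apply cos_nonneg_of_neg_pi_div_two_le_of_le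
    · have : 0 ≤ π / M s t := by positivity
      linarith [pi_pos]
    · exact div_le_div_of_nonneg_left pi_pos.le (by norm_num) h2

/-- Pairing with a basis vector. -/
noncomputable def gp (s : B) (x : B → ℝ) : ℝ := 2 * x s - ∑ t, if t = s then 0 else cc M s t * x t

/-- The canonical bilinear form (twice the usual one). -/
noncomputable def gB (x y : B → ℝ) : ℝ := ∑ s, x s * gp M s y

lemma gp_add (s : B) (x y : B → ℝ) : gp M s (x + y) = gp M s x + gp M s y := by
  simp only [gp, Pi.add_apply]
  have : (∑ t, if t = s then 0 else cc M s t * (x t + y t))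
      = (∑ t, if t = s then 0 else cc M s t * x t) + ∑ t, if t = s then 0 else cc M s t * y t := by
    rw [← Finset.sum_add_distrib]
    apply Finset.sum_congr rfl
    intro t _
    split_ifs <;> ring
  rw [this]; ring

lemma gp_smul (s : B) (k : ℝ) (x : B → ℝ) : gp M s (k • x) = k * gp M s x := by
  simp only [gp, Pi.smul_apply, smul_eq_mul, mul_sub, Finset.mul_sum]
  congr 1
  · ring
  · apply Finset.sum_congr rfl
    intro t _
    split_ifs <;> ring

lemma gp_single_self (s : B) : gp M s (Pi.single s 1) = 2 := by
  simp only [gp, Pi.single_eq_same]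
  have : (∑ t, if t = s then 0 else cc M s t * (Pi.single s (1:ℝ) : B → ℝ) t) = 0 := by
    apply Finset.sum_eq_zero
    intro t _
    split_ifs with h
    · rfl
    · simp [h]
  rw [this]; ring

lemma gp_single_ne {s t : B} (h : s ≠ t) : gp M s (Pi.single t 1) = - cc M s t := by
  simp only [gp]
  have : (∑ u, if u = s then 0 else cc M s u * (Pi.single t (1:ℝ) : B → ℝ) u) = cc M s t := by
    rw [Finset.sum_eq_single t]
    · simp [h.symm]
    · intro u _ hu
      split_ifs
      · rfl
      · simp [hu]
    · simp
  rw [this]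
  simp [h]

/-- The reflection. -/
noncomputable def gs (s : B) : Module.End ℝ (B → ℝ) where
  toFun x := x - gp M s x • Pi.single s 1
  map_add' x y := by rw [gp_add]; module
  map_smul' k x := by
    rw [gp_smul]
    simp only [RingHom.id_apply]
    module

lemma gs_apply (s : B) (x : B → ℝ) : gs M s x = x - gp M s x • Pi.single s 1 := rfl

lemma gs_gs (s : B) : gs M s * gs M s = 1 := by
  apply LinearMap.ext
  intro x
  rw [Module.End.mul_apply, gs_apply M s x, map_sub, map_smul, gs_apply, gs_apply, gp_single_self,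
    Module.End.one_apply]
  module

lemma gs_prod_pow_single {s t : B} (h : s ≠ t) (k : ℕ) :
    ((gs M s * gs M t) ^ k) (Pi.single s 1) =
      U (cc M s t) (2 * k + 1) • Pi.single s 1 + U (cc M s t) (2 * k) • Pi.single t 1 := by
  induction k with
  | zero => simp [U]
  | succ k ih =>
    have e1 : gs M t (Pi.single s 1) = Pi.single s 1 + cc M s t • Pi.single t 1 := by
      rw [gs_apply, gp_single_ne M h.symm, cc_symm M t s]; module
    have e2 : gs M t (Pi.single t 1) = - Pi.single t 1 := by
      rw [gs_apply, gp_single_self]; module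
    have e3 : gs M s (Pi.single t 1) = Pi.single t 1 + cc M s t • Pi.single s 1 := by
      rw [gs_apply, gp_single_ne M h]; module
    have e4 : gs M s (Pi.single s 1) = - Pi.single s 1 := by
      rw [gs_apply, gp_single_self]; module
    rw [pow_succ', Module.End.mul_apply, ih, map_add, map_smul, map_smul, Module.End.mul_apply,
      Module.End.mul_apply, e1, e2, map_add, map_smul, map_neg, e3, e4]
    have u1 : U (cc M s t) (2 * (k + 1)) = cc M s t * U (cc M s t) (2 * k + 1)
        - U (cc M s t) (2 * k) := U_succ_succ _ _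
    have u2 : U (cc M s t) (2 * (k + 1) + 1) = cc M s t * U (cc M s t) (2 * (k + 1))
        - U (cc M s t) (2 * k + 1) := U_succ_succ _ _
    rw [u2, u1]
    module

lemma gs_prod_pow_single' {s t : B} (h : s ≠ t) (k : ℕ) :
    ((gs M s * gs M t) ^ (k + 1)) (Pi.single t 1) =
      -(U (cc M s t) (2 * k + 2) • Pi.single s 1 + U (cc M s t) (2 * k + 1) • Pi.single t 1) := by
  have e1 : gs M t (Pi.single s 1) = Pi.single s 1 + cc M s t • Pi.single t 1 := by
    rw [gs_apply, gp_single_ne M h.symm, cc_symm M t s]; module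
  have e2 : gs M t (Pi.single t 1) = - Pi.single t 1 := by
    rw [gs_apply, gp_single_self]; module
  have e3 : gs M s (Pi.single t 1) = Pi.single t 1 + cc M s t • Pi.single s 1 := by
    rw [gs_apply, gp_single_ne M h]; module
  have e4 : gs M s (Pi.single s 1) = - Pi.single s 1 := by
    rw [gs_apply, gp_single_self]; module
  induction k with
  | zero =>
    rw [pow_one, Module.End.mul_apply, e2, map_neg, e3]
    have u1 : U (cc M s t) (2 * 0 + 2) = cc M s t * U (cc M s t) (2 * 0 + 1)
        - U (cc M s t) (2 * 0) := U_succ_succ _ _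
    rw [u1]
    simp only [U]
    module
  | succ k ih =>
    rw [pow_succ', Module.End.mul_apply, ih, map_neg, map_add, map_smul, map_smul,
      Module.End.mul_apply, Module.End.mul_apply, e1, e2, map_add, map_smul, map_neg, e3, e4]
    have u1 : U (cc M s t) (2 * (k + 1) + 1) = cc M s t * U (cc M s t) (2 * k + 2)
        - U (cc M s t) (2 * k + 1) := U_succ_succ _ _
    have u2 : U (cc M s t) (2 * (k + 1) + 2) = cc M s t * U (cc M s t) (2 * (k + 1) + 1)
        - U (cc M s t) (2 * k + 2) := U_succ_succ _ _
    rw [u2, u1]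
    module

/-- The relations of the Coxeter group hold. -/
lemma gs_liftable : M.IsLiftable (gs M) := by
  intro s t
  by_cases hst : s = t
  · subst hst
    rw [M.diagonal, pow_one, gs_gs]
  by_cases h0 : M s t = 0
  · rw [h0, pow_zero]
  have h1 := M.off_diagonal s t hst
  set m := M s t with hm
  have hm2 : 2 ≤ m := by omega
  have hmR : (2 : ℝ) ≤ m := by exact_mod_cast hm2
  set θ := π / m with hθ
  have hc : cc M s t = 2 * cos θ := by rw [cc, if_neg (by rw [← hm]; exact h0)]
  have hθ0 : 0 < θ := by positivity
  have hθ1 : θ ≤ π / 2 := div_le_div_of_nonneg_left pi_pos.le (by norm_num) hmR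
  have hsin : 0 < sin θ := sin_pos_of_pos_of_lt_pi hθ0 (by linarith [pi_pos])
  have hmθ : (m : ℝ) * θ = π := by rw [hθ]; field_simp
  have U0 : U (cc M s t) (2 * m) = 0 := by
    have := U_mul_sin θ (2 * m)
    rw [← hc] at this
    push_cast at this
    rw [mul_assoc, hmθ, sin_two_pi] at this
    exact (mul_eq_zero.1 this).resolve_right hsin.ne'
  have U1 : U (cc M s t) (2 * m + 1) = 1 := by
    have := U_mul_sin θ (2 * m + 1)
    rw [← hc] at this
    push_cast at this
    have e : (2 * (m : ℝ) + 1) * θ = θ + 2 * π := by rw [← hmθ]; ring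
    rw [e, sin_add_two_pi] at this
    have h2 : (U (cc M s t) (2 * m + 1) - 1) * sin θ = 0 := by linarith
    have := (mul_eq_zero.1 h2).resolve_right hsin.ne'
    linarith
  have U2 : U (cc M s t) (2 * m - 1) = -1 := by
    obtain ⟨k, hk⟩ : ∃ k, 2 * m = k + 1 := ⟨2 * m - 1, by omega⟩
    have e1 : 2 * m - 1 = k := by omega
    have := U_succ_succ (cc M s t) k
    rw [e1]
    have e2 : k + 2 = 2 * m + 1 := by omega
    rw [e2, ← hk, U1, U0] at this
    linarith
  have p1 : ((gs M s * gs M t) ^ m) (Pi.single s 1) = Pi.single s 1 := by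
    rw [gs_prod_pow_single M hst, U0, U1]; module
  have p2 : ((gs M s * gs M t) ^ m) (Pi.single t 1) = Pi.single t 1 := by
    obtain ⟨k, hk⟩ : ∃ k, m = k + 1 := ⟨m - 1, by omega⟩
    have e1 : 2 * k + 2 = 2 * m := by omega
    have e2 : 2 * k + 1 = 2 * m - 1 := by omega
    rw [hk, gs_prod_pow_single' M hst, e1, e2, U0, U2]; module
  have p3 : ∀ x : B → ℝ, gp M s x = 0 → gp M t x = 0 → ∀ n : ℕ,
      ((gs M s * gs M t) ^ n) x = x := by
    intro x hs ht n
    have e : (gs M s * gs M t) x = x := by
      rw [Module.End.mul_apply, gs_apply M t, ht, zero_smul, sub_zero, gs_apply M s, hs, zero_smul,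
        sub_zero]
    induction n with
    | zero => simp
    | succ n ih => rw [pow_succ', Module.End.mul_apply, ih, e]
  apply LinearMap.ext
  intro x
  set c := cc M s t with hcdef
  have hdet : 4 - c ^ 2 ≠ 0 := by
    have : 4 - c ^ 2 = 4 * sin θ ^ 2 := by rw [hc, sin_sq]; ring
    rw [this]; positivity
  set a := gp M s x with ha
  set b := gp M t x with hb
  set α := (2 * a + c * b) / (4 - c ^ 2) with hα
  set β := (c * a + 2 * b) / (4 - c ^ 2) with hβ
  set x' := x - α • (Pi.single s 1 : B → ℝ) - β • (Pi.single t 1 : B → ℝ) with hx'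
  have hxe : x = x' + α • (Pi.single s 1 : B → ℝ) + β • (Pi.single t 1 : B → ℝ) := by
    rw [hx']; module
  have e1 : gp M s x' = 0 := by
    have : x' = x + (-α) • (Pi.single s 1 : B → ℝ) + (-β) • (Pi.single t 1 : B → ℝ) := by
      rw [hx']; module
    rw [this, gp_add, gp_add, gp_smul, gp_smul, gp_single_self, gp_single_ne M hst, ← ha, ← hcdef,
      hα, hβ]
    field_simp
    ring
  have e2 : gp M t x' = 0 := by
    have : x' = x + (-α) • (Pi.single s 1 : B → ℝ) + (-β) • (Pi.single t 1 : B → ℝ) := by
      rw [hx']; module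
    rw [this, gp_add, gp_add, gp_smul, gp_smul, gp_single_self, gp_single_ne M (Ne.symm hst),
      cc_symm M t s, ← hb, ← hcdef, hα, hβ]
    field_simp
    ring
  rw [hxe, map_add, map_add, map_smul, map_smul, p1, p2, p3 x' e1 e2, Module.End.one_apply]

/-- The geometric representation. -/
noncomputable def geo : M.Group →* Module.End ℝ (B → ℝ) :=
  M.toCoxeterSystem.lift ⟨gs M, gs_liftable M⟩

lemma geo_simple (s : B) : geo M (M.simple s) = gs M s := by
  have := M.toCoxeterSystem.lift_apply_simple (gs_liftable M) s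
  rwa [CoxeterMatrix.toCoxeterSystem_simple] at this

section pd
variable [Finite M.Group]

/-- The averaged inner product. -/
noncomputable def Q (x y : B → ℝ) : ℝ := ∑ᶠ w : M.Group, ∑ b, (geo M w x) b * (geo M w y) b

lemma Q_eq [Fintype M.Group] (x y : B → ℝ) :
    Q M x y = ∑ w : M.Group, ∑ b, (geo M w x) b * (geo M w y) b := by
  rw [Q, finsum_eq_sum_of_fintype]

lemma Q_comm (x y : B → ℝ) : Q M x y = Q M y x := by
  simp only [Q, mul_comm]

lemma Q_add (x x' y : B → ℝ) : Q M (x + x') y = Q M x y + Q M x' y := by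
  classical
  have := Fintype.ofFinite M.Group
  simp only [Q_eq, map_add, Pi.add_apply, add_mul, Finset.sum_add_distrib]

lemma Q_smul (k : ℝ) (x y : B → ℝ) : Q M (k • x) y = k * Q M x y := by
  classical
  have := Fintype.ofFinite M.Group
  simp only [Q_eq, map_smul, Pi.smul_apply, smul_eq_mul, Finset.mul_sum]
  apply Finset.sum_congr rfl
  intro w _
  apply Finset.sum_congr rfl
  intro b _; ring

lemma Q_pos {x : B → ℝ} (hx : x ≠ 0) : 0 < Q M x x := by
  classical
  have := Fintype.ofFinite M.Group
  rw [Q_eq]
  apply Finset.sum_pos' (fun w _ => Finset.sum_nonneg (fun b _ => mul_self_nonneg _))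
  refine ⟨1, Finset.mem_univ _, ?_⟩
  rw [map_one]
  simp only [Module.End.one_apply]
  obtain ⟨b, hb⟩ : ∃ b, x b ≠ 0 := by
    by_contra hc
    push Not at hc
    exact hx (funext hc)
  exact Finset.sum_pos' (fun b _ => mul_self_nonneg _)
    ⟨b, Finset.mem_univ _, mul_self_pos.2 hb⟩

lemma Q_inv (s : B) (x y : B → ℝ) : Q M (gs M s x) (gs M s y) = Q M x y := by
  classical
  have := Fintype.ofFinite M.Group
  rw [Q_eq, Q_eq]
  have := Equiv.sum_comp (Equiv.mulRight (M.simple s))
    (fun w => ∑ b, (geo M w x) b * (geo M w y) b)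
  rw [← this]
  apply Finset.sum_congr rfl
  intro w _
  simp only [Equiv.coe_mulRight, map_mul, geo_simple, Module.End.mul_apply]

lemma Q_sub (x x' y : B → ℝ) : Q M (x - x') y = Q M x y - Q M x' y := by
  have : x - x' = x + (-1 : ℝ) • x' := by module
  rw [this, Q_add, Q_smul]; ring

lemma two_Q (s : B) (y : B → ℝ) :
    2 * Q M (Pi.single s 1) y = gp M s y * Q M (Pi.single s 1) (Pi.single s 1) := by
  have h1 := Q_inv M s (Pi.single s 1) y
  have h2 : gs M s (Pi.single s 1) = (-1 : ℝ) • Pi.single s 1 := by
    rw [gs_apply, gp_single_self]; module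
  rw [h2, Q_smul, Q_comm, gs_apply, Q_sub, Q_smul, Q_comm M y] at h1
  linarith

lemma single_ne_zero' (s : B) : (Pi.single s 1 : B → ℝ) ≠ 0 := by
  intro e
  have := congrFun e s
  simp at this

/-- The canonical form of a finite Coxeter group is positive definite. -/
theorem gB_pos {x : B → ℝ} (hx : x ≠ 0) : 0 < gB M x x := by
  set q : B → ℝ := fun s => Q M (Pi.single s 1) (Pi.single s 1) with hq
  have hqpos : ∀ s, 0 < q s := fun s => Q_pos M (single_ne_zero' s)
  have hgp : ∀ s (y : B → ℝ), gp M s y = 2 * Q M (Pi.single s 1) y / q s := by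
    intro s y
    rw [two_Q M s y]
    exact (mul_div_cancel_right₀ _ (hqpos s).ne').symm
  have hsym : ∀ s t, Q M (Pi.single s 1) (Pi.single t 1) ≠ 0 → q s = q t := by
    intro s t h
    by_cases hst : s = t
    · rw [hst]
    · have e1 := hgp s (Pi.single t 1)
      have e2 := hgp t (Pi.single s 1)
      rw [gp_single_ne M hst] at e1
      rw [gp_single_ne M (Ne.symm hst), cc_symm M t s, Q_comm] at e2
      rw [e1] at e2
      have h3 := (hqpos s).ne'
      have h4 := (hqpos t).ne'
      rw [div_eq_div_iff h3 h4] at e2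
      have h5 : Q M (Pi.single s 1) (Pi.single t 1) * (q t - q s) = 0 := by linarith
      have := (mul_eq_zero.1 h5).resolve_left h
      linarith
  set x' : B → ℝ := fun s => x s / √(q s) with hx'
  have hx'0 : x' ≠ 0 := by
    intro e
    apply hx
    funext s
    have := congrFun e s
    simp only [hx', Pi.zero_apply, div_eq_zero_iff] at this
    rcases this with h | h
    · exact h
    · exact absurd h (sqrt_pos.2 (hqpos s)).ne'
  have hexp : ∀ z : B → ℝ, z = ∑ s, z s • (Pi.single s 1 : B → ℝ) := by
    intro z
    ext t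
    simp only [Finset.sum_apply, Pi.smul_apply, smul_eq_mul]
    rw [Finset.sum_eq_single t]
    · simp
    · intro u _ hu; simp [Ne.symm hu]
    · simp
  have hQsum : ∀ (z y : B → ℝ), Q M z y = ∑ s, z s * Q M (Pi.single s 1) y := by
    intro z y
    have key : ∀ F : Finset B, Q M (∑ s ∈ F, z s • (Pi.single s 1 : B → ℝ)) y
        = ∑ s ∈ F, z s * Q M (Pi.single s 1) y := by
      intro F
      induction F using Finset.induction_on with
      | empty =>
        simp only [Finset.sum_empty]
        have := Q_smul M 0 (0 : B → ℝ) y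
        simpa using this
      | insert s F hs ih => rw [Finset.sum_insert hs, Finset.sum_insert hs, Q_add, Q_smul, ih]
    conv_lhs => rw [hexp z]
    exact key _
  have h1 : gB M x x = 2 * Q M x' x' := by
    rw [gB, hQsum x' x', Finset.mul_sum]
    apply Finset.sum_congr rfl
    intro s _
    rw [hgp s x, Q_comm M _ x, Q_comm M _ x', hQsum x, hQsum x']
    have h5 : ∀ t, x t * Q M (Pi.single t 1) (Pi.single s 1) / q s * x s
        = x' t * Q M (Pi.single t 1) (Pi.single s 1) * x' s := by
      intro t
      by_cases h : Q M (Pi.single t 1) (Pi.single s 1) = 0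
      · rw [h]; ring
      · have e := hsym t s h
        simp only [hx']
        rw [e]
        have h6 : √(q s) * √(q s) = q s := mul_self_sqrt (hqpos s).le
        have h7 := (sqrt_pos.2 (hqpos s)).ne'
        have h8 := (hqpos s).ne'
        rw [div_mul_eq_mul_div, div_mul_eq_mul_div, div_mul_div_comm, h6]
    have : x s * (2 * (∑ t, x t * Q M (Pi.single t 1) (Pi.single s 1)) / q s)
        = 2 * ∑ t, (x t * Q M (Pi.single t 1) (Pi.single s 1) / q s * x s) := by
      rw [Finset.mul_sum, Finset.mul_sum, Finset.sum_div, Finset.mul_sum]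
      apply Finset.sum_congr rfl
      intro t _; ring
    rw [this]
    simp only [h5]
    rw [Finset.mul_sum, Finset.mul_sum, Finset.mul_sum]
    apply Finset.sum_congr rfl
    intro t _; ring
  rw [h1]
  have := Q_pos M hx'0
  linarith

/-- All labels of a finite Coxeter group are finite. -/
theorem label_ne_zero (s t : B) : M s t ≠ 0 := by
  intro h
  have hst : s ≠ t := by
    rintro rfl
    rw [M.diagonal] at h
    exact one_ne_zero h
  have h0 : (Pi.single s 1 + Pi.single t 1 : B → ℝ) ≠ 0 := by
    intro e
    have := congrFun e s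
    simp [hst] at this
  have h1 := gB_pos M h0
  have h2 : gB M (Pi.single s 1 + Pi.single t 1) (Pi.single s 1 + Pi.single t 1) = 0 := by
    have hc : cc M s t = 2 := by rw [cc, if_pos h]
    have e1 : gp M s (Pi.single s 1 + Pi.single t 1) = 0 := by
      rw [gp_add, gp_single_self, gp_single_ne M hst, hc]; ring
    have e2 : gp M t (Pi.single s 1 + Pi.single t 1) = 0 := by
      rw [gp_add, gp_single_self, gp_single_ne M (Ne.symm hst), cc_symm, hc]; ring
    rw [gB]
    apply Finset.sum_eq_zero
    intro u _
    by_cases h3 : u = s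
    · rw [h3, e1, mul_zero]
    · by_cases h4 : u = t
      · rw [h4, e2, mul_zero]
      · have : (Pi.single s 1 + Pi.single t 1 : B → ℝ) u = 0 := by simp [h3, h4]
        rw [this, zero_mul]
  linarith

lemma gp_zero' (s : B) : gp M s 0 = 0 := by simp [gp]

/-- A positive vector with positive image. -/
theorem exists_pos_vec : ∃ c : B → ℝ, (∀ s, 0 < c s) ∧ ∀ s, 0 < gp M s c := by
  let L : (B → ℝ) →ₗ[ℝ] (B → ℝ) :=
    { toFun := fun x s => gp M s x
      map_add' := fun x y => by ext s; simp [gp_add]
      map_smul' := fun k x => by ext s; simp [gp_smul] }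
  have hinj : Function.Injective L := by
    rw [injective_iff_map_eq_zero]
    intro x hx
    by_contra h0
    have h1 := gB_pos M h0
    have h2 : gB M x x = 0 := by
      rw [gB]
      apply Finset.sum_eq_zero
      intro s _
      have := congrFun hx s
      simp only [L, LinearMap.coe_mk, AddHom.coe_mk, Pi.zero_apply] at this
      rw [this, mul_zero]
    linarith
  have hsurj := LinearMap.injective_iff_surjective.1 hinj
  obtain ⟨c, hc⟩ := hsurj (fun _ => 1)
  have hc' : ∀ s, gp M s c = 1 := fun s => congrFun hc s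
  set cm : B → ℝ := fun s => max (-c s) 0 with hcm
  set cp : B → ℝ := fun s => max (c s) 0 with hcp
  have hdec : c = cp + (-1 : ℝ) • cm := by
    ext u
    simp only [hcp, hcm, Pi.add_apply, Pi.smul_apply, smul_eq_mul]
    rcases le_total 0 (c u) with h | h
    · rw [max_eq_left h, max_eq_right (by linarith)]; ring
    · rw [max_eq_right h, max_eq_left (by linarith)]; ring
  have hcm0 : cm = 0 := by
    by_contra h0
    have h1 := gB_pos M h0
    have h2 : 0 ≤ ∑ s, cm s * gp M s c :=
      Finset.sum_nonneg (fun s _ => by rw [hc' s, mul_one]; exact le_max_right _ _)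
    have h3 : ∑ s, cm s * gp M s c = (∑ s, cm s * gp M s cp) - gB M cm cm := by
      rw [gB, ← Finset.sum_sub_distrib]
      apply Finset.sum_congr rfl
      intro s _
      rw [hdec, gp_add, gp_smul]; ring
    have h4 : ∑ s, cm s * gp M s cp ≤ 0 := by
      apply Finset.sum_nonpos
      intro s _
      have e1 : cm s * cp s = 0 := by
        simp only [hcp, hcm]
        rcases le_total 0 (c s) with h | h
        · rw [max_eq_right (a := -c s) (by linarith)]; ring
        · rw [max_eq_right (a := c s) h]; ring
      have e2 : 0 ≤ ∑ t, if t = s then 0 else cc M s t * cp t := by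
        apply Finset.sum_nonneg
        intro t _
        split_ifs with h
        · exact le_refl _
        · exact mul_nonneg (cc_nonneg M (Ne.symm h)) (le_max_right _ _)
      have e3 : 0 ≤ cm s := le_max_right _ _
      rw [gp, mul_sub]
      have e4 : cm s * (2 * cp s) = 0 := by linarith
      rw [e4]
      have := mul_nonneg e3 e2
      linarith
    linarith
  have hcnn : ∀ s, 0 ≤ c s := by
    intro s
    have := congrFun hcm0 s
    simp only [hcm, Pi.zero_apply] at this
    have h2 := le_max_left (-c s) 0
    linarith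
  refine ⟨c, fun s => ?_, fun s => by rw [hc' s]; norm_num⟩
  have h1 := hc' s
  rw [gp] at h1
  have e2 : 0 ≤ ∑ t, if t = s then 0 else cc M s t * c t := by
    apply Finset.sum_nonneg
    intro t _
    split_ifs with h
    · exact le_refl _
    · exact mul_nonneg (cc_nonneg M (Ne.symm h)) (hcnn t)
  linarith

end pd

end Pool.Agent.MP685115
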