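import Pool.Agent.Lib.MP_685115_al.Lattice
import Pool.Agent.Lib.MP_685115_al.Geom

/-! The unfolded simply laced graph of a finite Coxeter group and its positive definiteness. -/

set_option linter.unusedSectionVars false
set_option linter.unusedVariables false

namespace Pool.Agent.MP685115

open Real

section pd
variable {S : Type} [Fintype S] [DecidableEq S] (G : SimpleGraph S) [DecidableRel G.Adj]

lemma amgm {p q : ℝ} (hp : 0 < p) (hq : 0 < q) (a b : ℝ) :
    2 * (a * b) ≤ q / p * a ^ 2 + p / q * b ^ 2 := by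
  have h : q / p * a ^ 2 + p / q * b ^ 2 - 2 * (a * b) = (q * a - p * b) ^ 2 / (p * q) := by
    field_simp
    ring
  have : 0 ≤ (q * a - p * b) ^ 2 / (p * q) := by positivity
  linarith

/-- A positive subinvariant weight forces positive definiteness. -/
theorem PD_of_weight (w : S → ℝ) (hw : ∀ x, 0 < w x)
    (h : ∀ x, (∑ y, if G.Adj x y then w y else 0) < 2 * w x) : PD G := by
  intro b hb
  have e0 : ((qf G b : ℤ) : ℝ) = ∑ x, (2 * (b x : ℝ) ^ 2
      - ∑ y, if G.Adj x y then (b x : ℝ) * b y else 0) := by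
    rw [qf, bil]
    push_cast
    apply Finset.sum_congr rfl
    intro x _
    rw [pr]
    push_cast
    rw [mul_sub, Finset.mul_sum]
    congr 1
    · ring
    · apply Finset.sum_congr rfl
      intro y _
      split_ifs <;> simp
  have e1 : ∑ x, ∑ y, (if G.Adj x y then (b x : ℝ) * b y else 0)
      ≤ ∑ x, ∑ y, (if G.Adj x y then w y / w x * (b x : ℝ) ^ 2 else 0) := by
    have e2 : ∑ x, ∑ y, (if G.Adj x y then w y / w x * (b x : ℝ) ^ 2 else 0)
        = ∑ x, ∑ y, (if G.Adj x y then w x / w y * (b y : ℝ) ^ 2 else 0) := by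
      rw [Finset.sum_comm]
      apply Finset.sum_congr rfl
      intro x _
      apply Finset.sum_congr rfl
      intro y _
      simp only [G.adj_comm y x]
    have e3 : 2 * ∑ x, ∑ y, (if G.Adj x y then (b x : ℝ) * b y else 0)
        ≤ ∑ x, ∑ y, (if G.Adj x y then w y / w x * (b x : ℝ) ^ 2 else 0)
          + ∑ x, ∑ y, (if G.Adj x y then w x / w y * (b y : ℝ) ^ 2 else 0) := by
      rw [← Finset.sum_add_distrib, Finset.mul_sum]
      apply Finset.sum_le_sum
      intro x _
      rw [← Finset.sum_add_distrib, Finset.mul_sum]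
      apply Finset.sum_le_sum
      intro y _
      split_ifs
      · exact amgm (hw x) (hw y) _ _
      · simp
    rw [← e2] at e3
    linarith
  have e4 : ∑ x, (2 * (b x : ℝ) ^ 2 - ∑ y, if G.Adj x y then w y / w x * (b x : ℝ) ^ 2 else 0)
      = ∑ x, (b x : ℝ) ^ 2 * ((2 * w x - ∑ y, if G.Adj x y then w y else 0) / w x) := by
    apply Finset.sum_congr rfl
    intro x _
    have : (∑ y, if G.Adj x y then w y / w x * (b x : ℝ) ^ 2 else 0)
        = (∑ y, if G.Adj x y then w y else 0) / w x * (b x : ℝ) ^ 2 := by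
      rw [Finset.sum_div, Finset.sum_mul]
      apply Finset.sum_congr rfl
      intro y _
      split_ifs <;> simp
    rw [this]
    have := (hw x).ne'
    field_simp
  have e5 : 0 < ∑ x, (b x : ℝ) ^ 2 * ((2 * w x - ∑ y, if G.Adj x y then w y else 0) / w x) := by
    obtain ⟨x, hx⟩ : ∃ x, b x ≠ 0 := by
      by_contra hc
      push Not at hc
      exact hb (funext hc)
    have hx' : (b x : ℝ) ≠ 0 := by exact_mod_cast hx
    apply Finset.sum_pos'
    · intro y _
      have := h y
      have h2 := hw y
      have h3 : 0 < (2 * w y - ∑ z, if G.Adj y z then w z else 0) := by linarith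
      positivity
    · refine ⟨x, Finset.mem_univ _, ?_⟩
      have := h x
      have h2 := hw x
      have h3 : 0 < (2 * w x - ∑ z, if G.Adj x z then w z else 0) := by linarith
      positivity
  have e6 : (0 : ℝ) < ((qf G b : ℤ) : ℝ) := by
    rw [e0]
    rw [Finset.sum_sub_distrib] at e4 ⊢
    linarith
  exact_mod_cast e6

end pd

lemma sin_sum (n a : ℕ) (ha : a < n) :
    (∑ k : Fin n, if a + 1 = k.val ∨ k.val + 1 = a then
      sin (((k.val : ℝ) + 1) * (π / (n + 1))) else 0)
      = 2 * cos (π / (n + 1)) * sin (((a : ℝ) + 1) * (π / (n + 1))) := by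
  set θ : ℝ := π / (n + 1) with hθ
  have hn : ((n : ℝ) + 1) * θ = π := by rw [hθ]; field_simp
  rw [Fin.sum_univ_eq_sum_range (fun k => if a + 1 = k ∨ k + 1 = a then
    sin (((k : ℝ) + 1) * θ) else 0) n]
  have e1 : ∀ k ∈ Finset.range n, (if a + 1 = k ∨ k + 1 = a then sin (((k : ℝ) + 1) * θ) else 0)
      = (if a + 1 = k then sin (((k : ℝ) + 1) * θ) else 0)
        + (if k + 1 = a then sin (((k : ℝ) + 1) * θ) else 0) := by
    intro k _
    by_cases h1 : a + 1 = k
    · have h2 : ¬ (k + 1 = a) := by omega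
      simp [h1, h2]
    · by_cases h2 : k + 1 = a
      · simp [h1, h2]
      · simp [h1, h2]
  rw [Finset.sum_congr rfl e1, Finset.sum_add_distrib, Finset.sum_ite_eq]
  have e2 : (if a + 1 ∈ Finset.range n then sin ((((a + 1 : ℕ) : ℝ) + 1) * θ) else 0)
      = sin (((a : ℝ) + 1) * θ + θ) := by
    have e3 : (((a + 1 : ℕ) : ℝ) + 1) * θ = ((a : ℝ) + 1) * θ + θ := by push_cast; ring
    split_ifs with h
    · rw [e3]
    · have h4 : a + 1 = n := by
        simp only [Finset.mem_range] at h
        omega
      have : ((a : ℝ) + 1) * θ + θ = π := by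
        rw [← hn, ← h4]; push_cast; ring
      rw [this, sin_pi]
  have e5 : (∑ k ∈ Finset.range n, if k + 1 = a then sin (((k : ℝ) + 1) * θ) else 0)
      = sin (((a : ℝ) + 1) * θ - θ) := by
    rcases Nat.eq_zero_or_pos a with h | h
    · subst h
      simp
    · obtain ⟨b, rfl⟩ : ∃ b, a = b + 1 := ⟨a - 1, by omega⟩
      have e6 : ∀ k ∈ Finset.range n, (if k + 1 = b + 1 then sin (((k : ℝ) + 1) * θ) else 0)
          = if b = k then sin (((k : ℝ) + 1) * θ) else 0 := by
        intro k _
        by_cases h1 : b = k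
        · simp [h1]
        · have : ¬ (k + 1 = b + 1) := by omega
          rw [if_neg this, if_neg h1]
      rw [Finset.sum_congr rfl e6, Finset.sum_ite_eq, if_pos (Finset.mem_range.2 (by omega))]
      congr 1
      push_cast; ring
  rw [e2, e5, sin_add, sin_sub]
  ring

variable {B : Type} [Fintype B] [DecidableEq B] (M : CoxeterMatrix B)

/-- Number of levels over a pair of letters. -/
def mm (e : Sym2 B) : ℕ :=
  Sym2.lift ⟨fun s t => if s = t then 1 else M s t - 1, by
    intro s t
    simp only
    by_cases h : s = t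
    · subst h; rfl
    · rw [if_neg h, if_neg (Ne.symm h), M.symmetric s t]⟩ e

lemma mm_mk {s t : B} (h : s ≠ t) : mm M s(s, t) = M s t - 1 := by
  simp [mm, h]

lemma mm_diag (s : B) : mm M s(s, s) = 1 := by
  simp [mm]

/-- The index set. -/
abbrev Idx : Type := (e : Sym2 B) → Fin (mm M e)

/-- The unfolded graph. -/
def FG : SimpleGraph (B × Idx M) where
  Adj x y := x.1 ≠ y.1 ∧ (∀ e, e ≠ s(x.1, y.1) → x.2 e = y.2 e) ∧
    ((x.2 s(x.1, y.1)).val + 1 = (y.2 s(x.1, y.1)).val ∨
      (y.2 s(x.1, y.1)).val + 1 = (x.2 s(x.1, y.1)).val)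
  symm := ⟨by
    rintro ⟨s, i⟩ ⟨t, j⟩ ⟨h1, h2, h3⟩
    refine ⟨h1.symm, fun e he => (h2 e ?_).symm, ?_⟩
    · rw [Sym2.eq_swap]; exact he
    · simp only at h3 ⊢
      rw [Sym2.eq_swap]
      exact h3.symm⟩
  loopless := ⟨fun x h => h.1 rfl⟩

noncomputable instance : DecidableRel (FG M).Adj := fun _ _ => Classical.propDecidable _

/-- The angle attached to a pair. -/
noncomputable def th (e : Sym2 B) : ℝ := π / (mm M e + 1)

/-- The weight. -/
noncomputable def vv (i : Idx M) : ℝ := ∏ e, sin ((((i e).val : ℝ) + 1) * th M e)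

lemma vv_pos (i : Idx M) : 0 < vv M i := by
  apply Finset.prod_pos
  intro e _
  have h1 : ((i e).val : ℝ) + 1 < mm M e + 1 := by
    have := (i e).2
    have : ((i e).val : ℝ) < mm M e := by exact_mod_cast this
    linarith
  have h2 : (0 : ℝ) < mm M e + 1 := by positivity
  apply sin_pos_of_pos_of_lt_pi
  · have : 0 < th M e := div_pos pi_pos h2
    positivity
  · rw [th, mul_div_assoc', div_lt_iff₀ h2]
    nlinarith [pi_pos]

lemma vv_update (i : Idx M) (e : Sym2 B) (k : Fin (mm M e)) :
    vv M (Function.update i e k) * sin ((((i e).val : ℝ) + 1) * th M e)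
      = sin (((k.val : ℝ) + 1) * th M e) * vv M i := by
  rw [vv, vv, ← Finset.mul_prod_erase Finset.univ _ (Finset.mem_univ e),
    ← Finset.mul_prod_erase Finset.univ (fun e => sin ((((i e).val : ℝ) + 1) * th M e))
      (Finset.mem_univ e)]
  have : ∏ x ∈ Finset.univ.erase e,
      sin ((((Function.update i e k x).val : ℝ) + 1) * th M x)
      = ∏ x ∈ Finset.univ.erase e, sin ((((i x).val : ℝ) + 1) * th M x) := by
    apply Finset.prod_congr rfl
    intro x hx
    rw [Function.update_of_ne (Finset.ne_of_mem_erase hx)]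
  rw [this, Function.update_self]
  ring

lemma sin_th_pos (i : Idx M) (e : Sym2 B) : 0 < sin ((((i e).val : ℝ) + 1) * th M e) := by
  have h1 : ((i e).val : ℝ) + 1 < mm M e + 1 := by
    have := (i e).2
    have : ((i e).val : ℝ) < mm M e := by exact_mod_cast this
    linarith
  have h2 : (0 : ℝ) < mm M e + 1 := by positivity
  apply sin_pos_of_pos_of_lt_pi
  · have : 0 < th M e := div_pos pi_pos h2
    positivity
  · rw [th, mul_div_assoc', div_lt_iff₀ h2]
    nlinarith [pi_pos]

open Classical in
lemma vv_sum (i : Idx M) (e : Sym2 B) :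
    (∑ j : Idx M, if (∀ e', e' ≠ e → i e' = j e') ∧
      ((i e).val + 1 = (j e).val ∨ (j e).val + 1 = (i e).val) then vv M j else 0)
      = 2 * cos (th M e) * vv M i := by
  set F : Idx M → ℝ := fun j => if (∀ e', e' ≠ e → i e' = j e') ∧
      ((i e).val + 1 = (j e).val ∨ (j e).val + 1 = (i e).val) then vv M j else 0 with hF
  have h1 : ∑ k : Fin (mm M e), F (Function.update i e k) = ∑ j, F j := by
    apply Fintype.sum_of_injective (fun k => Function.update i e k) (Function.update_injective i e)
    · intro j hj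
      simp only [hF]
      rw [if_neg]
      rintro ⟨h2, -⟩
      apply hj
      refine ⟨j e, ?_⟩
      funext e'
      by_cases h : e' = e
      · subst h; simp
      · simp only [Function.update_of_ne h]
        exact h2 e' h
    · intro k; rfl
  rw [← h1]
  have h2 := sin_th_pos M i e
  have h3 : ∀ k : Fin (mm M e), F (Function.update i e k) =
      (if (i e).val + 1 = k.val ∨ k.val + 1 = (i e).val then
        sin (((k.val : ℝ) + 1) * th M e) else 0) * (vv M i / sin ((((i e).val : ℝ) + 1) * th M e)) := by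
    intro k
    simp only [hF]
    have h4 : (∀ e', e' ≠ e → i e' = Function.update i e k e') := by
      intro e' he'
      rw [Function.update_of_ne he']
    simp only [Function.update_self]
    by_cases h5 : (i e).val + 1 = k.val ∨ k.val + 1 = (i e).val
    · rw [if_pos ⟨h4, h5⟩, if_pos h5]
      have := vv_update M i e k
      rw [mul_div_assoc', eq_div_iff h2.ne', this]
    · rw [if_neg (fun h => h5 h.2), if_neg h5, zero_mul]
  simp only [h3]
  rw [← Finset.sum_mul]
  have h6 := sin_sum (mm M e) (i e).val (i e).2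
  rw [th]
  rw [h6]
  rw [th] at h2
  rw [mul_assoc, mul_div_cancel₀ _ h2.ne']

lemma mm_add_one {s t : B} (h : s ≠ t) (h0 : M s t ≠ 0) : mm M s(s, t) + 1 = M s t := by
  rw [mm_mk M h]; omega

lemma cc_eq {s t : B} (h : s ≠ t) (h0 : M s t ≠ 0) : cc M s t = 2 * cos (th M s(s, t)) := by
  rw [cc, if_neg h0, th]
  congr 3
  rw [← mm_add_one M h h0]
  push_cast; rfl

lemma FG_adj {s t : B} {i j : Idx M} (h : s ≠ t) : (FG M).Adj (s, i) (t, j) ↔
    (∀ e', e' ≠ s(s, t) → i e' = j e') ∧
      ((i s(s, t)).val + 1 = (j s(s, t)).val ∨ (j s(s, t)).val + 1 = (i s(s, t)).val) := by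
  simp [FG, h]

lemma FG_nadj_self {s : B} {i j : Idx M} : ¬ (FG M).Adj (s, i) (s, j) := by
  simp [FG]

/-- Weighted neighbour sum over one letter. -/
lemma vv_sum_adj {s t : B} (h : s ≠ t) (h0 : M s t ≠ 0) (i : Idx M) :
    (∑ j : Idx M, if (FG M).Adj (s, i) (t, j) then vv M j else 0) = cc M s t * vv M i := by
  rw [cc_eq M h h0, ← vv_sum M i s(s, t)]
  apply Finset.sum_congr rfl
  intro j _
  simp only [FG_adj M h]

/-- The unfolded graph of a finite Coxeter group is positive definite. -/
theorem FG_PD [Finite M.Group] : PD (FG M) := by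
  obtain ⟨c, hc, hgp⟩ := exists_pos_vec M
  apply PD_of_weight (FG M) (fun x => c x.1 * vv M x.2)
  · intro x
    exact mul_pos (hc _) (vv_pos M _)
  · rintro ⟨s, i⟩
    rw [Fintype.sum_prod_type]
    have e1 : ∀ t, (∑ j : Idx M, if (FG M).Adj (s, i) (t, j) then c t * vv M j else 0)
        = (if t = s then 0 else cc M s t * c t) * vv M i := by
      intro t
      by_cases h : t = s
      · subst h
        rw [if_pos rfl, zero_mul]
        apply Finset.sum_eq_zero
        intro j _
        rw [if_neg (FG_nadj_self M)]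
      · rw [if_neg h]
        have := vv_sum_adj M (Ne.symm h) (label_ne_zero M s t) i
        have e2 : (∑ j : Idx M, if (FG M).Adj (s, i) (t, j) then c t * vv M j else 0)
            = c t * ∑ j : Idx M, if (FG M).Adj (s, i) (t, j) then vv M j else 0 := by
          rw [Finset.mul_sum]
          apply Finset.sum_congr rfl
          intro j _
          split_ifs <;> simp
        rw [e2, this]; ring
    simp only [e1]
    rw [← Finset.sum_mul]
    have h1 := hgp s
    rw [gp] at h1
    have h2 := vv_pos M i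
    nlinarith

/-- The index set is nonempty. -/
lemma Idx_nonempty (h0 : ∀ s t, M s t ≠ 0) : Nonempty (Idx M) := by
  refine ⟨fun e => ⟨0, ?_⟩⟩
  induction e using Sym2.inductionOn with
  | hf s t =>
    by_cases h : s = t
    · subst h; rw [mm_diag]; norm_num
    · rw [mm_mk M h]
      have := M.off_diagonal s t h
      have := h0 s t
      omega

end Pool.Agent.MP685115
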