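import Pool.Agent.Lib.MP_685115_al.Red
import Pool.Agent.Lib.MP_685115_al.Fold

/-! The homomorphism from the Artin monoid to the unfolded simply laced Artin monoid. -/

set_option linter.unusedSectionVars false
set_option linter.unusedVariables false

namespace Pool.Agent.MP685115

open Real

/-! ### Trigonometry of the sequence U -/

section trig
variable {m : ℕ} (hm : 2 ≤ m)
include hm

lemma U_aux : 0 < sin (π / m) := by
  have hmR : (2 : ℝ) ≤ m := by exact_mod_cast hm
  have h1 : 0 < π / m := by positivity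
  have h2 : π / m ≤ π / 2 := div_le_div_of_nonneg_left pi_pos.le (by norm_num) hmR
  exact sin_pos_of_pos_of_lt_pi h1 (by linarith [pi_pos])

lemma m_mul : (m : ℝ) * (π / m) = π := by
  have hmR : (2 : ℝ) ≤ m := by exact_mod_cast hm
  have : (m : ℝ) ≠ 0 := by positivity
  field_simp

lemma U_m : U (2 * cos (π / m)) m = 0 := by
  have h := U_mul_sin (π / m) m
  rw [m_mul hm, sin_pi] at h
  exact (mul_eq_zero.1 h).resolve_right (U_aux hm).ne'

lemma U_m_succ : U (2 * cos (π / m)) (m + 1) = -1 := by
  have h := U_mul_sin (π / m) (m + 1)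
  push_cast at h
  rw [add_mul, m_mul hm, one_mul, add_comm π, sin_add_pi] at h
  have h2 : (U (2 * cos (π / m)) (m + 1) + 1) * sin (π / m) = 0 := by linarith
  have := (mul_eq_zero.1 h2).resolve_right (U_aux hm).ne'
  linarith

lemma U_m_pred {k : ℕ} (hk : m = k + 1) : U (2 * cos (π / m)) k = 1 := by
  have h := U_succ_succ (2 * cos (π / m)) k
  have e1 : k + 2 = m + 1 := by omega
  rw [e1, ← hk, U_m_succ hm, U_m hm] at h
  linarith

lemma U_pos {k : ℕ} (h1 : 1 ≤ k) (h2 : k < m) : 0 < U (2 * cos (π / m)) k := by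
  have h := U_mul_sin (π / m) k
  have hmR : (2 : ℝ) ≤ m := by exact_mod_cast hm
  have hk : (1 : ℝ) ≤ k := by exact_mod_cast h1
  have hk2 : (k : ℝ) < m := by exact_mod_cast h2
  have hp : 0 < π / m := by positivity
  have h3 : 0 < sin (k * (π / m)) := by
    apply sin_pos_of_pos_of_lt_pi
    · positivity
    · calc (k : ℝ) * (π / m) < m * (π / m) := by nlinarith
        _ = π := m_mul hm
  rw [← h] at h3
  exact (pos_iff_pos_of_mul_pos h3).2 (U_aux hm)

lemma V_pos {k : ℕ} (h2 : k < m) :
    0 < U (2 * cos (π / m)) k + U (2 * cos (π / m)) (k + 1) := by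
  rcases Nat.eq_zero_or_pos k with rfl | h1
  · have : U (2 * cos (π / m)) (0 + 1) = 1 := rfl
    have h3 : U (2 * cos (π / m)) 0 = 0 := rfl
    rw [this, h3]; norm_num
  · have h3 := U_pos hm h1 h2
    by_cases h4 : k + 1 < m
    · have := U_pos hm (by omega) h4
      linarith
    · have h5 : k + 1 = m := by omega
      rw [h5, U_m hm]; linarith

end trig

variable {B : Type} [Fintype B] [DecidableEq B] {M : CoxeterMatrix B}

instance [Finite M.Group] : Fact (PD (FG M)) := ⟨FG_PD M⟩

/-- The product over a list of indices. -/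
noncomputable def pl (s : B) (l : List (Idx M)) : AM (slM (FG M)) :=
  (l.map (fun i => sg (slM (FG M)) (s, i))).prod

@[simp] lemma pl_nil (s : B) : pl (M := M) s [] = 1 := rfl

@[simp] lemma pl_cons (s : B) (i : Idx M) (l : List (Idx M)) :
    pl s (i :: l) = sg (slM (FG M)) (s, i) * pl s l := by
  simp [pl]

lemma sg_comm_same (s : B) (i j : Idx M) :
    sg (slM (FG M)) (s, i) * sg (slM (FG M)) (s, j)
      = sg (slM (FG M)) (s, j) * sg (slM (FG M)) (s, i) := by
  by_cases h : (s, i) = (s, j)
  · rw [h]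
  · exact sl_comm h (FG_nadj_self M)

lemma sg_comm_pl (s : B) (i : Idx M) (l : List (Idx M)) :
    sg (slM (FG M)) (s, i) * pl s l = pl s l * sg (slM (FG M)) (s, i) := by
  induction l with
  | nil => simp
  | cons j l ih => rw [pl_cons, ← mul_assoc, sg_comm_same, mul_assoc, ih, mul_assoc]

lemma rev_pl (s : B) (l : List (Idx M)) : rev (pl s l) = pl s l := by
  induction l with
  | nil => simp
  | cons j l ih => rw [pl_cons, rev_mul, ih, rev_sg, sg_comm_pl]

lemma sg_dvd_pl {s : B} {i : Idx M} {l : List (Idx M)} (h : i ∈ l) :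
    sg (slM (FG M)) (s, i) ∣ pl s l := by
  induction l with
  | nil => simp at h
  | cons j l ih =>
    rw [pl_cons]
    rcases List.mem_cons.1 h with rfl | h
    · exact Dvd.intro _ rfl
    · rw [sg_comm_pl]
      exact dvd_mul_of_dvd_left (ih h) _

lemma len_pl (s : B) (l : List (Idx M)) : len (pl s l) = l.length := by
  induction l with
  | nil => simp
  | cons j l ih => rw [pl_cons, len_mul, ih, len_sg, List.length_cons]; omega

lemma inX_pl {X : Set (B × Idx M)} {s : B} {l : List (Idx M)} :
    inX X (pl s l) ↔ ∀ i ∈ l, (s, i) ∈ X := by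
  induction l with
  | nil => simp [inX_one]
  | cons j l ih => rw [pl_cons, inX_mul, ih, inX_sg]; simp

lemma act_pl {s : B} {l : List (Idx M)} (hl : l.Nodup) (b : B × Idx M → ℤ) (t : B) (j : Idx M) :
    act (FG M) (pl s l) b (t, j) =
      if t = s ∧ j ∈ l then b (t, j) - pr (FG M) (t, j) b else b (t, j) := by
  classical
  induction l generalizing t j with
  | nil => rw [pl_nil, act_one]; simp
  | cons i l ih =>
    rw [List.nodup_cons] at hl
    rw [pl_cons, act_sg_mul]
    by_cases h1 : (t, j) = (s, i)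
    · have ht : t = s := congrArg Prod.fst h1
      have hj : j = i := congrArg Prod.snd h1
      subst ht hj
      rw [if_pos ⟨rfl, List.mem_cons_self⟩]
      have e1 : pr (FG M) (t, j) (act (FG M) (pl t l) b) = pr (FG M) (t, j) b := by
        rw [pr, pr, ih hl.2, if_neg (fun h => hl.1 h.2)]
        congr 1
        apply Finset.sum_congr rfl
        rintro ⟨u, k⟩ _
        split_ifs with h2
        · have h3 : u ≠ t := by
            rintro rfl
            exact FG_nadj_self M h2
          rw [ih hl.2, if_neg (fun h => h3 h.1)]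
        · rfl
      rw [rf, e1]
      simp only [Pi.sub_apply, Pi.smul_apply, al, Pi.single_eq_same, smul_eq_mul, mul_one]
      rw [ih hl.2, if_neg (fun h => hl.1 h.2)]
    · rw [rf_apply_ne h1, ih hl.2]
      have h2 : (t = s ∧ j ∈ l) ↔ (t = s ∧ j ∈ i :: l) := by
        constructor
        · rintro ⟨h3, h4⟩; exact ⟨h3, List.mem_cons_of_mem _ h4⟩
        · rintro ⟨rfl, h4⟩
          refine ⟨rfl, ?_⟩
          rcases List.mem_cons.1 h4 with rfl | h5
          · exact absurd rfl h1
          · exact h5
      simp only [h2]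

lemma act_pl_al {s : B} {l : List (Idx M)} {i : Idx M} (hi : i ∉ l) :
    act (FG M) (pl s l) (al (s, i)) = al (s, i) := by
  induction l with
  | nil => rw [pl_nil, act_one]
  | cons j l ih =>
    rw [List.mem_cons, not_or] at hi
    rw [pl_cons, act_sg_mul, ih hi.2, rf, pr_al_nadj, zero_smul, sub_zero]
    · intro h; exact hi.1 (congrArg Prod.snd h).symm
    · exact FG_nadj_self M

/-- The image of a letter. -/
noncomputable def ph (s : B) : AM (slM (FG M)) := pl s (Finset.univ : Finset (Idx M)).toList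

lemma nodup_univ : ((Finset.univ : Finset (Idx M)).toList).Nodup := Finset.nodup_toList _

lemma mem_univ_list (i : Idx M) : i ∈ (Finset.univ : Finset (Idx M)).toList := by simp

lemma rev_ph (s : B) : rev (ph (M := M) s) = ph s := rev_pl _ _

lemma sg_dvd_ph (s : B) (i : Idx M) : sg (slM (FG M)) (s, i) ∣ ph s := sg_dvd_pl (mem_univ_list i)

lemma ph_eq_mul (s : B) (i : Idx M) : ∃ w, ph s = w * sg (slM (FG M)) (s, i) := by
  obtain ⟨c, hc⟩ := sg_dvd_ph s i
  refine ⟨rev c, ?_⟩
  have := congrArg rev hc
  rwa [rev_ph, rev_mul, rev_sg] at this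

lemma len_ph (s : B) : len (ph (M := M) s) = Fintype.card (Idx M) := by
  rw [ph, len_pl, Finset.length_toList]; rfl

lemma inX_ph [Nonempty (Idx M)] {X : Set B} {s : B} :
    inX {x : B × Idx M | x.1 ∈ X} (ph s) ↔ s ∈ X := by
  rw [ph, inX_pl]
  constructor
  · intro h
    obtain ⟨i⟩ := ‹Nonempty (Idx M)›
    exact h i (mem_univ_list i)
  · intro h i _; exact h

lemma act_ph_same (s : B) (b : B × Idx M → ℤ) (j : Idx M) :
    act (FG M) (ph s) b (s, j) = b (s, j) - pr (FG M) (s, j) b := by
  rw [ph, act_pl nodup_univ, if_pos ⟨rfl, mem_univ_list j⟩]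

lemma act_ph_ne {s t : B} (h : t ≠ s) (b : B × Idx M → ℤ) (j : Idx M) :
    act (FG M) (ph s) b (t, j) = b (t, j) := by
  rw [ph, act_pl nodup_univ, if_neg (fun h' => h h'.1)]

/-- The functional attached to a letter. -/
noncomputable def lam (s : B) (b : B × Idx M → ℤ) : ℝ := ∑ i, vv M i * (b (s, i) : ℝ)

/-- Support in two letters. -/
def Sup2 (s t : B) (b : B × Idx M → ℤ) : Prop := ∀ u i, u ≠ s → u ≠ t → b (u, i) = 0

lemma Sup2.symm {s t : B} {b : B × Idx M → ℤ} (h : Sup2 s t b) : Sup2 t s b :=
  fun u i h1 h2 => h u i h2 h1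

lemma Sup2.act {s t : B} {b : B × Idx M → ℤ} (h : Sup2 s t b) :
    Sup2 s t (act (FG M) (ph s) b) := by
  intro u i h1 h2
  rw [act_ph_ne h1]; exact h u i h1 h2

lemma lam_act_ne {s t : B} (h : t ≠ s) (b : B × Idx M → ℤ) :
    lam t (act (FG M) (ph s) b) = lam t b := by
  simp only [lam, act_ph_ne h]

lemma lam_act {s t : B} (h : s ≠ t) (h0 : M s t ≠ 0) {b : B × Idx M → ℤ} (hb : Sup2 s t b) :
    lam s (act (FG M) (ph s) b) = cc M s t * lam t b - lam s b := by
  have e1 : ∀ i : Idx M, pr (FG M) (s, i) b = 2 * b (s, i)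
      - ∑ j : Idx M, if (FG M).Adj (s, i) (t, j) then b (t, j) else 0 := by
    intro i
    rw [pr, Fintype.sum_prod_type]
    congr 1
    rw [Finset.sum_eq_single t]
    · intro u _ hu
      apply Finset.sum_eq_zero
      intro j _
      split_ifs with h2
      · by_cases h3 : u = s
        · subst h3; exact absurd h2 (FG_nadj_self M)
        · exact hb u j h3 hu
      · rfl
    · simp
  have e2 : lam s (act (FG M) (ph s) b) = (∑ i : Idx M, ∑ j : Idx M,
      if (FG M).Adj (s, i) (t, j) then vv M i * (b (t, j) : ℝ) else 0) - lam s b := by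
    rw [lam, lam, ← Finset.sum_sub_distrib]
    apply Finset.sum_congr rfl
    intro i _
    rw [act_ph_same, e1]
    push_cast
    have : (∑ j : Idx M, if (FG M).Adj (s, i) (t, j) then vv M i * (b (t, j) : ℝ) else 0)
        = vv M i * ∑ j : Idx M, if (FG M).Adj (s, i) (t, j) then (b (t, j) : ℝ) else 0 := by
      rw [Finset.mul_sum]
      apply Finset.sum_congr rfl
      intro j _
      split_ifs <;> simp
    rw [this]
    ring
  rw [e2, Finset.sum_comm]
  congr 1
  rw [lam, Finset.mul_sum]
  apply Finset.sum_congr rfl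
  intro j _
  have e3 := vv_sum_adj M (Ne.symm h) (by rw [M.symmetric t s]; exact h0) j
  have e4 : (∑ i : Idx M, if (FG M).Adj (s, i) (t, j) then vv M i * (b (t, j) : ℝ) else 0)
      = (∑ i : Idx M, if (FG M).Adj (t, j) (s, i) then vv M i else 0) * (b (t, j) : ℝ) := by
    rw [Finset.sum_mul]
    apply Finset.sum_congr rfl
    intro i _
    simp only [(FG M).adj_comm (s, i) (t, j)]
    split_ifs <;> simp
  rw [e4, e3, cc_symm M t s]; ring

lemma act_rev_ph_mul (s : B) (u : AM (slM (FG M))) (b : B × Idx M → ℤ) :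
    act (FG M) (rev (ph s * u)) b = act (FG M) (rev u) (act (FG M) (ph s) b) := by
  rw [rev_mul, rev_ph, act_mul]

lemma lam_alt {s t : B} (h : s ≠ t) (h0 : M s t ≠ 0) (k : ℕ) {b : B × Idx M → ℤ}
    (hb : Sup2 s t b) :
    lam s (act (FG M) (rev (alt (ph s) (ph t) (k + 1))) b)
      + lam t (act (FG M) (rev (alt (ph s) (ph t) (k + 1))) b)
      = (U (cc M s t) (k + 1) + U (cc M s t) (k + 2)) * lam t b
        - (U (cc M s t) k + U (cc M s t) (k + 1)) * lam s b := by
  induction k generalizing s t b with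
  | zero =>
    rw [alt_succ, alt_zero, mul_one, rev_ph, lam_act h h0 hb, lam_act_ne (Ne.symm h)]
    simp only [U]
    ring
  | succ k ih =>
    have h0' : M t s ≠ 0 := by rw [M.symmetric t s]; exact h0
    rw [alt_succ, act_rev_ph_mul, add_comm, ih (Ne.symm h) h0' hb.act.symm, cc_symm M t s,
      lam_act h h0 hb, lam_act_ne (Ne.symm h)]
    have e1 : U (cc M s t) (k + 1 + 2) = cc M s t * U (cc M s t) (k + 1 + 1)
      - U (cc M s t) (k + 1) := U_succ_succ _ _
    have e2 : U (cc M s t) (k + 2) = cc M s t * U (cc M s t) (k + 1)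
      - U (cc M s t) k := U_succ_succ _ _
    have e3 : k + 1 + 1 = k + 2 := rfl
    rw [e1, e3, e2]
    ring

lemma lam_nonneg {s : B} {b : B × Idx M → ℤ} (h : ∀ x, 0 ≤ b x) : 0 ≤ lam s b := by
  apply Finset.sum_nonneg
  intro i _
  have : (0 : ℝ) ≤ b (s, i) := by exact_mod_cast h (s, i)
  exact mul_nonneg (vv_pos M i).le this

lemma lam_neg (s : B) (b : B × Idx M → ℤ) : lam s (-b) = - lam s b := by
  simp [lam]

lemma lam_al_same (s : B) (i : Idx M) : lam s (al (s, i)) = vv M i := by
  rw [lam, Finset.sum_eq_single i]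
  · simp [al]
  · intro j _ hj
    simp [al, hj]
  · simp

lemma lam_al_ne {s t : B} (h : t ≠ s) (i : Idx M) : lam t (al (s, i)) = 0 := by
  apply Finset.sum_eq_zero
  intro j _
  simp [al, h]

lemma sup2_al (s t : B) (i : Idx M) : Sup2 t s (al (s, i)) := by
  intro u j _ h2
  simp [al, h2]

section finite
variable [Finite M.Group]

lemma Red_pl_mul {s : B} {l : List (Idx M)} (hl : l.Nodup) {u : AM (slM (FG M))} (hu : Red u)
    (h : ∀ i ∈ l, alp (FG M) (s, i) ∉ N u) : Red (pl s l * u) := by
  induction l with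
  | nil => rw [pl_nil, one_mul]; exact hu
  | cons i l ih =>
    rw [List.nodup_cons] at hl
    rw [pl_cons, mul_assoc, Red_sg_mul]
    refine ⟨ih hl.2 (fun j hj => h j (List.mem_cons_of_mem _ hj)), ?_⟩
    rw [mem_N, rev_mul, rev_pl, act_mul]
    simp only [alp]
    rw [act_pl_al hl.1]
    exact h i List.mem_cons_self

lemma Red_ph_mul {s : B} {u : AM (slM (FG M))} (hu : Red u)
    (h : ∀ i, alp (FG M) (s, i) ∉ N u) : Red (ph s * u) :=
  Red_pl_mul nodup_univ hu (fun i _ => h i)

lemma two_le_label {s t : B} (h : s ≠ t) : 2 ≤ M s t := by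
  have h1 := M.off_diagonal s t h
  have h2 := label_ne_zero M s t
  omega

lemma cc_eq' (s t : B) : cc M s t = 2 * cos (π / M s t) := by
  rw [cc, if_neg (label_ne_zero M s t)]

lemma Red_alt {s t : B} (h : s ≠ t) {k : ℕ} (hk : k ≤ M s t) :
    Red (alt (ph (M := M) s) (ph t) k) := by
  induction k generalizing s t with
  | zero => exact Red_one
  | succ k ih =>
    rw [alt_succ]
    apply Red_ph_mul (ih (Ne.symm h) (by rw [M.symmetric t s]; omega))
    intro i
    rw [mem_N, not_not]
    clear ih
    rcases k with _ | k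
    · rw [alt_zero, rev_one, act_one]
      exact (alp (FG M) (s, i)).2
    · simp only [alp]
      set y := act (FG M) (rev (alt (ph t) (ph s) (k + 1))) (al (s, i)) with hy
      have h1 := lam_alt (Ne.symm h) (label_ne_zero M t s) k (sup2_al s t i)
      rw [← hy, lam_al_same, lam_al_ne (Ne.symm h), mul_zero, sub_zero, cc_symm M t s, cc_eq'] at h1
      have h2 : 0 < lam t y + lam s y := by
        rw [h1]
        exact mul_pos (V_pos (two_le_label h) (by omega)) (vv_pos M i)
      rcases pos_or_neg (FG_PD M) (b := y) (by rw [hy, qf_act, qf_al]) with h3 | h3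
      · exact h3
      · exfalso
        have h4 := lam_nonneg (s := t) h3.2
        have h5 := lam_nonneg (s := s) h3.2
        rw [lam_neg] at h4 h5
        linarith

lemma N_alt {s t : B} (h : s ≠ t) :
    N (alt (ph (M := M) s) (ph t) (M s t)) = {b | Sup2 s t b.1} := by
  ext b
  simp only [Set.mem_ofPred_eq]
  constructor
  · intro hb
    by_contra hs
    simp only [Sup2] at hs
    push Not at hs
    obtain ⟨u, i, h1, h2, h3⟩ := hs
    refine not_mem_N_of_support (X := {x : B × Idx M | x.1 = s ∨ x.1 = t}) ?_ (t := (u, i)) ?_ h3 hb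
    · have key : ∀ (k : ℕ) (s t : B), inX {x : B × Idx M | x.1 = s ∨ x.1 = t}
          (alt (ph (M := M) s) (ph t) k) := by
        intro k
        induction k with
        | zero => intro s t; exact inX_one
        | succ k ih =>
          intro s t
          rw [alt_succ, inX_mul]
          refine ⟨?_, ?_⟩
          · rw [ph, inX_pl]; intro i _; exact Or.inl rfl
          · have := ih t s
            exact inX_mono (fun x hx => Or.symm hx) this
      exact key _ s t
    · simp only [Set.mem_ofPred_eq, not_or]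
      exact ⟨h1, h2⟩
  · intro hb
    obtain ⟨k, hk⟩ : ∃ k, M s t = k + 1 := ⟨M s t - 1, by have := label_ne_zero M s t; omega⟩
    have h1 := lam_alt h (label_ne_zero M s t) k hb
    rw [← hk] at h1
    rw [mem_N]
    intro hpos
    have h2 := lam_nonneg (s := s) hpos.2
    have h3 := lam_nonneg (s := t) hpos.2
    have hm := two_le_label (M := M) h
    have e1 : U (cc M s t) (k + 1) = 0 := by
      rw [← hk, cc_eq']; exact U_m hm
    have e2 : U (cc M s t) (k + 2) = -1 := by
      have : k + 2 = M s t + 1 := by omega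
      rw [this, cc_eq']; exact U_m_succ hm
    have e3 : U (cc M s t) k = 1 := by
      rw [cc_eq']; exact U_m_pred hm hk
    rw [← hk] at e1
    rw [e2, e3, e1] at h1
    have h4 := lam_nonneg (s := s) b.2.2
    have h5 := lam_nonneg (s := t) b.2.2
    have h6 : lam s b.1 + lam t b.1 = 0 := by linarith
    have h7 : ∀ r, lam r b.1 = 0 → ∀ i, b.1 (r, i) = 0 := by
      intro r hr i
      rw [lam, Finset.sum_eq_zero_iff_of_nonneg] at hr
      · have := hr i (Finset.mem_univ _)
        have := (mul_eq_zero.1 this).resolve_left (vv_pos M i).ne'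
        exact_mod_cast this
      · intro j _
        have : (0 : ℝ) ≤ b.1 (r, j) := by exact_mod_cast b.2.2 (r, j)
        exact mul_nonneg (vv_pos M j).le this
    have h8 := h7 s (by linarith)
    have h9 := h7 t (by linarith)
    apply b.2.ne_zero
    funext x
    obtain ⟨u, i⟩ := x
    by_cases hu : u = s
    · subst hu; exact h8 i
    · by_cases hu' : u = t
      · subst hu'; exact h9 i
      · exact hb u i hu hu'

/-- The braid relation for the images of the letters. -/
theorem ph_rel {s t : B} (h : s ≠ t) :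
    alt (ph (M := M) s) (ph t) (M s t) = alt (ph t) (ph s) (M s t) := by
  apply (Red_alt h le_rfl).ext
  · rw [M.symmetric s t]
    exact Red_alt (Ne.symm h) le_rfl
  · rw [N_alt h]
    rw [M.symmetric s t, N_alt (Ne.symm h)]
    ext b
    exact ⟨Sup2.symm, Sup2.symm⟩

variable (M) in
/-- The folding homomorphism. -/
noncomputable def phi : AM M →* AM (slM (FG M)) :=
  liftAM (fun s => ph s) (by
    intro s t _
    by_cases h : s = t
    · subst h; rfl
    · exact ph_rel h)

lemma phi_sg (s : B) : phi M (sg M s) = ph s := rfl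

instance : Nonempty (Idx M) := Idx_nonempty M (label_ne_zero M)

lemma len_phi (u : AM M) : len (phi M u) = Fintype.card (Idx M) * len u := by
  induction u using AM_ind with
  | h1 => simp
  | hs s u ih => rw [map_mul, len_mul, len_mul, ih, phi_sg, len_ph, len_sg]; ring

lemma rev_phi (u : AM M) : rev (phi M u) = phi M (rev u) := by
  induction u using AM_ind with
  | h1 => simp
  | hs s u ih => rw [map_mul, rev_mul, rev_mul, map_mul, ih, phi_sg, rev_ph, rev_sg, phi_sg]

lemma inX_phi {X : Set B} {u : AM M} : inX {x : B × Idx M | x.1 ∈ X} (phi M u) ↔ inX X u := by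
  induction u using AM_ind with
  | h1 => rw [map_one]; exact ⟨fun _ => inX_one, fun _ => inX_one⟩
  | hs s u ih => rw [map_mul, inX_mul, inX_mul, ih, phi_sg, inX_ph, inX_sg]

end finite

end Pool.Agent.MP685115
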