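import Pool.Agent.Lib.MP_685115_al.WGroup

/-! Garside elements of the parabolic submonoids. -/

set_option linter.unusedSectionVars false
set_option linter.unusedVariables false

namespace Pool.Agent.MP685115

variable {B : Type} [Fintype B] [DecidableEq B] {M : CoxeterMatrix B} [Finite M.Group]

lemma RedM_one : RedM (1 : AM M) := by
  rw [RedM, map_one]; exact Red_one

lemma RedM.right {u v : AM M} (h : RedM (u * v)) : RedM v := by
  rw [RedM, map_mul] at h
  exact Red.right h

lemma RedM.left {u v : AM M} (h : RedM (u * v)) : RedM u := by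
  rw [RedM, map_mul] at h
  exact Red.left h

lemma RedM_rev {u : AM M} : RedM (rev u) ↔ RedM u := by
  rw [RedM, RedM, ← rev_phi, Red_rev]

lemma RedM.mem_iff {u : AM M} (h : RedM u) (s : B) (i : Idx M) :
    alp (FG M) (s, i) ∈ N (phi M u) ↔ sg M s ∣ u := by
  rw [← phi_dvd_iff i]
  exact (Red.dvd_iff h _).symm

lemma RedM_sg_mul {s : B} {u : AM M} (hu : RedM u) (h : ¬ sg M s ∣ u) : RedM (sg M s * u) := by
  rw [RedM, map_mul, phi_sg]
  apply Red_ph_mul hu
  intro i hi
  exact h ((hu.mem_iff s i).1 hi)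

lemma not_RedM_sq {s : B} {u v : AM M} : ¬ RedM (u * (sg M s * (sg M s * v))) := by
  intro h
  obtain ⟨i⟩ := (inferInstance : Nonempty (Idx M))
  rw [RedM, map_mul, map_mul, map_mul, phi_sg] at h
  obtain ⟨w, hw⟩ := ph_eq_mul (M := M) s i
  obtain ⟨c, hc⟩ := sg_dvd_ph (M := M) s i
  have e1 : ph s * (ph s * phi M v) =
      w * (sg (slM (FG M)) (s, i) * (sg (slM (FG M)) (s, i) * (c * phi M v))) := by
    calc ph s * (ph s * phi M v) = (w * sg (slM (FG M)) (s, i)) *
          ((sg (slM (FG M)) (s, i) * c) * phi M v) := by rw [← hw, ← hc]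
      _ = _ := by simp only [mul_assoc]
  rw [e1, ← mul_assoc] at h
  exact not_Red_sq' h

lemma RedM.ext {u v : AM M} (hu : RedM u) (hv : RedM v) (h : N (phi M u) = N (phi M v)) :
    u = v :=
  phi_injective _ _ _ rfl (Red.ext hu hv h)

lemma piM_inj {u v : AM M} (hu : RedM u) (hv : RedM v) (h : piM M u = piM M v) : u = v := by
  apply hu.ext hv
  apply N_eq_of_act
  rw [← wact_piM, ← wact_piM, h]

lemma RedM_finite : {u : AM M | RedM u}.Finite := by
  have : Set.InjOn (piM M) {u : AM M | RedM u} := fun u hu v hv h => piM_inj hu hv h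
  exact Set.Finite.of_finite_image (Set.toFinite _) this

/-- Roots supported over `X`. -/
def NX (X : Set B) : Set (PR (FG M)) := {b | ∀ x : B × Idx M, x.1 ∉ X → b.1 x = 0}

lemma N_sub {X : Set B} {u : AM M} (h : inX X u) : N (phi M u) ⊆ NX X := by
  intro b hb x hx
  by_contra h0
  exact not_mem_N_of_support (inX_phi.2 h) (t := x) hx h0 hb

lemma N_eq {X : Set B} {u : AM M} (h : inX X u) (hr : RedM u) (hd : ∀ s ∈ X, sg M s ∣ u) :
    N (phi M u) = NX X := by
  apply Set.Subset.antisymm (N_sub h)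
  intro b hb
  apply mem_N_of_support (X := {x : B × Idx M | x.1 ∈ X})
  · rintro ⟨s, i⟩ hs
    exact (hr.mem_iff s i).2 (hd s hs)
  · intro x hx
    exact hb x hx

theorem exists_full (X : Finset B) : ∃ u : AM M, RedM u ∧ inX (X : Set B) u ∧
    ∀ s ∈ X, sg M s ∣ u := by
  have hfin : {u : AM M | RedM u ∧ inX (X : Set B) u}.Finite :=
    RedM_finite.subset (fun u hu => hu.1)
  obtain ⟨u, hu, hmax⟩ := Set.exists_max_image {u : AM M | RedM u ∧ inX (X : Set B) u} len hfin
    ⟨1, RedM_one, inX_one⟩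
  refine ⟨u, hu.1, hu.2, fun s hs => ?_⟩
  by_contra hd
  have h1 := hmax (sg M s * u) ⟨RedM_sg_mul hu.1 hd, inX_mul.2 ⟨inX_sg.2 hs, hu.2⟩⟩
  rw [len_mul, len_sg] at h1
  omega

variable (M) in
/-- The Garside element of the parabolic submonoid of `X`. -/
noncomputable def dl (X : Finset B) : AM M :=
  (exists_lcmS (hPM (M := M)) X (exists_full X).choose_spec.2.2).choose

lemma dl_lcm (X : Finset B) : IsLcmS X (dl M X) :=
  (exists_lcmS (hPM (M := M)) X (exists_full X).choose_spec.2.2).choose_spec.1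

lemma inX_dl (X : Finset B) : inX (X : Set B) (dl M X) :=
  (exists_lcmS (hPM (M := M)) X (exists_full X).choose_spec.2.2).choose_spec.2

lemma sg_dvd_dl {X : Finset B} {s : B} (hs : s ∈ X) : sg M s ∣ dl M X := (dl_lcm X).1 s hs

lemma dl_dvd {X : Finset B} {w : AM M} (h : ∀ s ∈ X, sg M s ∣ w) : dl M X ∣ w :=
  (dl_lcm X).2 w h

lemma RedM_dl (X : Finset B) : RedM (dl M X) := by
  obtain ⟨u, h1, h2, h3⟩ := exists_full (M := M) X
  obtain ⟨c, rfl⟩ := dl_dvd h3
  exact h1.left

lemma N_dl (X : Finset B) : N (phi M (dl M X)) = NX (X : Set B) :=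
  N_eq (inX_dl X) (RedM_dl X) (fun s hs => sg_dvd_dl hs)

lemma dl_unique {X : Finset B} {u : AM M} (hr : RedM u) (h : inX (X : Set B) u)
    (hd : ∀ s ∈ X, sg M s ∣ u) : u = dl M X := by
  apply hr.ext (RedM_dl X)
  rw [N_dl, N_eq h hr hd]

lemma RedM.ncard {u : AM M} (h : RedM u) :
    (N (phi M u)).ncard = Fintype.card (Idx M) * len u := by
  rw [← len_phi]; exact h

lemma NX_finite (X : Finset B) : (NX (M := M) (X : Set B)).Finite := by
  rw [← N_dl]; exact N_finite _

lemma eq_dl_of_len {X : Finset B} {u : AM M} (hr : RedM u) (h : inX (X : Set B) u)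
    (hl : len u = len (dl M X)) : u = dl M X := by
  apply hr.ext (RedM_dl X)
  rw [N_dl]
  apply Set.eq_of_subset_of_ncard_le (N_sub h) _ (NX_finite X)
  rw [← N_dl, (RedM_dl X).ncard, hr.ncard, hl]

lemma rev_dl (X : Finset B) : rev (dl M X) = dl M X := by
  apply eq_dl_of_len (RedM_rev.2 (RedM_dl X)) (inX_rev.2 (inX_dl X))
  rw [len_rev]

lemma dl_eq_mul {X : Finset B} {s : B} (hs : s ∈ X) : ∃ c, dl M X = c * sg M s := by
  obtain ⟨c, hc⟩ := sg_dvd_dl (M := M) hs
  refine ⟨rev c, ?_⟩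
  have := congrArg rev hc
  rwa [rev_dl, rev_mul, rev_sg] at this

theorem exists_tau {X : Finset B} {s : B} (hs : s ∈ X) :
    ∃ s' ∈ X, sg M s * dl M X = dl M X * sg M s' := by
  obtain ⟨c, hc⟩ := sg_dvd_dl (M := M) hs
  have hcX : inX (X : Set B) c := by
    have := inX_dl (M := M) X
    rw [hc, inX_mul] at this
    exact this.2
  have hcR : RedM c := by
    have := RedM_dl (M := M) X
    rw [hc] at this
    exact this.right
  have hlen : len (dl M X) = 1 + len c := by rw [hc, len_mul, len_sg]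
  have : ∃ s' ∈ X, ¬ sg M s' ∣ rev c := by
    by_contra hcon
    push Not at hcon
    have h1 := dl_unique (RedM_rev.2 hcR) (inX_rev.2 hcX) hcon
    have h2 := congrArg len h1
    rw [len_rev] at h2
    omega
  obtain ⟨s', hs', hnd⟩ := this
  have h1 : sg M s' * rev c = dl M X := by
    apply eq_dl_of_len (RedM_sg_mul (RedM_rev.2 hcR) hnd)
      (inX_mul.2 ⟨inX_sg.2 hs', inX_rev.2 hcX⟩)
    rw [len_mul, len_sg, len_rev, hlen]
  have h2 : c * sg M s' = dl M X := by
    have := congrArg rev h1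
    rwa [rev_mul, rev_rev, rev_sg, rev_dl] at this
  refine ⟨s', hs', ?_⟩
  conv_lhs => rw [← h2]
  rw [← mul_assoc, ← hc]

lemma exists_tau' {X : Finset B} {s : B} (hs : s ∈ X) :
    ∃ s' ∈ X, dl M X * sg M s = sg M s' * dl M X ∧ sg M s * dl M X = dl M X * sg M s' := by
  obtain ⟨s', hs', h⟩ := exists_tau (M := M) hs
  refine ⟨s', hs', ?_, h⟩
  have := congrArg rev h
  rwa [rev_mul, rev_mul, rev_dl, rev_sg, rev_sg] at this

/-- The square of the Garside element. -/
noncomputable def dd (M : CoxeterMatrix B) [Finite M.Group] (X : Finset B) : AM M :=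
  dl M X * dl M X

lemma dd_comm_sg {X : Finset B} {s : B} (hs : s ∈ X) : sg M s * dd M X = dd M X * sg M s := by
  obtain ⟨s', hs', h1, h2⟩ := exists_tau' (M := M) hs
  rw [dd, ← mul_assoc, h2, mul_assoc, ← h1, mul_assoc]

lemma dd_comm {X : Finset B} {u : AM M} (hu : inX (X : Set B) u) : u * dd M X = dd M X * u := by
  induction u using AM_ind with
  | h1 => simp
  | hs s u ih =>
    rw [inX_mul] at hu
    have hs : s ∈ X := by exact_mod_cast inX_sg.1 hu.1
    rw [mul_assoc, ih hu.2, ← mul_assoc, dd_comm_sg hs, mul_assoc]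

lemma inX_dd (X : Finset B) : inX (X : Set B) (dd M X) := inX_mul.2 ⟨inX_dl X, inX_dl X⟩

/-- Every element of the parabolic submonoid divides a power of the central element. -/
lemma exists_inv {X : Finset B} {u : AM M} (hu : inX (X : Set B) u) :
    ∃ v n, inX (X : Set B) v ∧ u * v = dd M X ^ n := by
  induction u using AM_ind with
  | h1 => exact ⟨1, 0, inX_one, by simp⟩
  | hs s u ih =>
    rw [inX_mul] at hu
    have hs : s ∈ X := by exact_mod_cast inX_sg.1 hu.1
    obtain ⟨v, n, hv, h⟩ := ih hu.2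
    obtain ⟨c, hc⟩ : sg M s ∣ dd M X := dvd_mul_of_dvd_left (sg_dvd_dl hs) _
    have hcX : inX (X : Set B) c := by
      have := inX_dd (M := M) X
      rw [hc, inX_mul] at this
      exact this.2
    refine ⟨v * c, n + 1, inX_mul.2 ⟨hv, hcX⟩, ?_⟩
    have h2 : sg M s * dd M X ^ n = dd M X ^ n * sg M s :=
      (Commute.pow_right (dd_comm_sg hs) n).eq
    calc sg M s * u * (v * c) = sg M s * (u * v) * c := by simp only [mul_assoc]
      _ = dd M X ^ n * (sg M s * c) := by rw [h, h2, mul_assoc]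
      _ = dd M X ^ (n + 1) := by rw [← hc, pow_succ]

/-! ### The elementary ribbons -/

/-- Data of an elementary conjugation. -/
theorem ribbon (X : Finset B) {t : B} (ht : t ∉ X) :
    ∃ (d : AM M) (X' : Finset B), d ≠ 1 ∧ dl M (insert t X) = dl M X * d ∧
      (∀ s ∈ X, ∃ s' ∈ X', sg M s * d = d * sg M s') ∧
      (∀ s' ∈ X', ∃ s ∈ X, sg M s * d = d * sg M s') ∧
      (∀ s ∈ X, ¬ sg M s ∣ d) ∧
      dl M X * d = d * dl M X' := by
  classical
  have hPM' := hPM (M := M)
  obtain ⟨d, hd⟩ : dl M X ∣ dl M (insert t X) :=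
    dl_dvd (fun s hs => sg_dvd_dl (Finset.mem_insert_of_mem hs))
  have hd1 : d ≠ 1 := by
    rintro rfl
    rw [mul_one] at hd
    have h1 := sg_dvd_dl (M := M) (Finset.mem_insert_self t X)
    rw [hd] at h1
    have h2 := inX_of_dvd h1 (inX_dl X)
    exact ht (by exact_mod_cast inX_sg.1 h2)
  have hnd : ∀ s ∈ X, ¬ sg M s ∣ d := by
    rintro s hs ⟨v, rfl⟩
    obtain ⟨c, hc⟩ := dl_eq_mul (M := M) hs
    have h1 := RedM_dl (M := M) (insert t X)
    rw [hd, hc, mul_assoc] at h1
    exact not_RedM_sq h1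
  have hsig : ∀ s ∈ X, ∃ s' ∈ insert t X, sg M s * d = d * sg M s' := by
    intro s hs
    obtain ⟨s1, hs1, h1, h2⟩ := exists_tau' (M := M) hs
    obtain ⟨s', hs', h3⟩ := exists_tau (M := M) (Finset.mem_insert_of_mem (b := t) hs1)
    refine ⟨s', hs', ?_⟩
    apply hPM'.cancelAll (dl M X)
    rw [← mul_assoc, h1, mul_assoc, ← hd, h3, hd, mul_assoc]
  set X' : Finset B := Finset.univ.filter (fun s' => ∃ s ∈ X, sg M s * d = d * sg M s') with hX'
  have hmem : ∀ s', s' ∈ X' ↔ ∃ s ∈ X, sg M s * d = d * sg M s' := by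
    intro s'; simp [hX']
  have hgen : ∀ u : AM M, inX (X : Set B) u → ∃ u', inX (X' : Set B) u' ∧ u * d = d * u' := by
    intro u
    induction u using AM_ind with
    | h1 => intro _; exact ⟨1, inX_one, by simp⟩
    | hs s u ih =>
      intro hu
      rw [inX_mul] at hu
      have hs : s ∈ X := by exact_mod_cast inX_sg.1 hu.1
      obtain ⟨u', hu', h⟩ := ih hu.2
      obtain ⟨s', -, h2⟩ := hsig s hs
      have hs' : s' ∈ X' := (hmem s').2 ⟨s, hs, h2⟩
      refine ⟨sg M s' * u', inX_mul.2 ⟨inX_sg.2 (by exact_mod_cast hs'), hu'⟩, ?_⟩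
      rw [mul_assoc, h, ← mul_assoc, h2, mul_assoc]
  obtain ⟨e, heX, he⟩ := hgen (dl M X) (inX_dl X)
  have heR : RedM e := by
    have h1 := RedM_dl (M := M) (insert t X)
    rw [hd, he] at h1
    exact h1.right
  have hediv : ∀ s' ∈ X', sg M s' ∣ e := by
    intro s' hs'
    obtain ⟨s, hs, h2⟩ := (hmem s').1 hs'
    obtain ⟨c, hc⟩ := sg_dvd_dl (M := M) hs
    have hcX : inX (X : Set B) c := by
      have := inX_dl (M := M) X
      rw [hc, inX_mul] at this
      exact this.2
    obtain ⟨c', -, hc'⟩ := hgen c hcX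
    refine ⟨c', ?_⟩
    apply hPM'.cancelAll d
    rw [← he, hc, mul_assoc, hc', ← mul_assoc, h2, mul_assoc]
  have he' : e = dl M X' := dl_unique heR heX hediv
  refine ⟨d, X', hd1, hd, ?_, ?_, hnd, ?_⟩
  · intro s hs
    obtain ⟨s', -, h2⟩ := hsig s hs
    exact ⟨s', (hmem s').2 ⟨s, hs, h2⟩, h2⟩
  · intro s' hs'
    exact (hmem s').1 hs'
  · rw [he, he']

/-- If `t` divides `Δ² c` then the ribbon divides `c`. -/
theorem ribbon_dvd {X X' : Finset B} {t : B} {d c : AM M}
    (hd : dl M (insert t X) = dl M X * d)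
    (h1 : ∀ s' ∈ X', ∃ s ∈ X, sg M s * d = d * sg M s')
    (h2 : ∀ s ∈ X, ¬ sg M s ∣ d)
    (h3 : dl M X * d = d * dl M X')
    (ht : sg M t ∣ dd M X * c) : d ∣ c := by
  have hPM' := hPM (M := M)
  have base : ∀ c : AM M, sg M t ∣ dl M X * c → d ∣ c := by
    intro c hc
    have : dl M (insert t X) ∣ dl M X * c := by
      apply dl_dvd
      intro s hs
      rcases Finset.mem_insert.1 hs with rfl | hs
      · exact hc
      · exact dvd_mul_of_dvd_left (sg_dvd_dl hs) _
    rw [hd] at this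
    exact hPM'.dvd_of_mul this
  rw [dd, mul_assoc] at ht
  obtain ⟨e, he⟩ := base _ ht
  have h4 : dl M X' ∣ e := by
    apply dl_dvd
    intro s' hs'
    obtain ⟨s, hs, h5⟩ := h1 s' hs'
    have h6 : sg M s ∣ d * e := by rw [← he]; exact dvd_mul_of_dvd_left (sg_dvd_dl hs) _
    have h7 : d ∣ d * e := Dvd.intro _ rfl
    obtain ⟨L, hL, -⟩ := exists_lcm' hPM' h6 h7
    obtain ⟨f, hf⟩ := hL.2.1
    have h8 : L ∣ d * sg M s' := hL.2.2 _ (by rw [← h5]; exact Dvd.intro _ rfl) (Dvd.intro _ rfl)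
    rw [hf] at h8
    obtain ⟨g, hg⟩ := hPM'.dvd_of_mul h8
    have hf1 : f ≠ 1 := by
      rintro rfl
      rw [mul_one] at hf
      have := hL.1
      rw [hf] at this
      exact h2 s hs this
    have hfs : f = sg M s' := by
      have h9 := congrArg len hg
      rw [len_mul, len_sg] at h9
      have h10 : len f ≠ 0 := fun h => hf1 (eq_one_of_len h)
      have h11 : g = 1 := eq_one_of_len (by omega)
      rw [hg, h11, mul_one]
    have h12 := hL.2.2 _ h6 h7
    rw [hf, hfs] at h12
    exact hPM'.dvd_of_mul h12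
  obtain ⟨e', rfl⟩ := h4
  refine ⟨e', ?_⟩
  apply hPM'.cancelAll (dl M X)
  rw [he, ← mul_assoc, ← h3, mul_assoc]

/-! ### Quasi-central elements -/

theorem quasi_central {X : Finset B} (hX : Irr M (X : Set B)) : ∀ (n : ℕ) (u : AM M), len u = n →
    inX (X : Set B) u → (∀ s ∈ X, ∃ s' ∈ X, sg M s * u = u * sg M s') → ∃ j, u = dl M X ^ j := by
  intro n
  have hPM' := hPM (M := M)
  induction n using Nat.strong_induction_on with
  | _ n IH =>
    intro u hn hu hq
    rcases eq_one_or u with rfl | ⟨s, v, rfl⟩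
    · exact ⟨0, by simp⟩
    have hs : s ∈ X := by
      rw [inX_mul] at hu
      exact_mod_cast inX_sg.1 hu.1
    set u := sg M s * v with hudef
    -- propagation along edges
    have hprop : ∀ a ∈ X, ∀ b ∈ X, a ≠ b → M a b ≠ 2 → sg M a ∣ u → sg M b ∣ u := by
      intro a ha b hb hab hM ha'
      obtain ⟨u1, hu1⟩ := ha'
      obtain ⟨b', hb', h1⟩ := hq b hb
      obtain ⟨a', haX', h2⟩ := hq a ha
      -- both letters divide b * u
      have h3 : sg M a ∣ sg M b * u := by rw [h1, hu1, mul_assoc]; exact Dvd.intro _ rfl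
      have h4 : sg M b ∣ sg M b * u := Dvd.intro _ rfl
      obtain ⟨hM0, h5⟩ := atom_lcm hPM' hab.symm h4 h3
      have h6 := two_le_label (M := M) hab
      obtain ⟨k, hk⟩ : ∃ k, M b a = k + 3 := by
        refine ⟨M b a - 3, ?_⟩
        have := M.symmetric a b
        have : M a b = M b a := this
        omega
      rw [hk, alt_succ, alt_succ, alt_succ] at h5
      have h7 := hPM'.dvd_of_mul h5
      rw [hu1] at h7
      have h8 := hPM'.dvd_of_mul h7
      have h9 : sg M b ∣ u1 := dvd_trans (Dvd.intro _ rfl) h8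
      have h10 : u = u1 * sg M a' := by
        apply hPM'.cancelAll (sg M a)
        rw [h2]
        conv_lhs => rw [hu1]
        rw [mul_assoc]
      rw [h10]
      exact dvd_mul_of_dvd_left h9 _
    have hall : ∀ b ∈ X, sg M b ∣ u := by
      have key : ∀ a b : (X : Set B), ((coxGraph M).induce (X : Set B)).Reachable a b →
          sg M a.1 ∣ u → sg M b.1 ∣ u := by
        intro a b hab
        obtain ⟨p⟩ := hab
        induction p with
        | nil => exact id
        | @cons x y z hxy p ih =>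
          intro hx
          apply ih
          have hadj : (coxGraph M).Adj x.1 y.1 := hxy
          exact hprop x.1 (by exact_mod_cast x.2) y.1 (by exact_mod_cast y.2) hadj.1 hadj.2 hx
      intro b hb
      exact key ⟨s, by exact_mod_cast hs⟩ ⟨b, by exact_mod_cast hb⟩ (hX.preconnected _ _)
        (Dvd.intro _ rfl)
    obtain ⟨w, hw⟩ := dl_dvd hall
    have hwX : inX (X : Set B) w := by
      rw [hw, inX_mul] at hu
      exact hu.2
    have hlen : 0 < len (dl M X) := by
      obtain ⟨c, hc⟩ := sg_dvd_dl (M := M) hs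
      rw [hc, len_mul, len_sg]; omega
    have hwlen : len w < n := by
      rw [← hn, hw, len_mul]; omega
    obtain ⟨j, hj⟩ := IH _ hwlen w rfl hwX (by
      intro a ha
      obtain ⟨a1, ha1, h1, h2⟩ := exists_tau' (M := M) ha
      obtain ⟨a', ha', h3⟩ := hq a1 ha1
      refine ⟨a', ha', ?_⟩
      apply hPM'.cancelAll (dl M X)
      rw [← mul_assoc, h1, mul_assoc, ← hw, h3, hw, mul_assoc])
    exact ⟨j + 1, by rw [hw, hj, pow_succ']⟩

end Pool.Agent.MP685115
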