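import Pool.Agent.Lib.MP_685115_al.Garside

/-! The Artin group: embedding of the monoid, parabolic subgroups, normalisers. -/

set_option linter.unusedSectionVars false
set_option linter.unusedVariables false

namespace Pool.Agent.MP685115

open scoped Pointwise

section defs
variable {B : Type} (M : CoxeterMatrix B)

variable {M}

lemma ga_rel {s t : B} (h : M s t ≠ 0) :
    alt (ga M s) (ga M t) (M s t) = alt (ga M t) (ga M s) (M s t) := by
  have h1 : alt (FreeGroup.of s) (FreeGroup.of t) (M s t) *
      (alt (FreeGroup.of t) (FreeGroup.of s) (M s t))⁻¹ ∈ artRel M := ⟨s, t, h, rfl⟩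
  have h2 := PresentedGroup.mk_eq_mk_of_mul_inv_mem h1
  rw [map_alt, map_alt] at h2
  exact h2

variable (M) in
/-- The canonical map from the monoid to the group. -/
def iota : AM M →* AG M := liftAM (ga M) (fun s t h => ga_rel h)

lemma iota_sg (s : B) : iota M (sg M s) = ga M s := rfl

variable (M) in
/-- Length homomorphism of the group. -/
def glen : AG M →* Multiplicative ℤ :=
  liftAG (fun _ => Multiplicative.ofAdd 1) (fun _ _ _ => rfl)

lemma glen_iota (u : AM M) : glen M (iota M u) = Multiplicative.ofAdd (len u : ℤ) := by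
  induction u using AM_ind with
  | h1 => simp
  | hs s u ih =>
    rw [map_mul, map_mul, ih, iota_sg, glen, liftAG_ga, ← ofAdd_add, len_mul, len_sg]
    push_cast; rfl

lemma iota_mem_AX {X : Set B} {u : AM M} (h : inX X u) : iota M u ∈ AX M X := by
  induction u using AM_ind with
  | h1 => rw [map_one]; exact one_mem _
  | hs s u ih =>
    rw [inX_mul] at h
    rw [map_mul]
    exact mul_mem (Subgroup.subset_closure ⟨s, inX_sg.1 h.1, rfl⟩) (ih h.2)

lemma AX_univ : AX M Set.univ = ⊤ := by
  rw [AX, Set.image_univ]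
  exact PresentedGroup.closure_range_of _

end defs

variable {B : Type} [Fintype B] [DecidableEq B] {M : CoxeterMatrix B} [Finite M.Group]

/-! ### The faithful representation -/

variable (M) in
/-- The space of the representation. -/
abbrev VV : Type := PR (FG M) →₀ PowerSeries ℚ

variable (M) in
/-- The representation of the folded monoid. -/
noncomputable def rh : AM (slM (FG M)) →* Module.End (PowerSeries ℚ) (VV M) :=
  rhoHom (FG M) (pmQ.i pmQ.x) (pmQ.i pmQ.y)

lemma rh_injective {u v : AM (slM (FG M))} (h : rh M u = rh M v) : u = v :=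
  rhoHom_injective pmQ _ u v rfl h

lemma rh_bijective (u : AM (slM (FG M))) : Function.Bijective (rh M u) := by
  induction u using AM_ind with
  | h1 => rw [map_one]; exact Function.bijective_id
  | hs s u ih =>
    have : ⇑(rh M (sg _ s * u)) = rho (pmQ.i pmQ.x) (pmQ.i pmQ.y) s ∘ rh M u := by
      funext v
      exact rhoHom_sg_mul _ _ s u v
    rw [this]
    exact (rho_bijective _ _ pmQ.hx pmQ.hy s).comp ih

/-- The operators as linear equivalences. -/
noncomputable def rhE (u : AM (slM (FG M))) : VV M ≃ₗ[PowerSeries ℚ] VV M :=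
  LinearEquiv.ofBijective (rh M u) (rh_bijective u)

lemma rhE_coe (u : AM (slM (FG M))) :
    LinearEquiv.automorphismGroup.toLinearMapMonoidHom (rhE u) = rh M u := rfl

lemma toLin_inj : Function.Injective (LinearEquiv.automorphismGroup.toLinearMapMonoidHom :
    (VV M ≃ₗ[PowerSeries ℚ] VV M) →* (VV M →ₗ[PowerSeries ℚ] VV M)) :=
  LinearEquiv.toLinearMap_injective

variable (M) in
/-- The representation of the Artin group. -/
noncomputable def rhG : AG M →* (VV M ≃ₗ[PowerSeries ℚ] VV M) :=
  liftAG (fun s => rhE (ph s)) (by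
    intro s t _
    apply toLin_inj
    rw [map_alt, map_alt, rhE_coe, rhE_coe]
    have : alt (rh M (ph s)) (rh M (ph t)) (M s t) = alt (rh M (ph t)) (rh M (ph s)) (M s t) := by
      rw [← map_alt, ← map_alt]
      by_cases h : s = t
      · subst h; rfl
      · rw [ph_rel h]
    exact this)

lemma rhG_iota (u : AM M) : LinearEquiv.automorphismGroup.toLinearMapMonoidHom (rhG M (iota M u))
    = rh M (phi M u) := by
  induction u using AM_ind with
  | h1 => simp only [map_one]
  | hs s u ih =>
    rw [map_mul, map_mul, map_mul, ih, iota_sg, rhG, liftAG_ga, rhE_coe, map_mul, map_mul, phi_sg]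

theorem iota_injective {u v : AM M} (h : iota M u = iota M v) : u = v := by
  apply phi_injective _ _ _ rfl
  apply rh_injective
  rw [← rhG_iota, ← rhG_iota, h]

/-! ### Elements of parabolic subgroups -/

lemma comm_z {X : Finset B} {u : AM M} (hu : inX (X : Set B) u) :
    Commute (iota M u) (iota M (dd M X)) := by
  rw [Commute, SemiconjBy, ← map_mul, ← map_mul, dd_comm hu]

theorem form_mem {X : Finset B} {g : AG M} (hg : g ∈ AX M (X : Set B)) :
    ∃ u n, inX (X : Set B) u ∧ g * iota M (dd M X) ^ n = iota M u := by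
  set z := iota M (dd M X) with hz
  induction hg using Subgroup.closure_induction with
  | mem x hx =>
    obtain ⟨s, hs, rfl⟩ := hx
    exact ⟨sg M s, 0, inX_sg.2 hs, by rw [pow_zero, mul_one, iota_sg]⟩
  | one => exact ⟨1, 0, inX_one, by simp⟩
  | mul x y _ _ hx hy =>
    obtain ⟨u, n, hu, h1⟩ := hx
    obtain ⟨v, m, hv, h2⟩ := hy
    refine ⟨u * v, m + n, inX_mul.2 ⟨hu, hv⟩, ?_⟩
    have h3 : iota M v * z ^ n = z ^ n * iota M v := (comm_z hv).pow_right n
    calc x * y * z ^ (m + n) = x * (y * z ^ m) * z ^ n := by rw [pow_add]; simp only [mul_assoc]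
      _ = x * z ^ n * iota M v := by rw [h2, mul_assoc, h3, ← mul_assoc]
      _ = iota M (u * v) := by rw [h1, map_mul]
  | inv x _ hx =>
    obtain ⟨u, n, hu, h1⟩ := hx
    obtain ⟨v, k, hv, h2⟩ := exists_inv hu
    refine ⟨dd M X ^ n * v, k, inX_mul.2 ⟨inX_pow (inX_dd X) n, hv⟩, ?_⟩
    have h3 : iota M u * iota M v = z ^ k := by rw [← map_mul, h2, map_pow]
    rw [map_mul, map_pow, ← hz, ← h3, ← h1]
    group

lemma exists_form (g : AG M) : ∃ u n, g * iota M (dd M (Finset.univ : Finset B)) ^ n = iota M u := by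
  have hg : g ∈ AX M ((Finset.univ : Finset B) : Set B) := by
    rw [Finset.coe_univ, AX_univ]; trivial
  obtain ⟨u, n, -, h⟩ := form_mem hg
  exact ⟨u, n, h⟩

lemma central_z (g : AG M) : Commute g (iota M (dd M (Finset.univ : Finset B))) := by
  obtain ⟨u, n, h⟩ := exists_form g
  have h1 : Commute (iota M u) (iota M (dd M (Finset.univ : Finset B))) :=
    comm_z (by rw [Finset.coe_univ]; exact inX_univ u)
  rw [← h] at h1
  have h2 : g = g * iota M (dd M (Finset.univ : Finset B)) ^ n *
      (iota M (dd M (Finset.univ : Finset B)) ^ n)⁻¹ := by group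
  rw [h2]
  exact h1.mul_left ((Commute.refl _).pow_left n).inv_left

theorem rhG_injective {g : AG M} (h : rhG M g = 1) : g = 1 := by
  obtain ⟨u, n, h1⟩ := exists_form g
  have h2 := congrArg (rhG M) h1
  rw [map_mul, h, one_mul, ← map_pow] at h2
  have h3 := congrArg LinearEquiv.automorphismGroup.toLinearMapMonoidHom h2
  rw [rhG_iota, rhG_iota] at h3
  have h4 := phi_injective _ _ _ rfl (rh_injective h3)
  rw [← h4, map_pow] at h1
  simpa using h1

/-! ### Conjugation of standard parabolic subgroups -/

lemma conj_AX_of_sg {X X' : Set B} {d : AM M}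
    (h1 : ∀ s ∈ X, ∃ s' ∈ X', sg M s * d = d * sg M s')
    (h2 : ∀ s' ∈ X', ∃ s ∈ X, sg M s * d = d * sg M s') :
    MulAut.conj (iota M d) • AX M X' = AX M X := by
  rw [AX, AX, Subgroup.smul_closure]
  congr 1
  ext g
  rw [Set.mem_smul_set]
  have key : ∀ s s', sg M s * d = d * sg M s' →
      MulAut.conj (iota M d) • ga M s' = ga M s := by
    intro s s' h
    rw [MulAut.smul_def, MulAut.conj_apply, ← iota_sg, ← map_mul, ← h, map_mul, iota_sg]
    group
  constructor
  · rintro ⟨x, ⟨s', hs', rfl⟩, rfl⟩
    obtain ⟨s, hs, h⟩ := h2 s' hs'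
    exact ⟨s, hs, (key s s' h).symm⟩
  · rintro ⟨s, hs, rfl⟩
    obtain ⟨s', hs', h⟩ := h1 s hs
    exact ⟨ga M s', ⟨s', hs', rfl⟩, key s s' h⟩

lemma dd_inj {X Z : Finset B} (h : dd M X = dd M Z) : X = Z := by
  have key : ∀ {X Z : Finset B}, dd M X = dd M Z → X ⊆ Z := by
    intro X Z h s hs
    have h1 : sg M s ∣ dd M Z := by
      rw [← h]; exact dvd_mul_of_dvd_left (sg_dvd_dl hs) _
    have h2 := inX_of_dvd h1 (inX_dd Z)
    exact_mod_cast inX_sg.1 h2
  exact Finset.Subset.antisymm (key h) (key h.symm)

theorem conj_of_dd : ∀ (n : ℕ) (h : AM M), len h = n → ∀ X Z : Finset B,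
    dd M X * h = h * dd M Z → MulAut.conj (iota M h) • AX M (Z : Set B) = AX M (X : Set B) := by
  intro n
  have hPM' := hPM (M := M)
  induction n using Nat.strong_induction_on with
  | _ n IH =>
    intro h hn X Z heq
    rcases eq_one_or h with rfl | ⟨t, h', rfl⟩
    · rw [mul_one, one_mul] at heq
      rw [dd_inj heq, map_one, map_one, one_smul]
    by_cases ht : t ∈ X
    · rw [← mul_assoc, ← dd_comm_sg ht, mul_assoc, mul_assoc] at heq
      have h1 := hPM'.cancel t _ _ heq
      rw [len_mul, len_sg] at hn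
      have h2 := IH (len h') (by omega) h' rfl X Z h1
      rw [map_mul, map_mul, mul_smul, h2]
      apply Subgroup.conj_smul_eq_self_of_mem
      exact iota_mem_AX (inX_sg.2 (by exact_mod_cast ht))
    · obtain ⟨d, X', hd1, hd, h1, h2, h3, h4⟩ := ribbon (M := M) X ht
      have h5 : sg M t ∣ dd M X * (sg M t * h') := by
        rw [heq, mul_assoc]; exact Dvd.intro _ rfl
      obtain ⟨h'', hh⟩ := ribbon_dvd hd h2 h3 h4 h5
      have h6 : dd M X * d = d * dd M X' := by
        rw [dd, dd, mul_assoc, h4, ← mul_assoc, h4, mul_assoc]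
      rw [hh] at heq ⊢
      rw [← mul_assoc, h6, mul_assoc, mul_assoc] at heq
      have h7 := hPM'.cancelAll d heq
      have h8 : len h'' < n := by
        rw [← hn, hh, len_mul]
        have : len d ≠ 0 := fun h0 => hd1 (eq_one_of_len h0)
        omega
      have h9 := IH (len h'') h8 h'' rfl X' Z h7
      rw [map_mul, map_mul, mul_smul, h9]
      apply conj_AX_of_sg
      · intro s hs
        obtain ⟨s', hs', h10⟩ := h1 s (by exact_mod_cast hs)
        exact ⟨s', by exact_mod_cast hs', h10⟩
      · intro s' hs'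
        obtain ⟨s, hs, h10⟩ := h2 s' (by exact_mod_cast hs')
        exact ⟨s, by exact_mod_cast hs, h10⟩

/-- An element commuting with the central element of a parabolic subgroup normalises it. -/
theorem normalises_of_commute {X : Finset B} {h : AG M} (hc : Commute h (iota M (dd M X))) :
    MulAut.conj h • AX M (X : Set B) = AX M (X : Set B) := by
  obtain ⟨a, n, ha⟩ := exists_form h
  have h1 : Commute (iota M a) (iota M (dd M X)) := by
    rw [← ha]
    exact hc.mul_left ((central_z _).symm.pow_left n)
  have h2 : dd M X * a = a * dd M X := by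
    apply iota_injective
    rw [map_mul, map_mul]
    exact h1.symm.eq
  have h3 := conj_of_dd _ a rfl X X h2
  rw [← ha, map_mul, mul_smul] at h3
  have h4 : MulAut.conj (iota M (dd M (Finset.univ : Finset B)) ^ n) = 1 := by
    ext g
    rw [MulAut.conj_apply, MulAut.one_apply]
    have := ((central_z g).pow_right n).symm
    rw [this.eq]; group
  rw [h4, one_smul] at h3
  exact h3

/-- An element normalising an irreducible parabolic subgroup commutes with its central element. -/
theorem commute_of_normalises {X : Finset B} (hX : Irr M (X : Set B)) {h : AG M}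
    (hn : MulAut.conj h • AX M (X : Set B) = AX M (X : Set B)) :
    Commute h (iota M (dd M X)) := by
  set z := iota M (dd M X) with hz
  have hzX : z ∈ AX M (X : Set B) := iota_mem_AX (inX_dd X)
  -- z is central in the parabolic subgroup
  have hzc : ∀ g ∈ AX M (X : Set B), Commute g z := by
    intro g hg
    induction hg using Subgroup.closure_induction with
    | mem x hx =>
      obtain ⟨s, hs, rfl⟩ := hx
      exact comm_z (inX_sg.2 hs)
    | one => exact Commute.one_left _
    | mul x y _ _ hx hy => exact hx.mul_left hy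
    | inv x _ hx => exact hx.inv_left
  set z' := h * z * h⁻¹ with hz'
  have hz'X : z' ∈ AX M (X : Set B) := by
    have : MulAut.conj h • z ∈ MulAut.conj h • AX M (X : Set B) :=
      Subgroup.smul_mem_pointwise_smul _ _ _ hzX
    rw [hn] at this
    exact this
  have hz'c : ∀ g ∈ AX M (X : Set B), Commute g z' := by
    intro g hg
    have h1 : h⁻¹ * g * h ∈ AX M (X : Set B) := by
      rw [← hn] at hg
      rw [Subgroup.mem_pointwise_smul_iff_inv_smul_mem, ← map_inv] at hg
      rw [MulAut.smul_def, MulAut.conj_apply, inv_inv] at hg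
      exact hg
    have h2 := (hzc _ h1).eq
    have h3 : g * z' = h * (h⁻¹ * g * h * z) * h⁻¹ := by rw [hz']; group
    have h4 : z' * g = h * (z * (h⁻¹ * g * h)) * h⁻¹ := by rw [hz']; group
    rw [Commute, SemiconjBy, h3, h4, h2]
  obtain ⟨u, n, hu, hun⟩ := form_mem hz'X
  rw [← hz] at hun
  have huc : ∀ s ∈ X, sg M s * u = u * sg M s := by
    intro s hs
    apply iota_injective
    rw [map_mul, map_mul, ← hun, iota_sg]
    have hg : ga M s ∈ AX M (X : Set B) := Subgroup.subset_closure ⟨s, by exact_mod_cast hs, rfl⟩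
    exact ((hz'c _ hg).mul_right ((hzc _ hg).pow_right n)).eq
  obtain ⟨j, hj⟩ := quasi_central hX _ u rfl hu (fun s hs => ⟨s, hs, huc s hs⟩)
  -- compare lengths
  have h1 : glen M (z' * z ^ n) = glen M (z ^ (n + 1)) := by
    rw [map_mul, hz', map_mul, map_mul, map_inv, pow_succ', map_mul]
    congr 1
    rw [mul_comm (glen M h), mul_assoc, mul_inv_cancel, mul_one]
  rw [hun, hj, glen_iota, hz, ← map_pow, glen_iota] at h1
  have h2 : (len (dl M X ^ j) : ℤ) = len (dd M X ^ (n + 1)) := Multiplicative.ofAdd.injective h1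
  rw [len_pow, len_pow, dd, len_mul] at h2
  obtain ⟨⟨s, hs⟩⟩ := hX.nonempty
  have hpos : 0 < len (dl M X) := by
    obtain ⟨c, hc⟩ := sg_dvd_dl (M := M) (X := X) (s := s) (by exact_mod_cast hs)
    rw [hc, len_mul, len_sg]; omega
  have h3 : j = 2 * (n + 1) := by
    have h4 : j * len (dl M X) = (n + 1) * (len (dl M X) + len (dl M X)) := by exact_mod_cast h2
    have h5 : j * len (dl M X) = (2 * (n + 1)) * len (dl M X) := by rw [h4]; ring
    exact Nat.eq_of_mul_eq_mul_right hpos h5
  have h4 : iota M u = z ^ (n + 1) := by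
    rw [hj, h3, pow_mul, hz, ← map_pow, dd, sq]
  rw [h4, pow_succ'] at hun
  have h5 : z' = z := mul_right_cancel hun
  rw [hz'] at h5
  have h6 : h * z = z * h := by
    have := congrArg (fun g => g * h) h5
    simpa using this
  exact h6

end Pool.Agent.MP685115
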