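import Mathlib

/-! Simply laced positive definite graphs: roots of norm two in the integral lattice. -/

set_option linter.unusedSectionVars false
set_option linter.unusedVariables false

namespace Pool.Agent.MP685115

variable {S : Type} [Fintype S] [DecidableEq S] (G : SimpleGraph S) [DecidableRel G.Adj]

/-- The pairing of the simple root `s` with the lattice vector `b`. -/
def pr (s : S) (b : S → ℤ) : ℤ := 2 * b s - ∑ t, if G.Adj s t then b t else 0

/-- The simple root. -/
def al (s : S) : S → ℤ := Pi.single s 1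

/-- The bilinear form. -/
def bil (b c : S → ℤ) : ℤ := ∑ s, b s * pr G s c

/-- The quadratic form. -/
def qf (b : S → ℤ) : ℤ := bil G b b

/-- Positive definiteness over the integers. -/
def PD : Prop := ∀ b : S → ℤ, b ≠ 0 → 0 < qf G b

/-- The reflection. -/
def rf (s : S) (b : S → ℤ) : S → ℤ := b - pr G s b • al s

lemma pr_add (s : S) (b c : S → ℤ) : pr G s (b + c) = pr G s b + pr G s c := by
  simp only [pr, Pi.add_apply]
  have : (∑ t, if G.Adj s t then b t + c t else 0)
      = (∑ t, if G.Adj s t then b t else 0) + ∑ t, if G.Adj s t then c t else 0 := by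
    rw [← Finset.sum_add_distrib]
    apply Finset.sum_congr rfl
    intro t _
    split_ifs <;> ring
  rw [this]; ring

lemma pr_smul (s : S) (k : ℤ) (b : S → ℤ) : pr G s (k • b) = k * pr G s b := by
  simp only [pr, Pi.smul_apply, smul_eq_mul, mul_sub, Finset.mul_sum]
  congr 1
  · ring
  · apply Finset.sum_congr rfl
    intro t _
    split_ifs <;> ring

lemma pr_neg (s : S) (b : S → ℤ) : pr G s (-b) = - pr G s b := by
  have := pr_smul G s (-1) b
  simpa using this

lemma pr_sub (s : S) (b c : S → ℤ) : pr G s (b - c) = pr G s b - pr G s c := by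
  rw [sub_eq_add_neg, pr_add, pr_neg]; ring

lemma pr_zero (s : S) : pr G s 0 = 0 := by simp [pr]

lemma pr_al_self (s : S) : pr G s (al s) = 2 := by
  simp only [pr, al, Pi.single_eq_same]
  have : (∑ t, if G.Adj s t then (Pi.single s (1:ℤ) : S → ℤ) t else 0) = 0 := by
    apply Finset.sum_eq_zero
    intro t _
    split_ifs with h
    · have : t ≠ s := fun e => G.irrefl (e ▸ h)
      simp [this]
    · rfl
  rw [this]; ring

lemma pr_al_adj {s t : S} (h : G.Adj s t) : pr G s (al t) = -1 := by
  have hne : s ≠ t := G.ne_of_adj h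
  simp only [pr, al]
  have : (∑ u, if G.Adj s u then (Pi.single t (1:ℤ) : S → ℤ) u else 0) = 1 := by
    rw [Finset.sum_eq_single t]
    · simp [h]
    · intro u _ hu
      simp [hu]
    · simp
  rw [this]
  simp [hne]

lemma pr_al_nadj {s t : S} (hne : s ≠ t) (h : ¬ G.Adj s t) : pr G s (al t) = 0 := by
  simp only [pr, al]
  have : (∑ u, if G.Adj s u then (Pi.single t (1:ℤ) : S → ℤ) u else 0) = 0 := by
    apply Finset.sum_eq_zero
    intro u _
    by_cases hu : u = t
    · subst hu; simp [h]
    · simp [hu]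
  rw [this]
  simp [hne]

lemma bil_add_left (b c d : S → ℤ) : bil G (b + c) d = bil G b d + bil G c d := by
  simp only [bil, Pi.add_apply, add_mul, Finset.sum_add_distrib]

lemma bil_smul_left (k : ℤ) (b d : S → ℤ) : bil G (k • b) d = k * bil G b d := by
  simp only [bil, Pi.smul_apply, smul_eq_mul, Finset.mul_sum]
  apply Finset.sum_congr rfl
  intro t _; ring

lemma bil_comm (b c : S → ℤ) : bil G b c = bil G c b := by
  simp only [bil, pr, mul_sub, Finset.sum_sub_distrib]
  congr 1
  · apply Finset.sum_congr rfl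
    intro t _; ring
  · simp only [Finset.mul_sum]
    rw [Finset.sum_comm]
    apply Finset.sum_congr rfl
    intro t _
    apply Finset.sum_congr rfl
    intro u _
    by_cases h : G.Adj t u
    · have h' : G.Adj u t := h.symm
      simp [h, h']; ring
    · have h' : ¬ G.Adj u t := fun e => h e.symm
      simp [h, h']

lemma bil_add_right (b c d : S → ℤ) : bil G b (c + d) = bil G b c + bil G b d := by
  rw [bil_comm, bil_add_left, bil_comm G c, bil_comm G d]

lemma bil_smul_right (k : ℤ) (b d : S → ℤ) : bil G b (k • d) = k * bil G b d := by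
  rw [bil_comm, bil_smul_left, bil_comm]

lemma bil_al_left (s : S) (b : S → ℤ) : bil G (al s) b = pr G s b := by
  simp only [bil, al]
  rw [Finset.sum_eq_single s]
  · simp
  · intro t _ ht; simp [ht]
  · simp

lemma qf_add_smul_al (b : S → ℤ) (k : ℤ) (s : S) :
    qf G (b + k • al s) = qf G b + 2 * k * pr G s b + 2 * k ^ 2 := by
  simp only [qf, bil_add_left, bil_add_right, bil_smul_left, bil_smul_right, bil_al_left,
    pr_al_self]
  rw [bil_comm G b (al s), bil_al_left]
  ring

lemma qf_al (s : S) : qf G (al s) = 2 := by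
  simp only [qf, bil_al_left, pr_al_self]

lemma qf_zero : qf G 0 = 0 := by simp [qf, bil]

lemma qf_even (b : S → ℤ) : Even (qf G b) := by
  have key : ∀ (F : Finset S), Even (qf G (∑ s ∈ F, b s • al s)) := by
    intro F
    induction F using Finset.induction_on with
    | empty => simp [qf_zero]
    | insert s F hs ih =>
      rw [Finset.sum_insert hs, add_comm, qf_add_smul_al]
      obtain ⟨m, hm⟩ := ih
      exact ⟨m + b s * pr G s (∑ x ∈ F, b x • al x) + b s ^ 2, by rw [hm]; ring⟩
  have : b = ∑ s, b s • al s := by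
    ext t
    simp only [Finset.sum_apply, Pi.smul_apply, smul_eq_mul, al]
    rw [Finset.sum_eq_single t]
    · simp
    · intro u _ hu; simp [Ne.symm hu]
    · simp
  rw [this]
  exact key _

variable {G}

lemma two_le_qf (hG : PD G) {b : S → ℤ} (hb : b ≠ 0) : 2 ≤ qf G b := by
  have h := hG b hb
  obtain ⟨m, hm⟩ := qf_even G b
  omega

/-- Dichotomy: a vector of norm two is nonnegative or nonpositive. -/
lemma dich (hG : PD G) {b : S → ℤ} (hb : qf G b = 2) : (∀ s, 0 ≤ b s) ∨ (∀ s, b s ≤ 0) := by
  by_contra hcon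
  push Not at hcon
  obtain ⟨⟨s, hs⟩, ⟨t, ht⟩⟩ := hcon
  set bp : S → ℤ := fun s => max (b s) 0 with hbp
  set bm : S → ℤ := fun s => max (-b s) 0 with hbm
  have hdec : b = bp + (-1 : ℤ) • bm := by
    ext u
    simp only [hbp, hbm, Pi.add_apply, Pi.smul_apply, smul_eq_mul]
    rcases le_total 0 (b u) with h | h
    · rw [max_eq_left h, max_eq_right (by linarith)]; ring
    · rw [max_eq_right h, max_eq_left (by linarith)]; ring
  have hp0 : bp ≠ 0 := by
    intro e
    have := congrFun e t
    simp only [hbp, Pi.zero_apply] at this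
    have := le_max_left (b t) 0
    omega
  have hm0 : bm ≠ 0 := by
    intro e
    have := congrFun e s
    simp only [hbm, Pi.zero_apply] at this
    have := le_max_left (-b s) 0
    omega
  have h1 := two_le_qf hG hp0
  have h2 := two_le_qf hG hm0
  have h3 : bil G bp bm ≤ 0 := by
    simp only [bil]
    apply Finset.sum_nonpos
    intro u _
    have e1 : bp u * bm u = 0 := by
      simp only [hbp, hbm]
      rcases le_total 0 (b u) with h | h
      · rw [max_eq_right (a := -b u) (by linarith)]; ring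
      · rw [max_eq_right (a := b u) h]; ring
    have e2 : 0 ≤ ∑ v, if G.Adj u v then bm v else 0 := by
      apply Finset.sum_nonneg
      intro v _
      split_ifs
      · exact le_max_right _ _
      · exact le_refl _
    have e3 : 0 ≤ bp u := le_max_right _ _
    simp only [pr, mul_sub]
    have : bp u * (2 * bm u) = 0 := by linarith
    rw [this]
    have := mul_nonneg e3 e2
    linarith
  have h4 : qf G b = qf G bp + qf G bm - 2 * bil G bp bm := by
    rw [hdec]
    simp only [qf, bil_add_left, bil_add_right, bil_smul_left, bil_smul_right]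
    rw [bil_comm G bm bp]; ring
  omega

/-- Positive roots. -/
def Pos (G : SimpleGraph S) [DecidableRel G.Adj] (b : S → ℤ) : Prop := qf G b = 2 ∧ ∀ s, 0 ≤ b s

lemma Pos.qf {b : S → ℤ} (h : Pos G b) : qf G b = 2 := h.1

lemma pos_al (s : S) : Pos G (al s) := by
  refine ⟨qf_al G s, fun t => ?_⟩
  simp only [al, Pi.single_apply]
  split_ifs <;> norm_num

lemma al_ne_zero (s : S) : (al s : S → ℤ) ≠ 0 := by
  intro e
  have := congrFun e s
  simp [al] at this

lemma Pos.ne_zero {b : S → ℤ} (h : Pos G b) : b ≠ 0 := by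
  intro e
  have := h.1
  rw [e, qf_zero] at this
  omega

lemma not_pos_neg {b : S → ℤ} (h : Pos G b) : ¬ Pos G (-b) := by
  intro h'
  apply h.ne_zero
  ext s
  have h1 := h.2 s
  have h2 := h'.2 s
  simp only [Pi.neg_apply, Pi.zero_apply] at *
  omega

lemma qf_neg (b : S → ℤ) : qf G (-b) = qf G b := by
  have : (-b) = (-1 : ℤ) • b := by simp
  rw [this, qf, bil_smul_left, bil_smul_right, qf]; ring

lemma pos_or_neg (hG : PD G) {b : S → ℤ} (hb : qf G b = 2) : Pos G b ∨ Pos G (-b) := by
  rcases dich hG hb with h | h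
  · exact Or.inl ⟨hb, h⟩
  · refine Or.inr ⟨by rw [qf_neg, hb], fun s => ?_⟩
    have := h s
    simp only [Pi.neg_apply]; omega

/-- Pairings with positive roots different from the simple root. -/
lemma pr_lt_two (hG : PD G) {b : S → ℤ} (hb : Pos G b) {s : S} (hne : b ≠ al s) : pr G s b < 2 := by
  have h := qf_add_smul_al G b (-1) s
  have h0 : b + (-1 : ℤ) • al s ≠ 0 := by
    intro e
    apply hne
    have : b = (b + (-1 : ℤ) • al s) + al s := by simp
    rw [this, e]; simp
  have := hG _ h0
  rw [hb.1] at h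
  omega

lemma neg_two_lt_pr (hG : PD G) {b : S → ℤ} (hb : Pos G b) (s : S) : -2 < pr G s b := by
  have h := qf_add_smul_al G b 1 s
  have h0 : b + (1 : ℤ) • al s ≠ 0 := by
    intro e
    have := congrFun e s
    have h2 := hb.2 s
    simp [al] at this
    omega
  have := hG _ h0
  rw [hb.1] at h
  omega

lemma eq_al_of_two (hG : PD G) {b : S → ℤ} (hb : Pos G b) {s : S} (h : 2 ≤ pr G s b) :
    b = al s := by
  by_contra hne
  have := pr_lt_two hG hb hne
  omega

lemma pr_cases (hG : PD G) {b : S → ℤ} (hb : Pos G b) {s : S} (hne : b ≠ al s) :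
    pr G s b = -1 ∨ pr G s b = 0 ∨ pr G s b = 1 := by
  have h1 := pr_lt_two hG hb hne
  have h2 := neg_two_lt_pr hG hb s
  omega

lemma qf_rf (s : S) (b : S → ℤ) : qf G (rf G s b) = qf G b := by
  have : rf G s b = b + (-(pr G s b)) • al s := by
    simp only [rf, neg_smul, sub_eq_add_neg]
  rw [this, qf_add_smul_al]; ring

lemma rf_apply_ne {s t : S} (h : t ≠ s) (b : S → ℤ) : rf G s b t = b t := by
  simp [rf, al, h]

lemma rf_pos (hG : PD G) {b : S → ℤ} (hb : Pos G b) {s : S} (hne : b ≠ al s) :
    Pos G (rf G s b) := by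
  have hq : qf G (rf G s b) = 2 := by rw [qf_rf, hb.1]
  rcases dich hG hq with h | h
  · exact ⟨hq, h⟩
  · exfalso
    have h0 : ∀ t, t ≠ s → b t = 0 := by
      intro t ht
      have h1 := h t
      rw [rf_apply_ne ht] at h1
      have := hb.2 t
      omega
    have hb' : b = (b s) • al s := by
      ext t
      by_cases ht : t = s
      · subst ht; simp [al]
      · rw [h0 t ht]; simp [al, ht]
    have h2 := hb.1
    rw [hb', qf, bil_smul_left, bil_smul_right, bil_al_left, pr_al_self] at h2
    have h3 := hb.2 s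
    have h4 : b s = 1 := by nlinarith
    apply hne
    rw [hb', h4]; simp

lemma rf_rf (s : S) (b : S → ℤ) : rf G s (rf G s b) = b := by
  simp only [rf, pr_sub, pr_smul, pr_al_self]
  ext t
  simp only [Pi.sub_apply, Pi.smul_apply, smul_eq_mul]
  ring

lemma pr_rf_self (s : S) (b : S → ℤ) : pr G s (rf G s b) = - pr G s b := by
  simp only [rf, pr_sub, pr_smul, pr_al_self]; ring

lemma pr_rf_adj {s t : S} (h : G.Adj s t) (b : S → ℤ) :
    pr G s (rf G t b) = pr G s b + pr G t b := by
  simp only [rf, pr_sub, pr_smul, pr_al_adj G h]; ring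

lemma pr_rf_nadj {s t : S} (hne : s ≠ t) (h : ¬ G.Adj s t) (b : S → ℤ) :
    pr G s (rf G t b) = pr G s b := by
  simp only [rf, pr_sub, pr_smul, pr_al_nadj G hne h]; ring

lemma rf_comm {s t : S} (hne : s ≠ t) (h : ¬ G.Adj s t) (b : S → ℤ) :
    rf G s (rf G t b) = rf G t (rf G s b) := by
  have h' : ¬ G.Adj t s := fun e => h e.symm
  conv_lhs => rw [rf, pr_rf_nadj hne h, rf]
  conv_rhs => rw [rf, pr_rf_nadj hne.symm h', rf]
  abel

lemma rf_braid {s t : S} (h : G.Adj s t) (b : S → ℤ) :
    rf G s (rf G t (rf G s b)) = rf G t (rf G s (rf G t b)) := by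
  have h' : G.Adj t s := h.symm
  have e1 : rf G s (rf G t (rf G s b)) = b - (pr G s b + pr G t b) • (al s + al t) := by
    rw [rf, pr_rf_adj h, pr_rf_self, pr_rf_adj h']
    rw [rf, pr_rf_adj h', rf]
    ext u
    simp only [Pi.sub_apply, Pi.smul_apply, Pi.add_apply, smul_eq_mul]
    ring
  have e2 : rf G t (rf G s (rf G t b)) = b - (pr G s b + pr G t b) • (al s + al t) := by
    rw [rf, pr_rf_adj h', pr_rf_self, pr_rf_adj h]
    rw [rf, pr_rf_adj h, rf]
    ext u
    simp only [Pi.sub_apply, Pi.smul_apply, Pi.add_apply, smul_eq_mul]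
    ring
  rw [e1, e2]

/-- Height. -/
def ht (b : S → ℤ) : ℤ := ∑ s, b s

lemma ht_rf (s : S) (b : S → ℤ) : ht (rf G s b) = ht b - pr G s b := by
  simp only [ht, rf, Pi.sub_apply, Finset.sum_sub_distrib, Pi.smul_apply, smul_eq_mul, al,
    ← Finset.mul_sum]
  congr 1
  simp

lemma ht_al (s : S) : ht (al s : S → ℤ) = 1 := by
  simp [ht, al]

lemma Pos.ht_pos {b : S → ℤ} (h : Pos G b) : 0 < ht b := by
  have h0 : ∃ s, b s ≠ 0 := by
    by_contra hc
    push Not at hc
    exact h.ne_zero (funext hc)
  obtain ⟨s, hs⟩ := h0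
  have h1 : 0 < b s := lt_of_le_of_ne (h.2 s) (Ne.symm hs)
  exact Finset.sum_pos' (fun i _ => h.2 i) ⟨s, Finset.mem_univ _, h1⟩

/-- A positive root has a descent. -/
lemma exists_desc {b : S → ℤ} (h : Pos G b) : ∃ s, 0 < pr G s b := by
  by_contra hc
  push Not at hc
  have : qf G b ≤ 0 := by
    simp only [MP685115.qf, bil]
    apply Finset.sum_nonpos
    intro s _
    exact mul_nonpos_of_nonneg_of_nonpos (h.2 s) (hc s)
  rw [h.1] at this
  omega

lemma exists_desc_one (hG : PD G) {b : S → ℤ} (h : Pos G b) (hn : ∀ u, b ≠ al u) :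
    ∃ s, pr G s b = 1 := by
  obtain ⟨s, hs⟩ := exists_desc h
  refine ⟨s, ?_⟩
  have := pr_lt_two hG h (hn s)
  omega

/-- If both neighbours `s`, `t` are descents of a root which is not simple. -/
lemma rf_eq_al_of_one_one (hG : PD G) {b : S → ℤ} (hb : Pos G b) {s t : S} (h : G.Adj s t)
    (hs : pr G s b = 1) (ht : pr G t b = 1) : rf G t b = al s := by
  have hne : b ≠ al t := by
    intro e
    rw [e, pr_al_self] at ht
    omega
  apply eq_al_of_two hG (rf_pos hG hb hne)
  rw [pr_rf_adj h]; omega

lemma not_neg_neg (hG : PD G) {b : S → ℤ} (hb : Pos G b) {s t : S} (h : G.Adj s t)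
    (hs : pr G s b = -1) (ht : pr G t b = -1) : False := by
  have hne : b ≠ al t := by
    intro e
    rw [e, pr_al_self] at ht
    omega
  have := neg_two_lt_pr hG (rf_pos hG hb hne) s
  rw [pr_rf_adj h] at this
  omega

lemma ne_al_of_one {b : S → ℤ} {t : S} (ht : pr G t b = 1) (u : S) : b ≠ al u := by
  intro e
  rw [e] at ht
  by_cases h1 : t = u
  · subst h1; rw [pr_al_self] at ht; omega
  · by_cases h2 : G.Adj t u
    · rw [pr_al_adj G h2] at ht; omega
    · rw [pr_al_nadj G h1 h2] at ht; omega

lemma al_inj {s t : S} (h : (al s : S → ℤ) = al t) : s = t := by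
  by_contra hne
  have := congrFun h s
  simp [al, hne] at this

lemma no_triangle (hG : PD G) {s t u : S} (h1 : G.Adj s t) (h2 : G.Adj t u) (h3 : G.Adj s u) :
    False := by
  have e1 : qf G (al s + (1 : ℤ) • al t) = 2 := by
    rw [qf_add_smul_al, qf_al, pr_al_adj G h1.symm]; norm_num
  have e2 : qf G ((al s + (1 : ℤ) • al t) + (1 : ℤ) • al u) = 0 := by
    rw [qf_add_smul_al, e1, pr_add, pr_smul, pr_al_adj G h3.symm, pr_al_adj G h2.symm]; norm_num
  have h0 : ((al s + (1 : ℤ) • al t) + (1 : ℤ) • al u : S → ℤ) ≠ 0 := by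
    intro e
    have hh := congrFun e s
    have a1 : (al s : S → ℤ) s = 1 := by simp [al]
    have a2 : (0:ℤ) ≤ (al t : S → ℤ) s := (pos_al (G := G) t).2 s
    have a3 : (0:ℤ) ≤ (al u : S → ℤ) s := (pos_al (G := G) u).2 s
    simp only [Pi.add_apply, Pi.smul_apply, Pi.zero_apply, smul_eq_mul] at hh
    omega
  have := hG _ h0
  omega

end Pool.Agent.MP685115
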