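import Pool.Agent.Lib.MP_685115_al.FoldMon

/-! Folding reflects left divisibility by letters; the Artin monoid of a finite Coxeter group. -/

set_option linter.unusedSectionVars false
set_option linter.unusedVariables false

namespace Pool.Agent.MP685115

open scoped PowerSeries

/-- The parameters used: power series, with `x = 1 + 2 X` and `y = 1 + X`. -/
noncomputable def pmQ : Param (PowerSeries ℚ) (Polynomial ℚ) where
  x := 1 + 2 * Polynomial.X
  y := 1 + Polynomial.X
  i := Polynomial.coeToPowerSeries.ringHom
  inj := Polynomial.coe_injective ℚ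
  ev := Polynomial.evalRingHom (-1 / 2)
  ev_x := by
    simp only [Polynomial.coe_evalRingHom, Polynomial.eval_add, Polynomial.eval_one,
      Polynomial.eval_mul, Polynomial.eval_ofNat, Polynomial.eval_X]
    norm_num
  ev_y := by
    simp only [Polynomial.coe_evalRingHom, Polynomial.eval_add, Polynomial.eval_one,
      Polynomial.eval_X]
    norm_num
  hx := by
    rw [PowerSeries.isUnit_iff_constantCoeff]
    simp [map_add, map_mul]
  hy := by
    rw [PowerSeries.isUnit_iff_constantCoeff]
    simp [map_add]

variable {B : Type} [Fintype B] [DecidableEq B] {M : CoxeterMatrix B} [Finite M.Group]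

/-- The folded monoid satisfies the lcm property. -/
theorem hPt : HasP (slM (FG M)) := hasP_sl pmQ

lemma ph_ne_one (s : B) : ph (M := M) s ≠ 1 := by
  intro h
  have h1 := len_ph (M := M) s
  rw [h, len_one] at h1
  have : 0 < Fintype.card (Idx M) := Fintype.card_pos
  omega

lemma phi_alt (s t : B) (k : ℕ) :
    phi M (alt (sg M s) (sg M t) k) = alt (ph s) (ph t) k := by
  rw [map_alt, phi_sg, phi_sg]

lemma not_dvd_alt {s t : B} (h : s ≠ t) {k : ℕ} (hk : k < M s t) (i : Idx M) :
    ¬ sg (slM (FG M)) (s, i) ∣ alt (ph t) (ph s) k := by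
  rintro ⟨v, hv⟩
  have h1 : Red (alt (ph (M := M) s) (ph t) (k + 1)) := Red_alt h hk
  obtain ⟨w, hw⟩ := ph_eq_mul (M := M) s i
  rw [alt_succ, hv, hw, mul_assoc] at h1
  exact not_Red_sq' h1

lemma inX_alt_ph (s t : B) (k : ℕ) :
    inX {x : B × Idx M | x.1 = s ∨ x.1 = t} (alt (ph (M := M) s) (ph t) k) := by
  induction k generalizing s t with
  | zero => exact inX_one
  | succ k ih =>
    rw [alt_succ, inX_mul]
    refine ⟨?_, ?_⟩
    · rw [ph, inX_pl]; intro i _; exact Or.inl rfl
    · exact inX_mono (fun x hx => Or.symm hx) (ih t s)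

/-- The key step: common multiples contain the whole alternating product. -/
theorem alt_dvd_of_IH (w : AM M)
    (IH : ∀ w' : AM M, len w' < len w → ∀ r j, sg (slM (FG M)) (r, j) ∣ phi M w' → sg M r ∣ w')
    {s t : B} (hst : s ≠ t) (ht : sg M t ∣ w) {i : Idx M}
    (hs : sg (slM (FG M)) (s, i) ∣ phi M w) :
    alt (sg M t) (sg M s) (M s t) ∣ w := by
  have hm := two_le_label (M := M) hst
  have key : ∀ k, k + 1 ≤ M s t → alt (sg M t) (sg M s) (k + 1) ∣ w := by
    intro k
    induction k with
    | zero =>
      intro _
      simpa [alt_succ] using ht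
    | succ k ih =>
      intro hk
      obtain ⟨wk, hwk⟩ := ih (by omega)
      -- the total element of the dihedral parabolic
      set D := alt (ph (M := M) t) (ph s) (M s t) with hD
      have hDred : Red D := by
        rw [hD, M.symmetric s t]
        exact Red_alt (Ne.symm hst) le_rfl
      have hD2 : D = alt (ph s) (ph t) (M s t) := (ph_rel hst).symm
      set P := alt (ph (M := M) t) (ph s) (k + 1) with hP
      set Q := (if Even (k + 1) then alt (ph (M := M) t) (ph s) (M s t - (k + 1))
        else alt (ph s) (ph t) (M s t - (k + 1))) with hQ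
      have hDPQ : D = P * Q := by
        rw [hD, hP, hQ, ← alt_add]
        congr 1; omega
      have hsD : sg (slM (FG M)) (s, i) ∣ D := by
        rw [hD2]
        obtain ⟨n, hn⟩ : ∃ n, M s t = n + 1 := ⟨M s t - 1, by omega⟩
        rw [hn, alt_succ]
        exact dvd_mul_of_dvd_left (sg_dvd_ph s i) _
      have hphiw : phi M w = P * phi M wk := by
        rw [hwk, map_mul, phi_alt]
      obtain ⟨L, hL, -⟩ := exists_lcm' hPt hsD (Dvd.intro _ hDPQ.symm)
      obtain ⟨d, hd⟩ := hL.2.1
      have hd1 : d ∣ Q := by
        have := hL.2.2 D hsD (Dvd.intro _ hDPQ.symm)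
        rw [hd, hDPQ] at this
        exact hPt.dvd_of_mul this
      have hd2 : d ∣ phi M wk := by
        have := hL.2.2 (phi M w) hs (Dvd.intro _ hphiw.symm)
        rw [hd, hphiw] at this
        exact hPt.dvd_of_mul this
      rcases eq_one_or d with rfl | ⟨⟨r, j⟩, d', rfl⟩
      · exfalso
        rw [mul_one] at hd
        have := hL.1
        rw [hd, hP] at this
        exact not_dvd_alt hst (by omega) i this
      · have hr1 : sg M r ∣ wk := by
          apply IH wk ?_ r j (dvd_trans (Dvd.intro _ rfl) hd2)
          rw [hwk, len_mul, alt_succ, len_mul, len_sg]; omega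
        obtain ⟨q, hq⟩ : sg (slM (FG M)) (r, j) ∣ Q := dvd_trans (Dvd.intro _ rfl) hd1
        have hrst : r = s ∨ r = t := by
          have h1 : inX {x : B × Idx M | x.1 = s ∨ x.1 = t} Q := by
            rw [hQ]
            split_ifs
            · exact inX_mono (fun x hx => Or.symm hx) (inX_alt_ph t s _)
            · exact inX_alt_ph s t _
          have h2 := inX_of_dvd (Dvd.intro _ hq.symm) h1
          have h3 : (r, j) ∈ {x : B × Idx M | x.1 = s ∨ x.1 = t} := inX_sg.1 h2
          exact h3
        have hlast : r ≠ (if Even k then t else s) := by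
          intro hr
          have h1 : P = alt (ph t) (ph s) k * ph (if Even k then t else s) := by
            rw [hP, alt_succ_right]
            split_ifs <;> rfl
          rw [← hr] at h1
          obtain ⟨p, hp⟩ := ph_eq_mul (M := M) r j
          rw [hDPQ, h1, hp, hq] at hDred
          have e1 : alt (ph t) (ph s) k * (p * sg (slM (FG M)) (r, j)) * (sg (slM (FG M)) (r, j) * q)
              = (alt (ph t) (ph s) k * p) *
                (sg (slM (FG M)) (r, j) * (sg (slM (FG M)) (r, j) * q)) := by
            simp only [mul_assoc]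
          rw [e1] at hDred
          exact not_Red_sq' hDred
        have hnext : r = (if Even (k + 1) then t else s) := by
          by_cases he : Even k
          · rw [if_pos he] at hlast
            have : ¬ Even (k + 1) := by rw [Nat.even_add_one]; simpa using he
            rw [if_neg this]
            exact hrst.resolve_right hlast
          · rw [if_neg he] at hlast
            have : Even (k + 1) := by rw [Nat.even_add_one]; exact he
            rw [if_pos this]
            exact hrst.resolve_left hlast
        rw [hwk, alt_succ_right]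
        apply mul_dvd_mul_left
        have : (if Even (k + 1) then sg M t else sg M s) = sg M (if Even (k + 1) then t else s) := by
          split_ifs <;> rfl
        rw [this, ← hnext]
        exact hr1
  obtain ⟨n, hn⟩ : ∃ n, M s t = n + 1 := ⟨M s t - 1, by omega⟩
  rw [hn]
  exact key n (by omega)

/-- Folding reflects divisibility by letters. -/
theorem phi_reflects : ∀ (n : ℕ) (w : AM M), len w = n → ∀ s i,
    sg (slM (FG M)) (s, i) ∣ phi M w → sg M s ∣ w := by
  intro n
  induction n using Nat.strong_induction_on with
  | _ n IH =>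
    intro w hw s i hs
    rcases eq_one_or w with rfl | ⟨t, w', rfl⟩
    · rw [map_one] at hs
      have h1 := congrArg len (dvd_one hs)
      rw [len_sg, len_one] at h1
      omega
    · by_cases hst : s = t
      · rw [hst]; exact Dvd.intro _ rfl
      · have h1 := alt_dvd_of_IH (sg M t * w')
          (fun w'' hw'' r j hr => IH (len w'') (by omega) w'' rfl r j hr) hst (Dvd.intro _ rfl) hs
        have h2 := sg_rel (M := M) (label_ne_zero M s t)
        rw [← h2] at h1
        have hm := two_le_label (M := M) hst
        obtain ⟨k, hk⟩ : ∃ k, M s t = k + 1 := ⟨M s t - 1, by omega⟩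
        rw [hk, alt_succ] at h1
        exact dvd_trans (Dvd.intro _ rfl) h1

theorem phi_dvd_iff {w : AM M} {s : B} (i : Idx M) :
    sg (slM (FG M)) (s, i) ∣ phi M w ↔ sg M s ∣ w := by
  constructor
  · exact phi_reflects _ w rfl s i
  · rintro ⟨v, rfl⟩
    rw [map_mul, phi_sg]
    exact dvd_mul_of_dvd_left (sg_dvd_ph s i) _

theorem phi_injective : ∀ (n : ℕ) (u v : AM M), len u = n → phi M u = phi M v → u = v := by
  intro n
  induction n with
  | zero =>
    intro u v hu h
    have hu1 : u = 1 := eq_one_of_len hu
    rcases eq_one_or v with rfl | ⟨s, v', rfl⟩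
    · exact hu1
    · exfalso
      rw [hu1, map_one, map_mul, phi_sg] at h
      exact ph_ne_one s (dvd_one (Dvd.intro _ h.symm))
  | succ n ih =>
    intro u v hu h
    rcases eq_one_or u with rfl | ⟨s, u', rfl⟩
    · simp at hu
    · obtain ⟨i⟩ := (inferInstance : Nonempty (Idx M))
      have h1 : sg (slM (FG M)) (s, i) ∣ phi M v := by
        rw [← h]; exact (phi_dvd_iff i).2 (Dvd.intro _ rfl)
      obtain ⟨v', rfl⟩ := (phi_dvd_iff i).1 h1
      congr 1
      apply ih u' v' (by rw [len_mul, len_sg] at hu; omega)
      rw [map_mul, map_mul] at h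
      exact hPt.cancelAll _ h

/-- The Artin monoid of a finite Coxeter group satisfies the lcm property. -/
theorem hPM : HasP M where
  cancel s u v h := by
    have h1 := congrArg (phi M) h
    rw [map_mul, map_mul] at h1
    exact phi_injective _ _ _ rfl (hPt.cancelAll _ h1)
  lcm s t u v hst h := by
    refine ⟨label_ne_zero M s t, ?_⟩
    obtain ⟨i⟩ := (inferInstance : Nonempty (Idx M))
    have h1 : sg (slM (FG M)) (s, i) ∣ phi M (sg M s * u) := (phi_dvd_iff i).2 (Dvd.intro _ rfl)
    have h2 := alt_dvd_of_IH (sg M s * u) (fun w' _ r j hr => (phi_dvd_iff j).1 hr) hst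
      (by rw [h]; exact Dvd.intro _ rfl) h1
    rwa [sg_rel (M := M) (label_ne_zero M s t)]

end Pool.Agent.MP685115
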