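import Pool.Agent.Lib.MP_685115_al.Detect

/-! Reduced elements of the simply laced Artin monoid. -/

set_option linter.unusedSectionVars false
set_option linter.unusedVariables false

namespace Pool.Agent.MP685115

variable {S : Type} [Fintype S] [DecidableEq S] (G : SimpleGraph S) [DecidableRel G.Adj]

/-- The reflection as an endomorphism. -/
def rfE (s : S) : Module.End ℤ (S → ℤ) where
  toFun := rf G s
  map_add' b c := by
    simp only [rf, pr_add]; module
  map_smul' k b := by
    simp only [rf, pr_smul, RingHom.id_apply]; module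

/-- The action of the Artin monoid through the Weyl group. -/
def act : AM (slM G) →* Module.End ℤ (S → ℤ) :=
  liftAM (fun s => rfE G s) (sl_relations _
    (fun s t hne h => LinearMap.ext (fun v => rf_comm hne h v))
    (fun s t h => LinearMap.ext (fun v => rf_braid h v)))

variable {G}

lemma act_sg (s : S) (b : S → ℤ) : act G (sg _ s) b = rf G s b := rfl

lemma act_sg_mul (s : S) (u : AM (slM G)) (b : S → ℤ) :
    act G (sg _ s * u) b = rf G s (act G u b) := by
  rw [map_mul]; rfl

lemma act_mul (u v : AM (slM G)) (b : S → ℤ) :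
    act G (u * v) b = act G u (act G v b) := by
  rw [map_mul]; rfl

lemma act_one (b : S → ℤ) : act G (1 : AM (slM G)) b = b := by
  rw [map_one]; rfl

lemma act_rev_sg_mul (s : S) (u : AM (slM G)) (b : S → ℤ) :
    act G (rev (sg _ s * u)) b = act G (rev u) (rf G s b) := by
  rw [rev_mul, act_mul, rev_sg, act_sg]

lemma qf_act (u : AM (slM G)) (b : S → ℤ) : qf G (act G u b) = qf G b := by
  induction u using AM_ind with
  | h1 => rw [act_one]
  | hs s u ih => rw [act_sg_mul, qf_rf, ih]

lemma act_act_rev (u : AM (slM G)) (b : S → ℤ) : act G u (act G (rev u) b) = b := by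
  induction u using AM_ind generalizing b with
  | h1 => rw [rev_one, act_one, act_one]
  | hs s u ih => rw [act_rev_sg_mul, act_sg_mul, ih, rf_rf]

lemma act_rev_act (u : AM (slM G)) (b : S → ℤ) : act G (rev u) (act G u b) = b := by
  have := act_act_rev (rev u) b
  rwa [rev_rev] at this

lemma act_apply_of_notMem {X : Set S} {u : AM (slM G)} (hu : inX X u) (b : S → ℤ) {t : S}
    (ht : t ∉ X) : act G u b t = b t := by
  induction u using AM_ind with
  | h1 => rw [act_one]
  | hs s u ih =>
    rw [inX_mul] at hu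
    have hne : t ≠ s := by
      rintro rfl
      exact ht (inX_sg.1 hu.1)
    rw [act_sg_mul, rf_apply_ne hne, ih hu.2]

section N
variable [hG : Fact (PD G)]

lemma pos_neg_iff {b : S → ℤ} (h : qf G b = 2) : Pos G (-b) ↔ ¬ Pos G b := by
  constructor
  · intro h1 h2; exact not_pos_neg h2 h1
  · intro h1; exact (pos_or_neg hG.out h).resolve_left h1

/-- Inversion sets. -/
def N (u : AM (slM G)) : Set (PR G) := {b | ¬ Pos G (act G (rev u) b.1)}

lemma mem_N {u : AM (slM G)} {b : PR G} : b ∈ N u ↔ ¬ Pos G (act G (rev u) b.1) := Iff.rfl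

lemma mem_N' {u : AM (slM G)} {b : PR G} : b ∈ N u ↔ Pos G (-act G (rev u) b.1) := by
  rw [mem_N, pos_neg_iff]
  rw [qf_act, b.2.1]

lemma N_one : N (1 : AM (slM G)) = ∅ := by
  ext b
  simp only [mem_N, rev_one, act_one, Set.mem_empty_iff_false, not_not, iff_false]
  exact b.2

lemma rf_al (s : S) : rf G s (al s) = -al s := by
  rw [rf, pr_al_self]; module

lemma alp_mem_N_sg_mul (s : S) (u : AM (slM G)) : alp G s ∈ N (sg _ s * u) ↔ alp G s ∉ N u := by
  rw [mem_N, mem_N, act_rev_sg_mul]
  simp only [alp, rf_al, map_neg]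
  rw [pos_neg_iff]
  rw [qf_act, qf_al]

lemma mem_N_sg_mul {s : S} {b : PR G} (h : b ≠ alp G s) (u : AM (slM G)) :
    b ∈ N (sg _ s * u) ↔ rfp G s b ∈ N u := by
  have h' : b.1 ≠ al s := fun e => h (Subtype.ext e)
  rw [mem_N, mem_N, act_rev_sg_mul, rfp_val h']

lemma rfp_alp (s : S) : rfp G s (alp G s) = alp G s := rfp_al rfl

lemma rfp_eq_alp {s : S} {b : PR G} (h : rfp G s b = alp G s) : b = alp G s := by
  rw [rfp_eq_iff, rfp_alp] at h; exact h

lemma N_sg_mul_of_notMem {s : S} {u : AM (slM G)} (h : alp G s ∉ N u) :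
    N (sg _ s * u) = insert (alp G s) (rfp G s '' N u) := by
  ext b
  simp only [Set.mem_insert_iff, Set.mem_image]
  by_cases hb : b = alp G s
  · subst hb
    simp [alp_mem_N_sg_mul, h]
  · rw [mem_N_sg_mul hb]
    constructor
    · intro h1
      exact Or.inr ⟨_, h1, rfp_rfp s b⟩
    · rintro (h1 | ⟨c, hc, rfl⟩)
      · exact absurd h1 hb
      · rwa [rfp_rfp]

lemma N_sg_mul_of_mem {s : S} {u : AM (slM G)} (h : alp G s ∈ N u) :
    N (sg _ s * u) = (rfp G s '' N u) \ {alp G s} := by
  ext b
  simp only [Set.mem_sdiff, Set.mem_image, Set.mem_singleton_iff]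
  by_cases hb : b = alp G s
  · subst hb
    simp [alp_mem_N_sg_mul, h]
  · rw [mem_N_sg_mul hb]
    constructor
    · intro h1
      exact ⟨⟨_, h1, rfp_rfp s b⟩, hb⟩
    · rintro ⟨⟨c, hc, rfl⟩, -⟩
      rwa [rfp_rfp]

lemma rfp_injective (s : S) : Function.Injective (rfp G s) :=
  Function.LeftInverse.injective (rfp_rfp s)

lemma N_finite (u : AM (slM G)) : (N u).Finite := by
  induction u using AM_ind with
  | h1 => rw [N_one]; exact Set.finite_empty
  | hs s u ih =>
    by_cases h : alp G s ∈ N u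
    · rw [N_sg_mul_of_mem h]
      exact (ih.image _).sdiff
    · rw [N_sg_mul_of_notMem h]
      exact (ih.image _).insert _

lemma ncard_of_notMem {s : S} {u : AM (slM G)} (h : alp G s ∉ N u) :
    (N (sg _ s * u)).ncard = (N u).ncard + 1 := by
  rw [N_sg_mul_of_notMem h, Set.ncard_insert_of_notMem _ ((N_finite u).image _),
    Set.ncard_image_of_injective _ (rfp_injective s)]
  rintro ⟨b, hb, h2⟩
  rw [rfp_eq_alp h2] at hb
  exact h hb

lemma ncard_of_mem {s : S} {u : AM (slM G)} (h : alp G s ∈ N u) :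
    (N (sg _ s * u)).ncard + 1 = (N u).ncard := by
  rw [N_sg_mul_of_mem h, Set.ncard_sdiff_singleton_add_one _ ((N_finite u).image _),
    Set.ncard_image_of_injective _ (rfp_injective s)]
  exact ⟨alp G s, h, rfp_alp s⟩

lemma ncard_le_len (u : AM (slM G)) : (N u).ncard ≤ len u := by
  induction u using AM_ind with
  | h1 => rw [N_one]; simp
  | hs s u ih =>
    rw [len_mul, len_sg]
    by_cases h : alp G s ∈ N u
    · have := ncard_of_mem h; omega
    · have := ncard_of_notMem h; omega

/-- Reduced elements. -/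
def Red (u : AM (slM G)) : Prop := (N u).ncard = len u

lemma Red_one : Red (1 : AM (slM G)) := by
  rw [Red, N_one]; simp

lemma Red_sg_mul {s : S} {u : AM (slM G)} : Red (sg _ s * u) ↔ Red u ∧ alp G s ∉ N u := by
  rw [Red, Red, len_mul, len_sg]
  have h0 := ncard_le_len u
  by_cases h : alp G s ∈ N u
  · have := ncard_of_mem h
    constructor
    · intro h1; omega
    · intro h1; exact absurd h h1.2
  · have := ncard_of_notMem h
    constructor
    · intro h1; exact ⟨by omega, h⟩
    · intro h1; have := h1.1; omega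

lemma Red.right {u v : AM (slM G)} (h : Red (u * v)) : Red v := by
  induction u using AM_ind with
  | h1 => rwa [one_mul] at h
  | hs s u ih =>
    rw [mul_assoc, Red_sg_mul] at h
    exact ih h.1

lemma ncard_rev_le (u : AM (slM G)) : (N u).ncard ≤ (N (rev u)).ncard := by
  classical
  let f : PR G → PR G := fun b =>
    if h : Pos G (-act G (rev u) b.1) then ⟨-act G (rev u) b.1, h⟩ else b
  have hf : ∀ b ∈ N u, (f b).1 = -act G (rev u) b.1 := by
    intro b hb
    simp only [f]
    rw [dif_pos (mem_N'.1 hb)]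
  refine Set.ncard_le_ncard_of_injOn f ?_ ?_ (N_finite _)
  · intro b hb
    rw [mem_N', hf b hb, rev_rev, map_neg, neg_neg, act_act_rev]
    exact b.2
  · intro b hb c hc hbc
    have h1 := hf b hb
    rw [hbc, hf c hc] at h1
    have h2 : act G (rev u) c.1 = act G (rev u) b.1 := neg_injective h1
    have h3 := congrArg (act G u) h2
    rw [act_act_rev, act_act_rev] at h3
    exact Subtype.ext h3.symm

lemma ncard_rev (u : AM (slM G)) : (N (rev u)).ncard = (N u).ncard := by
  apply le_antisymm
  · have := ncard_rev_le (rev u)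
    rwa [rev_rev] at this
  · exact ncard_rev_le u

lemma Red_rev {u : AM (slM G)} : Red (rev u) ↔ Red u := by
  rw [Red, Red, ncard_rev, len_rev]

lemma Red.left {u v : AM (slM G)} (h : Red (u * v)) : Red u := by
  rw [← Red_rev, rev_mul] at h
  exact Red_rev.1 h.right

lemma not_Red_sq {s : S} {v : AM (slM G)} : ¬ Red (sg _ s * (sg _ s * v)) := by
  intro h
  rw [Red_sg_mul, Red_sg_mul, alp_mem_N_sg_mul, not_not] at h
  exact h.1.2 h.2

lemma not_Red_sq' {s : S} {u v : AM (slM G)} : ¬ Red (u * (sg _ s * (sg _ s * v))) :=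
  fun h => not_Red_sq h.right

theorem Z_iff_N {u : AM (slM G)} (h : Red u) (b : PR G) : Z u b ↔ b ∈ N u := by
  induction u using AM_ind generalizing b with
  | h1 =>
    rw [N_one]
    simp [not_Z_one]
  | hs s u ih =>
    rw [Red_sg_mul] at h
    have ih' := ih h.1
    rcases PR.cases s b with h1 | h1 | h1 | h1
    · have : b = alp G s := Subtype.ext h1
      subst this
      rw [alp_mem_N_sg_mul]
      exact ⟨fun _ => h.2, fun _ => Z_al s u⟩
    · have hb : b ≠ alp G s := fun e => ne0 h1 (congrArg Subtype.val e)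
      rw [Z_zero h1, mem_N_sg_mul hb, ih']
      have : rfp G s b = b := by
        apply Subtype.ext
        rw [rfp_val (ne0 h1), rf, h1]; simp
      rw [this]
    · have hb : b ≠ alp G s := fun e => ne1 h1 (congrArg Subtype.val e)
      rw [Z_one h1, mem_N_sg_mul hb, ih']
    · have hb : b ≠ alp G s := fun e => nem h1 (congrArg Subtype.val e)
      rw [Z_neg h1, mem_N_sg_mul hb, ih', ih']
      refine ⟨fun h2 => h2.2, fun h2 => ⟨?_, h2⟩⟩
      have h3 : (rfp G s b).1 = b.1 + al s := by
        rw [rfp_val (nem h1), rf, h1]; module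
      have h4 := h.2
      rw [mem_N, not_not] at h4
      rw [mem_N'] at h2 ⊢
      rw [h3, map_add] at h2
      refine ⟨by rw [MP685115.qf_neg, qf_act, b.2.1], fun t => ?_⟩
      have h5 := h2.2 t
      have h6 := h4.2 t
      simp only [alp] at h6
      simp only [Pi.neg_apply, Pi.add_apply] at h5 ⊢
      omega

lemma Red.dvd_iff {u : AM (slM G)} (h : Red u) (s : S) : sg _ s ∣ u ↔ alp G s ∈ N u := by
  rw [← Z_iff_dvd, Z_iff_N h]

lemma Red_sg_mul' {s : S} {u : AM (slM G)} : Red (sg _ s * u) ↔ Red u ∧ ¬ sg _ s ∣ u := by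
  rw [Red_sg_mul]
  constructor
  · rintro ⟨h1, h2⟩
    exact ⟨h1, fun h3 => h2 ((h1.dvd_iff s).1 h3)⟩
  · rintro ⟨h1, h2⟩
    exact ⟨h1, fun h3 => h2 ((h1.dvd_iff s).2 h3)⟩

theorem Red.ext {u v : AM (slM G)} (hu : Red u) (hv : Red v) (h : N u = N v) : u = v := by
  induction u using AM_ind generalizing v with
  | h1 =>
    have h1 : (N v).ncard = 0 := by rw [← h, N_one]; simp
    rw [hv] at h1
    exact (eq_one_of_len h1).symm
  | hs s u ih =>
    have h1 : alp G s ∈ N (sg _ s * u) := (hu.dvd_iff s).1 (Dvd.intro _ rfl)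
    rw [h] at h1
    obtain ⟨v', rfl⟩ := (hv.dvd_iff s).2 h1
    rw [Red_sg_mul] at hu hv
    congr 1
    apply ih hu.1 hv.1
    ext b
    by_cases hb : b = alp G s
    · subst hb
      exact ⟨fun h2 => absurd h2 hu.2, fun h2 => absurd h2 hv.2⟩
    · have hb' : rfp G s b ≠ alp G s := fun e => hb (rfp_eq_alp e)
      have h2 := mem_N_sg_mul hb' u
      have h3 := mem_N_sg_mul hb' v'
      rw [rfp_rfp] at h2 h3
      rw [← h2, ← h3, h]

/-- Positive vectors outside the span stay positive. -/
lemma not_mem_N_of_support {X : Set S} {u : AM (slM G)} (hu : inX X u) {b : PR G} {t : S}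
    (ht : t ∉ X) (hb : b.1 t ≠ 0) : b ∉ N u := by
  intro h
  rw [mem_N'] at h
  have h1 := h.2 t
  rw [Pi.neg_apply, act_apply_of_notMem (inX_rev.2 hu) _ ht] at h1
  have h2 := b.2.2 t
  omega

/-- An element which inverts the simple roots of `X` inverts all roots supported on `X`. -/
lemma mem_N_of_support {X : Set S} {u : AM (slM G)} (h : ∀ s ∈ X, alp G s ∈ N u) {b : PR G}
    (hb : ∀ t, t ∉ X → b.1 t = 0) : b ∈ N u := by
  rw [mem_N']
  refine ⟨by rw [MP685115.qf_neg, qf_act, b.2.1], fun t => ?_⟩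
  have h1 : b.1 = ∑ s, b.1 s • al s := by
    ext t
    simp only [Finset.sum_apply, Pi.smul_apply, smul_eq_mul, al]
    rw [Finset.sum_eq_single t]
    · simp
    · intro u _ hu; simp [Ne.symm hu]
    · simp
  have h2 : -act G (rev u) b.1 = ∑ s, b.1 s • (-act G (rev u) (al s)) := by
    conv_lhs => rw [h1]
    rw [map_sum, ← Finset.sum_neg_distrib]
    apply Finset.sum_congr rfl
    intro s _
    rw [map_zsmul, smul_neg]
  rw [h2, Finset.sum_apply]
  apply Finset.sum_nonneg
  intro s _
  rw [Pi.smul_apply, smul_eq_mul]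
  by_cases hs : s ∈ X
  · have h3 := mem_N'.1 (h s hs)
    exact mul_nonneg (b.2.2 s) (h3.2 t)
  · rw [hb s hs, zero_mul]

end N

end Pool.Agent.MP685115
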