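import Pool.Agent.Lib.MP_685115_al.TPoly

/-! The Lawrence-Krammer operators in the positive definite simply laced case. -/

set_option linter.unusedSectionVars false
set_option linter.unusedVariables false

namespace Pool.Agent.MP685115

open Polynomial

variable {S : Type} [Fintype S] [DecidableEq S] (G : SimpleGraph S) [DecidableRel G.Adj]

/-- Positive roots as a type. -/
def PR : Type := {b : S → ℤ // Pos G b}

instance : DecidableEq (PR G) := inferInstanceAs (DecidableEq {b : S → ℤ // Pos G b})

/-- Simple roots. -/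
def alp (s : S) : PR G := ⟨al s, pos_al s⟩

variable [hG : Fact (PD G)]

/-- The action on positive roots up to sign. -/
def rfp (s : S) (b : PR G) : PR G :=
  if h : b.1 = al s then b else ⟨rf G s b.1, rf_pos hG.out b.2 h⟩

variable {G}

lemma rfp_val {s : S} {b : PR G} (h : b.1 ≠ al s) : (rfp G s b).1 = rf G s b.1 := by
  rw [rfp, dif_neg h]

lemma rfp_al {s : S} {b : PR G} (h : b.1 = al s) : rfp G s b = b := by
  rw [rfp, dif_pos h]

lemma ne_al_of_pr {s : S} {b : S → ℤ} (h : pr G s b ≠ 2) : b ≠ al s := by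
  intro e; rw [e, pr_al_self] at h; exact h rfl

lemma ne0 {s : S} {b : S → ℤ} (h : pr G s b = 0) : b ≠ al s := ne_al_of_pr (G := G) (by omega)

lemma ne1 {s : S} {b : S → ℤ} (h : pr G s b = 1) : b ≠ al s := ne_al_of_pr (G := G) (by omega)

lemma nem {s : S} {b : S → ℤ} (h : pr G s b = -1) : b ≠ al s := ne_al_of_pr (G := G) (by omega)

lemma pr_rfp_self {s : S} {b : PR G} (h : b.1 ≠ al s) :
    pr G s (rfp G s b).1 = - pr G s b.1 := by
  rw [rfp_val h, pr_rf_self]

lemma pr_rfp_adj {s t : S} {b : PR G} (h : b.1 ≠ al t) (hadj : G.Adj s t) :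
    pr G s (rfp G t b).1 = pr G s b.1 + pr G t b.1 := by
  rw [rfp_val h, pr_rf_adj hadj]

lemma pr_rfp_nadj {s t : S} {b : PR G} (hne : s ≠ t) (hadj : ¬ G.Adj s t) :
    pr G s (rfp G t b).1 = pr G s b.1 := by
  by_cases h : b.1 = al t
  · rw [rfp_al h]
  · rw [rfp_val h, pr_rf_nadj hne hadj]

lemma rfp_rfp (s : S) (b : PR G) : rfp G s (rfp G s b) = b := by
  by_cases h : b.1 = al s
  · rw [rfp_al h, rfp_al h]
  · have h1 : (rfp G s b).1 ≠ al s := by
      intro e
      have := pr_rfp_self h
      rw [e, pr_al_self] at this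
      have h2 := neg_two_lt_pr hG.out b.2 s
      omega
    apply Subtype.ext
    rw [rfp_val h1, rfp_val h, rf_rf]

lemma rfp_comm {s t : S} (hne : s ≠ t) (hadj : ¬ G.Adj s t) (b : PR G) :
    rfp G s (rfp G t b) = rfp G t (rfp G s b) := by
  have hadj' : ¬ G.Adj t s := fun e => hadj e.symm
  have key : ∀ {s t : S} (hne : s ≠ t) (hadj : ¬ G.Adj s t) (b : PR G), b.1 = al t →
      rfp G s (rfp G t b) = rfp G t (rfp G s b) := by
    intro s t hne hadj b h
    have h1 : b.1 ≠ al s := by
      rw [h]; intro e; exact hne (al_inj e).symm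
    have h2 : (rfp G s b).1 = al t := by
      rw [rfp_val h1, rf, h, pr_al_nadj G hne hadj]; simp
    rw [rfp_al h, rfp_al h2]
  by_cases h : b.1 = al t
  · exact key hne hadj b h
  · by_cases h' : b.1 = al s
    · exact (key hne.symm hadj' b h').symm
    · have h1 : (rfp G t b).1 ≠ al s := by
        intro e
        have := pr_rfp_nadj (b := b) hne hadj
        rw [e, pr_al_self] at this
        exact h' (eq_al_of_two hG.out b.2 (by omega))
      have h2 : (rfp G s b).1 ≠ al t := by
        intro e
        have := pr_rfp_nadj (b := b) hne.symm hadj'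
        rw [e, pr_al_self] at this
        exact h (eq_al_of_two hG.out b.2 (by omega))
      apply Subtype.ext
      rw [rfp_val h1, rfp_val h, rfp_val h2, rfp_val h', rf_comm hne hadj]

section ring
variable {R : Type*} [CommRing R] (x y : R)

/-- Basis vector. -/
noncomputable def e (b : PR G) : PR G →₀ R := Finsupp.single b 1

/-- Values of psi on the basis. -/
noncomputable def psiv (s : S) (b : PR G) : PR G →₀ R :=
  if b.1 = al s then 0 else
    if pr G s b.1 = 0 then e b else
      if pr G s b.1 = 1 then y • e (rfp G s b) else (1 - y) • e b + e (rfp G s b)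

/-- The operator psi. -/
noncomputable def psi (s : S) : (PR G →₀ R) →ₗ[R] (PR G →₀ R) :=
  Finsupp.linearCombination R (psiv y s)

/-- The functional. -/
noncomputable def fn (s : S) : (PR G →₀ R) →ₗ[R] R :=
  Finsupp.linearCombination R (fun b => aeval y (T G s b.1))

/-- The Krammer operator. -/
noncomputable def rho (s : S) : (PR G →₀ R) →ₗ[R] (PR G →₀ R) :=
  psi y s + (x • fn y s).smulRight (e (alp G s))

lemma rho_apply (s : S) (v : PR G →₀ R) :
    rho x y s v = psi y s v + (x * fn y s v) • e (alp G s) := by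
  simp [rho]

lemma psi_e (s : S) (b : PR G) : psi y s (e b) = psiv y s b := by
  simp [psi, e]

lemma fn_e (s : S) (b : PR G) : fn y s (e b) = aeval y (T G s b.1) := by
  simp [fn, e]

lemma psi_al {s : S} {b : PR G} (h : b.1 = al s) : psi y s (e b) = 0 := by
  rw [psi_e, psiv, if_pos h]

lemma psi_zero {s : S} {b : PR G} (h : pr G s b.1 = 0) : psi y s (e b) = e b := by
  rw [psi_e, psiv, if_neg (ne_al_of_pr (G := G) (by omega)), if_pos h]

lemma psi_one {s : S} {b : PR G} (h : pr G s b.1 = 1) : psi y s (e b) = y • e (rfp G s b) := by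
  rw [psi_e, psiv, if_neg (ne_al_of_pr (G := G) (by omega)), if_neg (by omega), if_pos h]

lemma psi_neg {s : S} {b : PR G} (h : pr G s b.1 = -1) :
    psi y s (e b) = (1 - y) • e b + e (rfp G s b) := by
  rw [psi_e, psiv, if_neg (ne_al_of_pr (G := G) (by omega)), if_neg (by omega), if_neg (by omega)]

lemma PR.cases (s : S) (b : PR G) :
    b.1 = al s ∨ pr G s b.1 = 0 ∨ pr G s b.1 = 1 ∨ pr G s b.1 = -1 := by
  by_cases h : b.1 = al s
  · exact Or.inl h
  · rcases pr_cases hG.out b.2 h with h1 | h1 | h1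
    · exact Or.inr (Or.inr (Or.inr h1))
    · exact Or.inr (Or.inl h1)
    · exact Or.inr (Or.inr (Or.inl h1))

lemma ext_e {M : Type*} [AddCommGroup M] [Module R M] {f g : (PR G →₀ R) →ₗ[R] M}
    (h : ∀ b, f (e b) = g (e b)) : f = g := by
  apply Finsupp.lhom_ext'
  intro b
  ext
  simpa [e] using h b

/-! ### Commuting case -/

lemma psi_comm_e {s t : S} (hne : s ≠ t) (hadj : ¬ G.Adj s t) (b : PR G) :
    psi y s (psi y t (e b)) = psi y t (psi y s (e b)) := by
  have hadj' : ¬ G.Adj t s := fun e => hadj e.symm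
  have p1 := pr_rfp_nadj (b := b) hne hadj
  have p2 := pr_rfp_nadj (b := b) hne.symm hadj'
  have hc := rfp_comm hne hadj b
  rcases PR.cases t b with h | h | h | h
  · have h1 : pr G s b.1 = 0 := by rw [h, pr_al_nadj G hne hadj]
    rw [psi_al y h, psi_zero y h1, psi_al y h, map_zero]
  · rw [psi_zero y h]
    rcases PR.cases s b with h1 | h1 | h1 | h1
    · rw [psi_al y h1, map_zero]
    · rw [psi_zero y h1, psi_zero y h]
    · rw [psi_one y h1, map_smul, psi_zero y (b := rfp G s b) (by omega)]
    · rw [psi_neg y h1, map_add, map_smul, psi_zero y (b := rfp G s b) (by omega), psi_zero y h]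
  · rw [psi_one y h, map_smul]
    rcases PR.cases s b with h1 | h1 | h1 | h1
    · exfalso
      have : pr G t b.1 = 0 := by rw [h1, pr_al_nadj G hne.symm hadj']
      omega
    · rw [psi_zero y h1, psi_one y h, psi_zero y (b := rfp G t b) (by omega)]
    · rw [psi_one y h1, map_smul, psi_one y (b := rfp G t b) (by omega),
        psi_one y (b := rfp G s b) (by omega), hc]
    · rw [psi_neg y h1, map_add, map_smul, psi_neg y (b := rfp G t b) (by omega),
        psi_one y (b := rfp G s b) (by omega), psi_one y h, hc]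
      module
  · rw [psi_neg y h, map_add, map_smul]
    rcases PR.cases s b with h1 | h1 | h1 | h1
    · exfalso
      have : pr G t b.1 = 0 := by rw [h1, pr_al_nadj G hne.symm hadj']
      omega
    · rw [psi_zero y h1, psi_neg y h, psi_zero y (b := rfp G t b) (by omega)]
    · rw [psi_one y h1, map_smul, psi_one y (b := rfp G t b) (by omega),
        psi_neg y (b := rfp G s b) (by omega), hc]
      module
    · rw [psi_neg y h1, map_add, map_smul, psi_neg y (b := rfp G t b) (by omega),
        psi_neg y (b := rfp G s b) (by omega), psi_neg y h, hc]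
      module

lemma fn_psi_nadj_e {s t : S} (hne : s ≠ t) (hadj : ¬ G.Adj s t) (b : PR G) :
    fn y s (psi y t (e b)) = fn y s (e b) := by
  rcases PR.cases t b with h | h | h | h
  · rw [psi_al y h, map_zero, fn_e, h, T_al_ne G hne.symm, map_zero]
  · rw [psi_zero y h]
  · rw [psi_one y h, map_smul, fn_e, fn_e, (rel_of_pos hG.out b.1 b.2).r1 s t hne hadj h,
      rfp_val (ne_al_of_pr (G := G) (by omega))]
    simp
  · have h1 : b.1 ≠ al t := ne_al_of_pr (G := G) (by omega)
    have h2 := (rel_of_pos hG.out _ (rfp G t b).2).r1 s t hne hadj (by rw [pr_rfp_self h1]; omega)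
    rw [rfp_val h1, rf_rf] at h2
    rw [psi_neg y h, map_add, map_smul, fn_e, fn_e, rfp_val h1, h2]
    simp only [map_mul, aeval_X, smul_eq_mul]
    ring

/-! ### Braid case -/

lemma psi_braid_e {s t : S} (hadj : G.Adj s t) (b : PR G) :
    psi y s (psi y t (psi y s (e b))) = psi y t (psi y s (psi y t (e b))) := by
  have key : ∀ {s t : S} (hadj : G.Adj s t) (b : PR G),
      (b.1 = al s ∨ (pr G s b.1 = 0 ∧ pr G t b.1 = 0) ∨ (pr G s b.1 = 0 ∧ pr G t b.1 = -1) ∨
        (pr G s b.1 = -1 ∧ pr G t b.1 = 1) ∨ (pr G s b.1 = 1 ∧ pr G t b.1 = 0) ∨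
        (pr G s b.1 = 1 ∧ pr G t b.1 = 1)) →
      psi y s (psi y t (psi y s (e b))) = psi y t (psi y s (psi y t (e b))) := by
    intro s t hadj b hb
    rcases hb with h | ⟨h1, h2⟩ | ⟨h1, h2⟩ | ⟨h1, h2⟩ | ⟨h1, h2⟩ | ⟨h1, h2⟩
    · -- simple root s
      have h2 : pr G t b.1 = -1 := by rw [h, pr_al_adj G hadj.symm]
      have h3 : pr G s b.1 = 2 := by rw [h, pr_al_self]
      have hb : b.1 ≠ al t := ne_al_of_pr (G := G) (by omega)
      have h4 : pr G s (rfp G t b).1 = 1 := by rw [pr_rfp_adj hb hadj]; omega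
      have h5 : pr G t (rfp G t b).1 = 1 := by rw [pr_rfp_self hb]; omega
      have h6 : (rfp G s (rfp G t b)).1 = al t := by
        rw [rfp_val (ne_al_of_pr (G := G) (by omega))]
        exact rf_eq_al_of_one_one hG.out (rfp G t b).2 hadj.symm h5 h4
      rw [psi_al y h, map_zero, map_zero, psi_neg y h2, map_add, map_smul, psi_al y h,
        psi_one y h4, smul_zero, zero_add, map_smul, psi_al y h6, smul_zero]
    · rw [psi_zero y h1, psi_zero y h2, psi_zero y h1, psi_zero y h2]
    · have hb : b.1 ≠ al t := ne_al_of_pr (G := G) (by omega)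
      have h3 : pr G s (rfp G t b).1 = -1 := by rw [pr_rfp_adj hb hadj]; omega
      have h4 : pr G t (rfp G t b).1 = 1 := by rw [pr_rfp_self hb]; omega
      have hb2 : (rfp G t b).1 ≠ al s := ne_al_of_pr (G := G) (by omega)
      have h5 : pr G t (rfp G s (rfp G t b)).1 = 0 := by
        rw [pr_rfp_adj hb2 hadj.symm]; omega
      rw [psi_zero y h1, psi_neg y h2, map_add, map_smul, psi_zero y h1, psi_neg y h3, map_add,
        map_add, map_smul, map_smul, psi_neg y h2, psi_one y h4, psi_zero y h5, rfp_rfp]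
      module
    · have hb : b.1 ≠ al t := ne_al_of_pr (G := G) (by omega)
      have hb' : b.1 ≠ al s := ne_al_of_pr (G := G) (by omega)
      have h3 : pr G s (rfp G t b).1 = 0 := by rw [pr_rfp_adj hb hadj]; omega
      have h4 : pr G t (rfp G t b).1 = -1 := by rw [pr_rfp_self hb]; omega
      have h5 : pr G s (rfp G s b).1 = 1 := by rw [pr_rfp_self hb']; omega
      have h6 : pr G t (rfp G s b).1 = 0 := by rw [pr_rfp_adj hb' hadj.symm]; omega
      rw [psi_neg y h1, psi_one y h2]
      simp only [map_add, map_smul]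
      rw [psi_one y h2, psi_zero y h6, psi_zero y h3]
      simp only [map_add, map_smul]
      rw [psi_zero y h3, psi_one y h5, psi_neg y h4, rfp_rfp, rfp_rfp]
      module
    · have hb' : b.1 ≠ al s := ne_al_of_pr (G := G) (by omega)
      have h3 : pr G s (rfp G s b).1 = -1 := by rw [pr_rfp_self hb']; omega
      have h4 : pr G t (rfp G s b).1 = 1 := by rw [pr_rfp_adj hb' hadj.symm]; omega
      have hb2 : (rfp G s b).1 ≠ al t := ne_al_of_pr (G := G) (by omega)
      have h5 : pr G s (rfp G t (rfp G s b)).1 = 0 := by rw [pr_rfp_adj hb2 hadj]; omega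
      rw [psi_one y h1, psi_zero y h2, psi_one y h1]
      simp only [map_smul]
      rw [psi_one y h4]
      simp only [map_smul]
      rw [psi_zero y h5]
    · have hb : b.1 ≠ al t := ne_al_of_pr (G := G) (by omega)
      have hb' : b.1 ≠ al s := ne_al_of_pr (G := G) (by omega)
      have h6 : (rfp G t b).1 = al s := by
        rw [rfp_val hb]
        exact rf_eq_al_of_one_one hG.out b.2 hadj h1 h2
      have h7 : (rfp G s b).1 = al t := by
        rw [rfp_val hb']
        exact rf_eq_al_of_one_one hG.out b.2 hadj.symm h2 h1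
      rw [psi_one y h1, psi_one y h2]
      simp only [map_smul]
      rw [psi_al y h6, psi_al y h7]
      simp
  by_cases e1 : b.1 = al s
  · exact key hadj b (Or.inl e1)
  by_cases e2 : b.1 = al t
  · exact (key hadj.symm b (Or.inl e2)).symm
  have c1 := pr_cases hG.out b.2 e1
  have c2 := pr_cases hG.out b.2 e2
  have c3 : ¬ (pr G s b.1 = -1 ∧ pr G t b.1 = -1) :=
    fun h => not_neg_neg hG.out b.2 hadj h.1 h.2
  by_cases q : ((pr G s b.1 = 0 ∧ pr G t b.1 = 0) ∨ (pr G s b.1 = 0 ∧ pr G t b.1 = -1) ∨
        (pr G s b.1 = -1 ∧ pr G t b.1 = 1) ∨ (pr G s b.1 = 1 ∧ pr G t b.1 = 0) ∨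
        (pr G s b.1 = 1 ∧ pr G t b.1 = 1))
  · exact key hadj b (Or.inr q)
  · refine (key hadj.symm b (Or.inr ?_)).symm
    omega

lemma fn_psi_adj_e {s t : S} (hadj : G.Adj s t) (b : PR G) :
    fn y t (psi y s (e b)) = fn y s (psi y t (e b)) := by
  have key : ∀ {s t : S} (hadj : G.Adj s t) (b : PR G),
      (b.1 = al s ∨ (pr G s b.1 = 0 ∧ pr G t b.1 = 0) ∨ (pr G s b.1 = 0 ∧ pr G t b.1 = -1) ∨
        (pr G s b.1 = -1 ∧ pr G t b.1 = 1) ∨ (pr G s b.1 = 1 ∧ pr G t b.1 = 0) ∨
        (pr G s b.1 = 1 ∧ pr G t b.1 = 1)) →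
      fn y t (psi y s (e b)) = fn y s (psi y t (e b)) := by
    intro s t hadj b hb
    rcases hb with h | ⟨h1, h2⟩ | ⟨h1, h2⟩ | ⟨h1, h2⟩ | ⟨h1, h2⟩ | ⟨h1, h2⟩
    · have h2 : pr G t b.1 = -1 := by rw [h, pr_al_adj G hadj.symm]
      have h3 : pr G s b.1 = 2 := by rw [h, pr_al_self]
      have hb : b.1 ≠ al t := ne_al_of_pr (G := G) (by omega)
      have h4 : pr G s (rfp G t b).1 = 1 := by rw [pr_rfp_adj hb hadj]; omega
      have h5 : ht (rfp G t b).1 = 2 := by
        rw [rfp_val hb, ht_rf, h2, h, ht_al]; norm_num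
      rw [psi_al y h, map_zero, psi_neg y h2, map_add, map_smul, fn_e, fn_e,
        T_one (rfp G t b).2 h4, h5, h, T_al_self]
      simp
      ring
    · rw [psi_zero y h1, psi_zero y h2, fn_e, fn_e, (rel_of_pos hG.out b.1 b.2).r0 s t hadj h1 h2]
    · have hb : b.1 ≠ al t := ne_al_of_pr (G := G) (by omega)
      have h3 : pr G s (rfp G t b).1 = -1 := by rw [pr_rfp_adj hb hadj]; omega
      have h4 : pr G t (rfp G t b).1 = 1 := by rw [pr_rfp_self hb]; omega
      have h5 := (rel_of_pos hG.out _ (rfp G t b).2).r3 s t hadj h4 h3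
      rw [psi_zero y h1, psi_neg y h2, map_add, map_smul, fn_e, fn_e, fn_e, h5, rfp_val hb, rf_rf]
      simp only [map_add, map_mul, map_sub, aeval_X, map_one, smul_eq_mul]
      ring
    · have hb : b.1 ≠ al t := ne_al_of_pr (G := G) (by omega)
      have hb' : b.1 ≠ al s := ne_al_of_pr (G := G) (by omega)
      have h5 : pr G s (rfp G s b).1 = 1 := by rw [pr_rfp_self hb']; omega
      have h6 : pr G t (rfp G s b).1 = 0 := by rw [pr_rfp_adj hb' hadj.symm]; omega
      have h7 := (rel_of_pos hG.out _ (rfp G s b).2).r2 t s hadj.symm h5 h6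
      rw [psi_neg y h1, psi_one y h2]
      simp only [map_add, map_smul]
      rw [fn_e, fn_e, fn_e, h7, rfp_val hb', rf_rf, rfp_val hb]
      simp only [map_add, map_mul, map_sub, aeval_X, map_one, smul_eq_mul]
      ring
    · have hb' : b.1 ≠ al s := ne_al_of_pr (G := G) (by omega)
      have h4 : pr G t (rfp G s b).1 = 1 := by rw [pr_rfp_adj hb' hadj.symm]; omega
      have hp := (rfp G s b).2.ht_pos
      have hh : ht (rfp G s b).1 = ht b.1 - 1 := by rw [rfp_val hb', ht_rf, h1]
      rw [psi_one y h1, psi_zero y h2, map_smul, fn_e, fn_e, T_one (rfp G s b).2 h4,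
        T_one b.2 h1]
      have : (ht b.1).toNat = (ht (rfp G s b).1).toNat + 1 := by omega
      rw [this, pow_succ]
      simp only [map_mul, map_sub, aeval_X, map_one, smul_eq_mul, map_pow]
      ring
    · have hb : b.1 ≠ al t := ne_al_of_pr (G := G) (by omega)
      have hb' : b.1 ≠ al s := ne_al_of_pr (G := G) (by omega)
      have h6 : (rfp G t b).1 = al s := by
        rw [rfp_val hb]
        exact rf_eq_al_of_one_one hG.out b.2 hadj h1 h2
      have h7 : (rfp G s b).1 = al t := by
        rw [rfp_val hb']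
        exact rf_eq_al_of_one_one hG.out b.2 hadj.symm h2 h1
      rw [psi_one y h1, psi_one y h2]
      simp only [map_smul]
      rw [fn_e, fn_e, h6, h7, T_al_self, T_al_self]
  by_cases e1 : b.1 = al s
  · exact key hadj b (Or.inl e1)
  by_cases e2 : b.1 = al t
  · exact (key hadj.symm b (Or.inl e2)).symm
  have c1 := pr_cases hG.out b.2 e1
  have c2 := pr_cases hG.out b.2 e2
  have c3 : ¬ (pr G s b.1 = -1 ∧ pr G t b.1 = -1) :=
    fun h => not_neg_neg hG.out b.2 hadj h.1 h.2
  by_cases q : ((pr G s b.1 = 0 ∧ pr G t b.1 = 0) ∨ (pr G s b.1 = 0 ∧ pr G t b.1 = -1) ∨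
        (pr G s b.1 = -1 ∧ pr G t b.1 = 1) ∨ (pr G s b.1 = 1 ∧ pr G t b.1 = 0) ∨
        (pr G s b.1 = 1 ∧ pr G t b.1 = 1))
  · exact key hadj b (Or.inr q)
  · refine (key hadj.symm b (Or.inr ?_)).symm
    omega

lemma psi_comm {s t : S} (hne : s ≠ t) (hadj : ¬ G.Adj s t) (v : PR G →₀ R) :
    psi y s (psi y t v) = psi y t (psi y s v) := by
  have : (psi y s).comp (psi y t) = (psi y t).comp (psi y s : (PR G →₀ R) →ₗ[R] (PR G →₀ R)) :=
    ext_e (fun b => psi_comm_e y hne hadj b)
  exact LinearMap.congr_fun this v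

lemma fn_psi_nadj {s t : S} (hne : s ≠ t) (hadj : ¬ G.Adj s t) (v : PR G →₀ R) :
    fn y s (psi y t v) = fn y s v := by
  have : (fn y s).comp (psi y t) = (fn y s : (PR G →₀ R) →ₗ[R] R) :=
    ext_e (fun b => fn_psi_nadj_e y hne hadj b)
  exact LinearMap.congr_fun this v

lemma psi_braid {s t : S} (hadj : G.Adj s t) (v : PR G →₀ R) :
    psi y s (psi y t (psi y s v)) = psi y t (psi y s (psi y t v)) := by
  have : (psi y s).comp ((psi y t).comp (psi y s)) =
      (psi y t).comp ((psi y s).comp (psi y t : (PR G →₀ R) →ₗ[R] (PR G →₀ R))) :=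
    ext_e (fun b => psi_braid_e y hadj b)
  exact LinearMap.congr_fun this v

lemma fn_psi_adj {s t : S} (hadj : G.Adj s t) (v : PR G →₀ R) :
    fn y t (psi y s v) = fn y s (psi y t v) := by
  have : (fn y t).comp (psi y s) = ((fn y s).comp (psi y t) : (PR G →₀ R) →ₗ[R] R) :=
    ext_e (fun b => fn_psi_adj_e y hadj b)
  exact LinearMap.congr_fun this v

/-- Quadratic relation of psi up to the simple root. -/
lemma psi_quad (s : S) (v : PR G →₀ R) :
    psi y s (psi y s v) = (1 - y) • psi y s v + y • v - (y * v (alp G s)) • e (alp G s) := by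
  have : (psi y s).comp (psi y s) = (1 - y) • psi y s + y • LinearMap.id
      - (y • (Finsupp.lapply (alp G s) : (PR G →₀ R) →ₗ[R] R)).smulRight (e (alp G s)) := by
    apply ext_e
    intro b
    simp only [LinearMap.comp_apply, LinearMap.sub_apply, LinearMap.add_apply,
      LinearMap.smul_apply, LinearMap.id_apply, LinearMap.smulRight_apply, Finsupp.lapply_apply,
      smul_eq_mul]
    rcases PR.cases s b with h | h | h | h
    · have hb : b = alp G s := Subtype.ext h
      rw [psi_al y h, map_zero, hb]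
      simp [e]
    · have hb : (e b : PR G →₀ R) (alp G s) = 0 := by
        have : b ≠ alp G s := by
          intro e; rw [e] at h; simp only [alp] at h; rw [pr_al_self] at h; omega
        simp [e, this]
      rw [psi_zero y h, psi_zero y h, hb]
      module
    · have hb : (e b : PR G →₀ R) (alp G s) = 0 := by
        have : b ≠ alp G s := by
          intro e; rw [e] at h; simp only [alp] at h; rw [pr_al_self] at h; omega
        simp [e, this]
      have h1 : b.1 ≠ al s := ne_al_of_pr (G := G) (by omega)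
      rw [psi_one y h, map_smul, psi_neg y (b := rfp G s b) (by rw [pr_rfp_self h1]; omega), hb,
        rfp_rfp]
      module
    · have hb : (e b : PR G →₀ R) (alp G s) = 0 := by
        have : b ≠ alp G s := by
          intro e; rw [e] at h; simp only [alp] at h; rw [pr_al_self] at h; omega
        simp [e, this]
      have h1 : b.1 ≠ al s := ne_al_of_pr (G := G) (by omega)
      rw [psi_neg y h, map_add, map_smul, psi_neg y h,
        psi_one y (b := rfp G s b) (by rw [pr_rfp_self h1]; omega), hb, rfp_rfp]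
      module
  have h2 := LinearMap.congr_fun this v
  simpa using h2

lemma fn_al_ne {s t : S} (h : s ≠ t) : fn y s (e (alp G t)) = 0 := by
  rw [fn_e]; simp only [alp]; rw [T_al_ne G h.symm, map_zero]

lemma fn_al_self (s : S) : fn y s (e (alp G s)) = y ^ 2 := by
  rw [fn_e]; simp only [alp]; rw [T_al_self]; simp

lemma rho_al (s : S) : rho x y s (e (alp G s)) = (x * y ^ 2) • e (alp G s) := by
  rw [rho_apply, psi_al y rfl, fn_al_self, zero_add]

/-- Commutation of the Krammer operators. -/
theorem rho_comm {s t : S} (hne : s ≠ t) (hadj : ¬ G.Adj s t) (v : PR G →₀ R) :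
    rho x y s (rho x y t v) = rho x y t (rho x y s v) := by
  have hadj' : ¬ G.Adj t s := fun e => hadj e.symm
  have h1 : psi y s (e (alp G t)) = (e (alp G t) : PR G →₀ R) :=
    psi_zero y (by simp only [alp]; exact pr_al_nadj G hne hadj)
  have h2 : psi y t (e (alp G s)) = (e (alp G s) : PR G →₀ R) :=
    psi_zero y (by simp only [alp]; exact pr_al_nadj G hne.symm hadj')
  simp only [rho_apply, map_add, map_smul, h1, h2, fn_al_ne y hne, fn_al_ne y hne.symm,
    psi_comm y hne hadj, fn_psi_nadj y hne hadj, fn_psi_nadj y hne.symm hadj', smul_eq_mul]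
  module

/-- Braid relation of the Krammer operators. -/
theorem rho_braid {s t : S} (hadj : G.Adj s t) (v : PR G →₀ R) :
    rho x y s (rho x y t (rho x y s v)) = rho x y t (rho x y s (rho x y t v)) := by
  have hne : s ≠ t := G.ne_of_adj hadj
  have key : ∀ {s t : S} (hadj : G.Adj s t) (v : PR G →₀ R),
      rho x y s (rho x y t (rho x y s v)) = psi y s (psi y t (psi y s v))
        + (x * ((1 - y) * fn y t (psi y s v) + y * fn y t v)) • e (alp G s)
        + (x * ((1 - y) * fn y t (psi y s v) + y * fn y s v)) • e (alp G t)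
        + (x * fn y t (psi y s v)) • e (rfp G s (alp G t)) := by
    intro s t hadj v
    have hne : s ≠ t := G.ne_of_adj hadj
    have a1 : pr G t (alp G s).1 = -1 := pr_al_adj G hadj.symm
    have a2 : pr G s (alp G t).1 = -1 := pr_al_adj G hadj
    have n1 : (alp G s).1 ≠ al t := ne_al_of_pr (G := G) (by omega)
    have n2 : (alp G t).1 ≠ al s := ne_al_of_pr (G := G) (by omega)
    have h12 : rfp G t (alp G s) = rfp G s (alp G t) := by
      apply Subtype.ext
      rw [rfp_val n1, rfp_val n2, rf, rf, a1, a2]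
      simp only [alp]
      abel_nf
    have h3 : pr G s (rfp G t (alp G s)).1 = 1 := by
      rw [pr_rfp_adj n1 hadj, a1]; simp only [alp]; rw [pr_al_self]; norm_num
    have h4 : pr G t (rfp G t (alp G s)).1 = 1 := by rw [pr_rfp_self n1]; omega
    have h5 : rfp G s (rfp G t (alp G s)) = alp G t := by
      rw [h12, rfp_rfp]
    have h6 : ht (rfp G t (alp G s)).1 = 2 := by
      rw [rfp_val n1, ht_rf, a1]; simp only [alp]; rw [ht_al]; norm_num
    have h7 : fn y s (e (rfp G t (alp G s))) = y ^ 2 * (y - 1) := by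
      rw [fn_e, T_one (rfp G t (alp G s)).2 h3, h6]; simp
    have q := psi_quad y s v
    have f1 : fn y s (psi y t (psi y s v)) = (1 - y) * fn y t (psi y s v) + y * fn y t v := by
      rw [← fn_psi_adj y hadj, q]
      simp only [map_sub, map_add, map_smul, fn_al_ne y hne.symm, smul_eq_mul]
      ring
    simp only [rho_apply, map_add, map_smul]
    simp only [psi_neg y a1, psi_neg y a2, psi_al y (s := s) (b := alp G s) rfl,
      psi_one y h3, h5, map_add, map_smul, f1, fn_al_ne y hne, fn_al_ne y hne.symm, fn_al_self, h7,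
      h12.symm, smul_eq_mul]
    module
  rw [key hadj, key hadj.symm, psi_braid y hadj, fn_psi_adj y hadj]
  have a1 : pr G t (alp G s).1 = -1 := pr_al_adj G hadj.symm
  have a2 : pr G s (alp G t).1 = -1 := pr_al_adj G hadj
  have n1 : (alp G s).1 ≠ al t := ne_al_of_pr (G := G) (by omega)
  have n2 : (alp G t).1 ≠ al s := ne_al_of_pr (G := G) (by omega)
  have h12 : rfp G t (alp G s) = rfp G s (alp G t) := by
    apply Subtype.ext
    rw [rfp_val n1, rfp_val n2, rf, rf, a1, a2]
    simp only [alp]
    abel_nf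
  rw [h12]
  module

/-- The quadratic expression in `rho` is a multiple of the simple root vector. -/
lemma rho_quad (s : S) (v : PR G →₀ R) : ∃ c : R,
    rho x y s (rho x y s v) = (1 - y) • rho x y s v + y • v + c • e (alp G s) := by
  have q := psi_quad y s v
  have a : psi y s (e (alp G s)) = (0 : PR G →₀ R) := psi_al y rfl
  refine ⟨- (y * v (alp G s)) + x * fn y s (psi y s v) + x * (x * fn y s v) * y ^ 2
    - (1 - y) * (x * fn y s v), ?_⟩
  simp only [rho_apply, map_add, map_smul, a, q, fn_al_self, smul_eq_mul]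
  module

/-- The operators are bijective when the parameters are units. -/
lemma rho_bijective (hx : IsUnit x) (hy : IsUnit y) (s : S) :
    Function.Bijective (rho x y s : (PR G →₀ R) →ₗ[R] (PR G →₀ R)) := by
  obtain ⟨x', hx'⟩ := hx.exists_left_inv
  obtain ⟨y', hy'⟩ := hy.exists_left_inv
  constructor
  · rw [injective_iff_map_eq_zero]
    intro v hv
    obtain ⟨c, hc⟩ := rho_quad x y s v
    rw [hv, map_zero, smul_zero, zero_add] at hc
    have h1 : v = (-(y' * c)) • e (alp G s) := by
      have : y' • (y • v) = (y' * y) • v := by rw [mul_smul]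
      rw [hy', one_smul] at this
      rw [← this]
      have h2 : y • v = -(c • e (alp G s)) := by
        rw [eq_neg_iff_add_eq_zero]; exact hc.symm
      rw [h2]; module
    have h3 := hv
    rw [h1, map_smul, rho_al, smul_smul] at h3
    have h4 := DFunLike.congr_fun h3 (alp G s)
    simp only [e, Finsupp.smul_apply, Finsupp.single_eq_same, smul_eq_mul, mul_one,
      Finsupp.coe_zero, Pi.zero_apply] at h4
    have h5 : -(y' * c) = 0 := by
      have : -(y' * c) = -(y' * c) * (x * y ^ 2) * (x' * y' ^ 2) := by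
        have : (x * y ^ 2) * (x' * y' ^ 2) = (x' * x) * (y' * y) ^ 2 := by ring
        rw [mul_assoc, this, hx', hy']; ring
      rw [this, h4, zero_mul]
    rw [h1, h5, zero_smul]
  · intro v
    obtain ⟨c, hc⟩ := rho_quad x y s v
    refine ⟨y' • (rho x y s v - (1 - y) • v - (c * (x' * y' ^ 2)) • e (alp G s)), ?_⟩
    rw [map_smul, map_sub, map_sub, map_smul, map_smul, rho_al, hc]
    have : (c * (x' * y' ^ 2)) • (x * y ^ 2) • (e (alp G s) : PR G →₀ R)
        = c • e (alp G s) := by
      rw [smul_smul]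
      congr 1
      have : (c * (x' * y' ^ 2)) * (x * y ^ 2) = c * (x' * x) * (y' * y) ^ 2 := by ring
      rw [this, hx', hy']; ring
    rw [this]
    have h6 : y' • ((1 - y) • rho x y s v + y • v + c • e (alp G s) - (1 - y) • rho x y s v
      - c • (e (alp G s) : PR G →₀ R)) = (y' * y) • v := by module
    rw [h6, hy', one_smul]

end ring

end Pool.Agent.MP685115
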