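import Pool.Agent.Lib.MP_685115_al.Lattice

/-! The polynomials of the Lawrence-Krammer representation, positive definite simply laced case. -/

set_option linter.unusedSectionVars false
set_option linter.unusedVariables false

namespace Pool.Agent.MP685115

open Polynomial

variable {S : Type} [Fintype S] [DecidableEq S] (G : SimpleGraph S) [DecidableRel G.Adj]

/-- A nonsimple positive root with a descent. -/
def Good (b : S → ℤ) : Prop := Pos G b ∧ (∀ u, b ≠ al u) ∧ ∃ t, pr G t b = 1

/-- A chosen descent. -/
noncomputable def desc {b : S → ℤ} (h : Good G b) : S := Classical.choose h.2.2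

lemma desc_spec {b : S → ℤ} (h : Good G b) : pr G (desc G h) b = 1 := Classical.choose_spec h.2.2

open Classical in
/-- The polynomials. -/
noncomputable def T (s : S) (b : S → ℤ) : ℤ[X] :=
  if h : Good G b then
    if pr G s b = 1 then X ^ (ht b).toNat * (X - 1)
    else
      if G.Adj s (desc G h) then
        if pr G s b = 0 ∧ G.Adj s (desc G h) then
          X * T (desc G h) (rf G s (rf G (desc G h) b)) + (X - 1) * T s (rf G (desc G h) b)
        else T (desc G h) (rf G (desc G h) b) + (X - 1) * T s (rf G (desc G h) b)
      else X * T s (rf G (desc G h) b)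
  else if b = al s then X ^ 2 else 0
termination_by (ht b).toNat
decreasing_by
  all_goals
    have ht1 := desc_spec G h
    have hp := h.1.ht_pos
    have e1 := ht_rf (G := G) (desc G h) b
  · have e2 := ht_rf (G := G) s (rf G (desc G h) b)
    rename_i hh
    rw [pr_rf_adj hh.2] at e2
    have h3 := hh.1
    omega
  · omega
  · omega
  · omega
  · omega

lemma T_al (s u : S) : T G s (al u) = if u = s then X ^ 2 else 0 := by
  rw [T]
  have h : ¬ Good G (al u) := fun h => h.2.1 u rfl
  rw [dif_neg h]
  by_cases e : u = s
  · subst e; simp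
  · have : (al u : S → ℤ) ≠ al s := fun h => e (al_inj h)
    simp [e, this]

lemma T_al_self (s : S) : T G s (al s) = X ^ 2 := by simp [T_al]

lemma T_al_ne {s u : S} (h : u ≠ s) : T G s (al u) = 0 := by simp [T_al, h]

variable {G}

lemma good_of_desc {b : S → ℤ} (hb : Pos G b) {t : S} (ht : pr G t b = 1) : Good G b :=
  ⟨hb, ne_al_of_one ht, t, ht⟩

lemma T_one {b : S → ℤ} (hb : Pos G b) {s : S} (hs : pr G s b = 1) :
    T G s b = X ^ (ht b).toNat * (X - 1) := by
  rw [T, dif_pos (good_of_desc hb hs), if_pos hs]

/-- The value of the recursion computed with the descent `t`. -/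
noncomputable def F (G : SimpleGraph S) [DecidableRel G.Adj] (s t : S) (b : S → ℤ) : ℤ[X] :=
  if G.Adj s t then
    if pr G s b = 0 then X * T G t (rf G s (rf G t b)) + (X - 1) * T G s (rf G t b)
    else T G t (rf G t b) + (X - 1) * T G s (rf G t b)
  else X * T G s (rf G t b)

lemma T_eq_F {b : S → ℤ} (h : Good G b) {s : S} (hs : pr G s b ≠ 1) :
    T G s b = F G s (desc G h) b := by
  rw [T, dif_pos h, if_neg hs, F]
  by_cases h1 : G.Adj s (desc G h)
  · simp only [h1, if_true, and_true]
  · simp only [h1, if_false]

/-- The relations at the root `b`. -/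
structure Rel (G : SimpleGraph S) [DecidableRel G.Adj] (b : S → ℤ) : Prop where
  r1 : ∀ s t, s ≠ t → ¬ G.Adj s t → pr G t b = 1 → T G s b = X * T G s (rf G t b)
  r2 : ∀ s t, G.Adj s t → pr G t b = 1 → pr G s b = 0 →
    T G s b = X * T G t (rf G s (rf G t b)) + (X - 1) * T G s (rf G t b)
  r3 : ∀ s t, G.Adj s t → pr G t b = 1 → pr G s b = -1 →
    T G s b = T G t (rf G t b) + (X - 1) * T G s (rf G t b)
  r0 : ∀ s t, G.Adj s t → pr G s b = 0 → pr G t b = 0 → T G s b = T G t b

lemma rel_al (u : S) : Rel G (al u) := by
  constructor
  · intro s t _ _ h; exact absurd rfl (ne_al_of_one h u)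
  · intro s t _ h _; exact absurd rfl (ne_al_of_one h u)
  · intro s t _ h _; exact absurd rfl (ne_al_of_one h u)
  · intro s t h hs ht
    have h1 : u ≠ s := by rintro rfl; rw [pr_al_self] at hs; omega
    have h2 : u ≠ t := by rintro rfl; rw [pr_al_self] at ht; omega
    rw [T_al_ne G h1, T_al_ne G h2]

/-- Independence of the chosen descent. -/
lemma F_indep (hG : PD G) {b : S → ℤ} (hb : Pos G b)
    (ih : ∀ c, Pos G c → ht c < ht b → Rel G c)
    {s t t' : S} (hs : pr G s b = 0 ∨ pr G s b = -1)
    (ht : pr G t b = 1) (ht' : pr G t' b = 1) : F G s t b = F G s t' b := by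
  by_cases htt : t = t'
  · rw [htt]
  have hst : s ≠ t := by rintro rfl; omega
  have hst' : s ≠ t' := by rintro rfl; omega
  have hp : Pos G (rf G t b) := rf_pos hG hb (ne_al_of_one ht t)
  have hp' : Pos G (rf G t' b) := rf_pos hG hb (ne_al_of_one ht' t')
  have hh : MP685115.ht (rf G t b) = MP685115.ht b - 1 := by rw [ht_rf, ht]
  have hh' : MP685115.ht (rf G t' b) = MP685115.ht b - 1 := by rw [ht_rf, ht']
  by_cases hadj : G.Adj t t'
  · -- b = al t + al t'
    have e1 : rf G t b = al t' := rf_eq_al_of_one_one hG hb hadj.symm ht' ht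
    have e2 : rf G t' b = al t := rf_eq_al_of_one_one hG hb hadj ht ht'
    by_cases a1 : G.Adj s t
    · have a2 : ¬ G.Adj s t' := fun a2 => no_triangle hG a1 hadj a2
      have hs1 : pr G s b = -1 := by
        have := pr_rf_nadj hst' a2 b
        rw [e2, pr_al_adj G a1] at this
        exact this.symm
      rw [F, if_pos a1, if_neg (by omega), F, if_neg a2, e1, e2, T_al_ne G (Ne.symm htt),
        T_al_ne G (Ne.symm hst'), T_al_ne G (Ne.symm hst)]
      ring
    · by_cases a2 : G.Adj s t'
      · have hs1 : pr G s b = -1 := by
          have := pr_rf_nadj hst a1 b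
          rw [e1, pr_al_adj G a2] at this
          exact this.symm
        rw [F, if_neg a1, F, if_pos a2, if_neg (by omega), e1, e2, T_al_ne G htt,
          T_al_ne G (Ne.symm hst'), T_al_ne G (Ne.symm hst)]
        ring
      · rw [F, if_neg a1, F, if_neg a2, e1, e2, T_al_ne G (Ne.symm hst'), T_al_ne G (Ne.symm hst)]
  · -- commuting descents
    have hadj' : ¬ G.Adj t' t := fun e => hadj e.symm
    have R := ih _ hp (by omega)
    have R' := ih _ hp' (by omega)
    have g1 : pr G t' (rf G t b) = 1 := by rw [pr_rf_nadj (Ne.symm htt) hadj', ht']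
    have g1' : pr G t (rf G t' b) = 1 := by rw [pr_rf_nadj htt hadj, ht]
    have cm : rf G t' (rf G t b) = rf G t (rf G t' b) := rf_comm (Ne.symm htt) hadj' b
    have hpe : Pos G (rf G t' (rf G t b)) := rf_pos hG hp (ne_al_of_one g1 t')
    by_cases a1 : G.Adj s t
    · by_cases a2 : G.Adj s t'
      · -- both adjacent
        rcases hs with hs0 | hs1
        · -- s has pairing zero
          have k1 : pr G s (rf G t b) = 1 := by rw [pr_rf_adj a1]; omega
          have k1' : pr G s (rf G t' b) = 1 := by rw [pr_rf_adj a2]; omega
          have e1 : rf G s (rf G t b) = al t' := rf_eq_al_of_one_one hG hp a2.symm g1 k1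
          have e1' : rf G s (rf G t' b) = al t := rf_eq_al_of_one_one hG hp' a1.symm g1' k1'
          rw [F, if_pos a1, if_pos hs0, F, if_pos a2, if_pos hs0, e1, e1',
            T_al_ne G (Ne.symm htt), T_al_ne G htt, T_one hp k1, T_one hp' k1', hh, hh']
        · have k1 : pr G s (rf G t b) = 0 := by rw [pr_rf_adj a1]; omega
          have k1' : pr G s (rf G t' b) = 0 := by rw [pr_rf_adj a2]; omega
          set e := rf G t' (rf G t b) with he
          have ke : pr G s e = 1 := by rw [he, pr_rf_adj a2]; omega
          have te : pr G t e = -1 := by rw [he, pr_rf_nadj htt hadj, pr_rf_self, ht]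
          have te' : pr G t' e = -1 := by
            rw [he, pr_rf_self, g1]
          have hhe : MP685115.ht e = MP685115.ht b - 2 := by rw [he, ht_rf, g1]; omega
          have Re := ih e hpe (by omega)
          have x1 : T G t (rf G t b) = X * T G t e := R.r1 t t' htt hadj g1
          have x1' : T G t' (rf G t' b) = X * T G t' e := by
            rw [cm]; exact R'.r1 t' t (Ne.symm htt) hadj' g1'
          have x2 := R.r2 s t' a2 g1 k1
          have x2' := R'.r2 s t a1 g1' k1'
          rw [← he] at x2
          rw [← cm] at x2'
          have x3 := Re.r3 t s a1.symm ke te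
          have x3' := Re.r3 t' s a2.symm ke te'
          rw [F, if_pos a1, if_neg (by omega), F, if_pos a2, if_neg (by omega), x1, x1', x2, x2',
            x3, x3']
          ring
      · -- s adjacent to t only
        have hc : rf G s (rf G t (rf G t' b)) = rf G t' (rf G s (rf G t b)) := by
          rw [← cm, rf_comm hst' a2]
        rcases hs with hs0 | hs1
        · have k1' : pr G s (rf G t' b) = 0 := by rw [pr_rf_nadj hst' a2]; exact hs0
          have k1 : pr G s (rf G t b) = 1 := by rw [pr_rf_adj a1]; omega
          have x1 := R'.r2 s t a1 g1' k1'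
          have hpd : Pos G (rf G s (rf G t b)) := rf_pos hG hp (ne_al_of_one k1 s)
          have hhd : MP685115.ht (rf G s (rf G t b)) = MP685115.ht b - 2 := by
            rw [ht_rf, k1]; omega
          have a2' : ¬ G.Adj t' s := fun e => a2 e.symm
          have x2 := (ih _ hpd (by omega)).r1 t t' htt hadj
            (by rw [pr_rf_nadj (Ne.symm hst') a2', g1])
          have x3 := R.r1 s t' hst' a2 g1
          rw [F, if_pos a1, if_pos hs0, F, if_neg a2, x1, hc, x2, x3, cm]
          ring
        · have k1' : pr G s (rf G t' b) = -1 := by rw [pr_rf_nadj hst' a2]; exact hs1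
          have x1 := R'.r3 s t a1 g1' k1'
          have x2 := R.r1 t t' htt hadj g1
          have x3 := R.r1 s t' hst' a2 g1
          rw [F, if_pos a1, if_neg (by omega), F, if_neg a2, x1, x2, x3, cm]
          ring
    · by_cases a2 : G.Adj s t'
      · have hc : rf G s (rf G t' (rf G t b)) = rf G t (rf G s (rf G t' b)) := by
          rw [cm, rf_comm hst a1]
        rcases hs with hs0 | hs1
        · have k1' : pr G s (rf G t b) = 0 := by rw [pr_rf_nadj hst a1]; exact hs0
          have k1 : pr G s (rf G t' b) = 1 := by rw [pr_rf_adj a2]; omega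
          have x1 := R.r2 s t' a2 g1 k1'
          have hpd : Pos G (rf G s (rf G t' b)) := rf_pos hG hp' (ne_al_of_one k1 s)
          have hhd : MP685115.ht (rf G s (rf G t' b)) = MP685115.ht b - 2 := by
            rw [ht_rf, k1]; omega
          have a1' : ¬ G.Adj t s := fun e => a1 e.symm
          have x2 := (ih _ hpd (by omega)).r1 t' t (Ne.symm htt) hadj'
            (by rw [pr_rf_nadj (Ne.symm hst) a1', g1'])
          have x3 := R'.r1 s t hst a1 g1'
          rw [F, if_neg a1, F, if_pos a2, if_pos hs0, x1, hc, x2, x3, cm]
          ring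
        · have k1' : pr G s (rf G t b) = -1 := by rw [pr_rf_nadj hst a1]; exact hs1
          have x1 := R.r3 s t' a2 g1 k1'
          have x2 := R'.r1 t' t (Ne.symm htt) hadj' g1'
          have x3 := R'.r1 s t hst a1 g1'
          rw [F, if_neg a1, F, if_pos a2, if_neg (by omega), x1, x2, x3, cm]
          ring
      · have x1 := R.r1 s t' hst' a2 g1
        have x1' := R'.r1 s t hst a1 g1'
        rw [F, if_neg a1, F, if_neg a2, x1, x1', cm]

lemma T_eq_F_of_desc (hG : PD G) {b : S → ℤ} (hb : Pos G b)
    (ih : ∀ c, Pos G c → ht c < ht b → Rel G c)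
    {s t : S} (hs : pr G s b = 0 ∨ pr G s b = -1) (ht : pr G t b = 1) :
    T G s b = F G s t b := by
  have hg := good_of_desc hb ht
  rw [T_eq_F hg (by omega)]
  exact F_indep hG hb ih hs (desc_spec G hg) ht

/-- The equality at doubly orthogonal roots, one half. -/
lemma r0_half (hG : PD G) {b : S → ℤ} (hb : Pos G b)
    (ih : ∀ c, Pos G c → ht c < ht b → Rel G c)
    {s t r : S} (hst : G.Adj s t) (hs : pr G s b = 0) (ht : pr G t b = 0)
    (hr : pr G r b = 1) (a1 : G.Adj r s) (a2 : ¬ G.Adj r t) : T G s b = T G t b := by
  have hrs : r ≠ s := G.ne_of_adj a1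
  have hrt : r ≠ t := by rintro rfl; omega
  have a2' : ¬ G.Adj t r := fun e => a2 e.symm
  have h1 : Pos G (rf G r b) := rf_pos hG hb (ne_al_of_one hr r)
  have p1 : pr G s (rf G r b) = 1 := by rw [pr_rf_adj a1.symm]; omega
  have p2 : pr G t (rf G r b) = 0 := by rw [pr_rf_nadj (Ne.symm hrt) a2']; omega
  have p3 : pr G r (rf G r b) = -1 := by rw [pr_rf_self]; omega
  set e := rf G s (rf G r b) with he
  have h2 : Pos G e := rf_pos hG h1 (ne_al_of_one p1 s)
  have q1 : pr G t e = 1 := by rw [he, pr_rf_adj hst.symm]; omega
  have q2 : pr G r e = 0 := by rw [he, pr_rf_adj a1]; omega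
  have q3 : pr G s e = -1 := by rw [he, pr_rf_self]; omega
  have h3 : Pos G (rf G t e) := rf_pos hG h2 (ne_al_of_one q1 t)
  have w1 : pr G r (rf G t e) = 0 := by rw [pr_rf_nadj hrt a2]; omega
  have w2 : pr G s (rf G t e) = 0 := by rw [pr_rf_adj hst]; omega
  have n1 : MP685115.ht (rf G r b) = MP685115.ht b - 1 := by rw [ht_rf, hr]
  have n2 : MP685115.ht e = MP685115.ht b - 2 := by rw [he, ht_rf, p1]; omega
  have n3 : MP685115.ht (rf G t e) = MP685115.ht b - 3 := by rw [ht_rf, q1]; omega
  have y1 : T G s b = F G s r b := T_eq_F_of_desc hG hb ih (Or.inl hs) hr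
  have y2 : T G t b = F G t r b := T_eq_F_of_desc hG hb ih (Or.inl ht) hr
  rw [F, if_pos a1.symm, if_pos hs, ← he] at y1
  rw [F, if_neg a2'] at y2
  have y3 := (ih _ h1 (by omega)).r2 t s hst.symm p1 p2
  rw [← he] at y3
  have y4 := (ih _ h2 (by omega)).r1 r t hrt a2 q1
  have y5 := (ih _ h3 (by omega)).r0 r s a1 w1 w2
  have y6 : T G s (rf G r b) = X * T G t e := by
    rw [T_one h1 p1, T_one h2 q1, n1, n2]
    have hpos := h2.ht_pos
    have : (MP685115.ht b - 1).toNat = (MP685115.ht b - 2).toNat + 1 := by omega
    rw [this, pow_succ]; ring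
  rw [y1, y2, y3, y4, y5, y6]
  ring

theorem rel_of_pos (hG : PD G) : ∀ b : S → ℤ, Pos G b → Rel G b := by
  have key : ∀ n : ℕ, ∀ b : S → ℤ, Pos G b → (ht b).toNat = n → Rel G b := by
    intro n
    induction n using Nat.strong_induction_on with
    | _ n IH =>
      intro b hb hn
      have ih : ∀ c, Pos G c → ht c < ht b → Rel G c := by
        intro c hc hlt
        have h1 := hb.ht_pos
        have h2 := hc.ht_pos
        exact IH (ht c).toNat (by omega) c hc rfl
      by_cases hsimp : ∃ u, b = al u
      · obtain ⟨u, rfl⟩ := hsimp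
        exact rel_al u
      · push Not at hsimp
        constructor
        · intro s t hst hadj ht
          rcases pr_cases hG hb (hsimp s) with hs | hs | hs
          · have := T_eq_F_of_desc hG hb ih (Or.inr hs) ht
            rw [this, F, if_neg hadj]
          · have := T_eq_F_of_desc hG hb ih (Or.inl hs) ht
            rw [this, F, if_neg hadj]
          · have h1 : pr G s (rf G t b) = 1 := by rw [pr_rf_nadj hst hadj]; exact hs
            have hp : Pos G (rf G t b) := rf_pos hG hb (hsimp t)
            rw [T_one hb hs, T_one hp h1, ht_rf, ht]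
            have h2 := hp.ht_pos
            rw [ht_rf, ht] at h2
            have : (MP685115.ht b).toNat = (MP685115.ht b - 1).toNat + 1 := by omega
            rw [this, pow_succ]; ring
        · intro s t hadj ht hs
          rw [T_eq_F_of_desc hG hb ih (Or.inl hs) ht, F, if_pos hadj, if_pos hs]
        · intro s t hadj ht hs
          rw [T_eq_F_of_desc hG hb ih (Or.inr hs) ht, F, if_pos hadj, if_neg (by omega)]
        · intro s t hadj hs ht
          obtain ⟨r, hr⟩ := exists_desc_one hG hb hsimp
          have hrs : r ≠ s := by rintro rfl; omega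
          have hrt : r ≠ t := by rintro rfl; omega
          by_cases a1 : G.Adj r s
          · by_cases a2 : G.Adj r t
            · exact absurd a2 (fun a2 => no_triangle hG a1 hadj a2)
            · exact r0_half hG hb ih hadj hs ht hr a1 a2
          · by_cases a2 : G.Adj r t
            · exact (r0_half hG hb ih hadj.symm ht hs hr a2 a1).symm
            · have a1' : ¬ G.Adj s r := fun e => a1 e.symm
              have a2' : ¬ G.Adj t r := fun e => a2 e.symm
              rw [T_eq_F_of_desc hG hb ih (Or.inl hs) hr, T_eq_F_of_desc hG hb ih (Or.inl ht) hr,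
                F, if_neg a1', F, if_neg a2']
              have hp : Pos G (rf G r b) := rf_pos hG hb (hsimp r)
              have := (ih _ hp (by rw [ht_rf]; omega)).r0 s t hadj
                (by rw [pr_rf_nadj (Ne.symm hrs) a1']; exact hs)
                (by rw [pr_rf_nadj (Ne.symm hrt) a2']; exact ht)
              rw [this]
  intro b hb
  exact key _ b hb rfl

/-- At `X = 1` the polynomials vanish outside the diagonal. -/
theorem T_eval_one (hG : PD G) : ∀ (b : S → ℤ), Pos G b → ∀ s, b ≠ al s → (T G s b).eval 1 = 0 := by
  have key : ∀ n : ℕ, ∀ b : S → ℤ, Pos G b → (ht b).toNat = n → ∀ s, b ≠ al s →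
      (T G s b).eval 1 = 0 := by
    intro n
    induction n using Nat.strong_induction_on with
    | _ n IH =>
      intro b hb hn s hs
      by_cases hsimp : ∃ u, b = al u
      · obtain ⟨u, rfl⟩ := hsimp
        have : u ≠ s := fun e => hs (by rw [e])
        rw [T_al_ne G this]; simp
      · push Not at hsimp
        obtain ⟨t, ht⟩ := exists_desc_one hG hb hsimp
        have hp : Pos G (rf G t b) := rf_pos hG hb (hsimp t)
        have hp1 := hp.ht_pos
        have hb1 := hb.ht_pos
        have hh : MP685115.ht (rf G t b) = MP685115.ht b - 1 := by rw [ht_rf, ht]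
        have R := rel_of_pos hG b hb
        rcases pr_cases hG hb (hsimp s) with h | h | h
        · have hst : s ≠ t := by rintro rfl; omega
          by_cases a : G.Adj s t
          · rw [R.r3 s t a ht h]
            have h1 : rf G t b ≠ al t := by
              intro e
              have := pr_rf_self (G := G) t b
              rw [e, pr_al_self] at this
              omega
            have x1 := IH _ (by omega) _ hp rfl t h1
            simp [x1]
          · rw [R.r1 s t hst a ht]
            have h1 : rf G t b ≠ al s := by
              intro e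
              have := pr_rf_nadj (G := G) hst a b
              rw [e, pr_al_self] at this
              omega
            have x1 := IH _ (by omega) _ hp rfl s h1
            simp [x1]
        · have hst : s ≠ t := by rintro rfl; omega
          by_cases a : G.Adj s t
          · rw [R.r2 s t a ht h]
            have h0 : pr G s (rf G t b) = 1 := by rw [pr_rf_adj a]; omega
            have hp2 : Pos G (rf G s (rf G t b)) := rf_pos hG hp (ne_al_of_one h0 s)
            have hp3 := hp2.ht_pos
            have hh2 : MP685115.ht (rf G s (rf G t b)) = MP685115.ht b - 2 := by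
              rw [ht_rf, h0]; omega
            have h1 : rf G s (rf G t b) ≠ al t := by
              intro e
              have := pr_rf_adj (G := G) a.symm (rf G t b)
              rw [e, pr_al_self, pr_rf_self] at this
              omega
            have x1 := IH _ (by omega) _ hp2 rfl t h1
            simp [x1]
          · rw [R.r1 s t hst a ht]
            have h1 : rf G t b ≠ al s := by
              intro e
              have := pr_rf_nadj (G := G) hst a b
              rw [e, pr_al_self] at this
              omega
            have x1 := IH _ (by omega) _ hp rfl s h1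
            simp [x1]
        · rw [T_one hb h]; simp
  intro b hb
  exact key _ b hb rfl

end Pool.Agent.MP685115
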