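import Pool.Agent.Lib.MP_685115_al.Grp

/-! Uniqueness of roots for elements acting trivially on the reduction, and the main step. -/

set_option linter.unusedSectionVars false
set_option linter.unusedVariables false

namespace Pool.Agent.MP685115

open scoped Pointwise
open Polynomial

section perm
variable {S : Type} [Fintype S] [DecidableEq S] {G : SimpleGraph S} [DecidableRel G.Adj]
  [hG : Fact (PD G)] {R : Type*} [CommRing R]

lemma aeval_T_one {s : S} {b : PR G} (h : b.1 ≠ al s) : aeval (1 : R) (T G s b.1) = 0 := by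
  rw [aeval_def, eval₂_at_one, T_eval_one hG.out b.1 b.2 s h, map_zero]

lemma rho_one_e (s : S) (b : PR G) : rho (1 : R) 1 s (e b) = e (rfp G s b) := by
  rw [rho_apply, fn_e]
  rcases PR.cases s b with h | h | h | h
  · rw [psi_al _ h, h, T_al_self, rfp_al h]
    have : alp G s = b := Subtype.ext h.symm
    rw [this]
    simp
  · rw [psi_zero _ h, aeval_T_one (ne0 h)]
    have : rfp G s b = b := by
      apply Subtype.ext
      rw [rfp_val (ne0 h), rf, h]; simp
    rw [this]; simp
  · rw [psi_one _ h, aeval_T_one (ne1 h)]; simp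
  · rw [psi_neg _ h, aeval_T_one (nem h)]; simp

lemma rho_one_sq (s : S) (v : PR G →₀ R) : rho (1 : R) 1 s (rho (1 : R) 1 s v) = v := by
  have : (rho (1 : R) 1 s).comp (rho (1 : R) 1 s) = (LinearMap.id : (PR G →₀ R) →ₗ[R] _) := by
    apply ext_e
    intro b
    rw [LinearMap.comp_apply, rho_one_e, rho_one_e, rfp_rfp, LinearMap.id_apply]
  exact LinearMap.congr_fun this v

lemma rho1_mul_rev (u : AM (slM G)) (v : PR G →₀ R) :
    rhoHom G (1 : R) 1 u (rhoHom G (1 : R) 1 (rev u) v) = v := by
  induction u using AM_ind generalizing v with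
  | h1 => simp
  | hs s u ih =>
    have h1 : rhoHom G (1 : R) 1 (rev (sg _ s * u)) v
        = rhoHom G (1 : R) 1 (rev u) (rho (1 : R) 1 s v) := by
      rw [rev_mul, rev_sg, map_mul, Module.End.mul_apply]
      rfl
    rw [h1, rhoHom_sg_mul, ih, rho_one_sq]

end perm

/-! ### The unipotent argument -/

section unip
variable {R V : Type*} [CommRing R] [AddCommGroup V] [Module R V] (X : R)

/-- Congruent to the identity modulo `X`. -/
def Cong (A : Module.End R V) : Prop := ∀ v, ∃ w, A v = v + X • w

variable {X}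

lemma Cong.pow {A : Module.End R V} (h : Cong X A) (n : ℕ) : Cong X (A ^ n) := by
  induction n with
  | zero => intro v; exact ⟨0, by simp⟩
  | succ n ih =>
    intro v
    obtain ⟨w1, h1⟩ := ih v
    obtain ⟨w2, h2⟩ := h ((A ^ n) v)
    refine ⟨w1 + w2, ?_⟩
    rw [pow_succ', Module.End.mul_apply, h2, h1]
    module

theorem unip {A C : Module.End R V} (hA : Cong X A) (hC : Cong X C)
    {k : ℕ} {r : R} (hrk : r * (k : R) = 1)
    (hsep : ∀ v : V, (∀ n : ℕ, ∃ w, v = X ^ (n + 1) • w) → v = 0)
    (h : A ^ k = C ^ k) : A = C := by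
  have key : ∀ n : ℕ, ∀ v, ∃ w, A v - C v = (X ^ (n + 1)) • w := by
    intro n
    induction n with
    | zero =>
      intro v
      obtain ⟨w1, h1⟩ := hA v
      obtain ⟨w2, h2⟩ := hC v
      refine ⟨w1 - w2, ?_⟩
      rw [h1, h2, zero_add, pow_one]
      module
    | succ n ih =>
      have step : ∀ j : ℕ, ∀ v, ∃ w, (A ^ j) v - (C ^ j) v
          = (j : R) • (A v - C v) + (X ^ (n + 2)) • w := by
        intro j
        induction j with
        | zero => intro v; exact ⟨0, by simp⟩
        | succ j ihj =>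
          intro v
          obtain ⟨w1, h1⟩ := ihj (A v)
          obtain ⟨w2, h2⟩ := hA v
          obtain ⟨w3, h3⟩ := ih w2
          obtain ⟨w4, h4⟩ := ih v
          obtain ⟨w5, h5⟩ := hC.pow j w4
          refine ⟨w1 + (j : R) • w3 + w5, ?_⟩
          have e1 : A (A v) - C (A v) = (A v - C v) + X • (A w2 - C w2) := by
            have e0 : A (A v) = A v + X • A w2 := by
              conv_lhs => rw [h2]
              rw [map_add, map_smul]
            have e00 : C (A v) = C v + X • C w2 := by
              conv_lhs => rw [h2]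
              rw [map_add, map_smul]
            rw [e0, e00]
            module
          have e2 : (C ^ j) (A v) - (C ^ j) (C v) = (A v - C v) + (X ^ (n + 2)) • w5 := by
            rw [← map_sub, h4, map_smul, h5]
            rw [smul_add, smul_smul, ← pow_succ]
          calc (A ^ (j + 1)) v - (C ^ (j + 1)) v
              = ((A ^ j) (A v) - (C ^ j) (A v)) + ((C ^ j) (A v) - (C ^ j) (C v)) := by
                rw [pow_succ, pow_succ, Module.End.mul_apply, Module.End.mul_apply]; abel
            _ = _ := by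
                rw [h1, e1, e2, h3, smul_smul, ← pow_succ']
                push_cast
                module
      intro v
      obtain ⟨w, hw⟩ := step k v
      rw [h, sub_self] at hw
      refine ⟨-(r • w), ?_⟩
      have e1 : (k : R) • (A v - C v) = -((X ^ (n + 2)) • w) :=
        eq_neg_of_add_eq_zero_left hw.symm
      calc A v - C v = (r * (k : R)) • (A v - C v) := by rw [hrk, one_smul]
        _ = r • ((k : R) • (A v - C v)) := by rw [mul_smul]
        _ = _ := by rw [e1]; module
  apply LinearMap.ext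
  intro v
  rw [← sub_eq_zero]
  exact hsep _ (fun n => key n v)

end unip

lemma sep_ps {ι : Type*} (v : ι →₀ PowerSeries ℚ)
    (h : ∀ n : ℕ, ∃ w, v = (PowerSeries.X : PowerSeries ℚ) ^ (n + 1) • w) : v = 0 := by
  ext b n
  obtain ⟨w, hw⟩ := h n
  have : (PowerSeries.X : PowerSeries ℚ) ^ (n + 1) ∣ v b := by
    rw [hw, Finsupp.smul_apply, smul_eq_mul]
    exact Dvd.intro _ rfl
  rw [PowerSeries.X_pow_dvd_iff.1 this n (Nat.lt_succ_self n)]
  simp

lemma inv_ps {k : ℕ} (hk : 0 < k) :
    (PowerSeries.C (1 / (k : ℚ)) : PowerSeries ℚ) * (k : PowerSeries ℚ) = 1 := by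
  have hk' : (k : ℚ) ≠ 0 := by exact_mod_cast hk.ne'
  have : (k : PowerSeries ℚ) = PowerSeries.C (k : ℚ) := by simp
  rw [this, ← map_mul, one_div, inv_mul_cancel₀ hk', map_one]

variable {B : Type} [Fintype B] [DecidableEq B] {M : CoxeterMatrix B} [Finite M.Group]

/-- The permutation representation of the Coxeter group. -/
noncomputable def wrep (M : CoxeterMatrix B) [Finite M.Group] :
    M.Group →* Module.End ℚ (PR (FG M) →₀ ℚ) :=
  M.toCoxeterSystem.lift ⟨fun s => rhoHom (FG M) (1 : ℚ) 1 (ph s), liftable_of_alt _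
    (fun s => by
      apply LinearMap.ext
      intro v
      have := rho1_mul_rev (R := ℚ) (G := FG M) (ph s) v
      rw [rev_ph] at this
      exact this)
    (fun s t h => by rw [← map_alt, ← map_alt, ph_rel h])⟩

lemma wrep_simple (s : B) : wrep M (M.simple s) = rhoHom (FG M) (1 : ℚ) 1 (ph s) := by
  have := M.toCoxeterSystem.lift_apply_simple (f := fun s => rhoHom (FG M) (1 : ℚ) 1 (ph s))
    (liftable_of_alt _
    (fun s => by
      apply LinearMap.ext
      intro v
      have := rho1_mul_rev (R := ℚ) (G := FG M) (ph s) v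
      rw [rev_ph] at this
      exact this)
    (fun s t h => by rw [← map_alt, ← map_alt, ph_rel h])) s
  rwa [CoxeterMatrix.toCoxeterSystem_simple] at this

lemma red_x : PowerSeries.constantCoeff (pmQ.i pmQ.x) = (1 : ℚ) := by
  simp [pmQ, map_add, map_mul]

lemma red_y : PowerSeries.constantCoeff (pmQ.i pmQ.y) = (1 : ℚ) := by
  simp [pmQ, map_add]

/-- The reduction of the representation factors through the Coxeter group. -/
theorem red_rhG (g : AG M) : ∀ v : VV M,
    mapf (PowerSeries.constantCoeff (R := ℚ)) (rhG M g v)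
      = wrep M (piG M g) (mapf (PowerSeries.constantCoeff (R := ℚ)) v) := by
  have hgen : ∀ s : B, ∀ v : VV M,
      mapf (PowerSeries.constantCoeff (R := ℚ)) (rhG M (ga M s) v)
        = wrep M (piG M (ga M s)) (mapf (PowerSeries.constantCoeff (R := ℚ)) v) := by
    intro s v
    rw [piG_ga, wrep_simple]
    have h1 : rhG M (ga M s) v = rhoHom (FG M) (pmQ.i pmQ.x) (pmQ.i pmQ.y) (ph s) v := by
      rw [rhG, liftAG_ga]; rfl
    rw [h1, mapf_rhoHom, red_x, red_y]
  have hg : g ∈ Subgroup.closure (Set.range (PresentedGroup.of : B → AG M)) := by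
    rw [PresentedGroup.closure_range_of]; trivial
  induction hg using Subgroup.closure_induction with
  | mem x hx =>
    obtain ⟨s, rfl⟩ := hx
    exact hgen s
  | one =>
    intro v
    rw [map_one, map_one, map_one]; rfl
  | mul x y _ _ hx hy =>
    intro v
    rw [map_mul, map_mul, map_mul, Module.End.mul_apply, LinearEquiv.mul_apply, hx, hy]
  | inv x _ hx =>
    intro v
    have h1 := hx (rhG M x⁻¹ v)
    have h2 : rhG M x (rhG M x⁻¹ v) = v := by
      rw [← LinearEquiv.mul_apply, ← map_mul, mul_inv_cancel, map_one]; rfl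
    rw [h2] at h1
    rw [h1, ← Module.End.mul_apply, ← map_mul, ← map_mul, inv_mul_cancel, map_one, map_one]
    rfl

lemma exists_w {ι : Type*} (v : ι →₀ PowerSeries ℚ)
    (h : ∀ b, PowerSeries.constantCoeff (v b) = 0) :
    ∃ w : ι →₀ PowerSeries ℚ, v = (PowerSeries.X : PowerSeries ℚ) • w := by
  classical
  have h1 : ∀ r : PowerSeries ℚ, ∃ q : PowerSeries ℚ,
      (PowerSeries.constantCoeff r = 0 → r = PowerSeries.X * q) ∧ (r = 0 → q = 0) := by
    intro r
    by_cases hr : r = 0
    · exact ⟨0, fun _ => by rw [hr, mul_zero], fun _ => rfl⟩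
    · by_cases hc : PowerSeries.constantCoeff r = 0
      · obtain ⟨q, hq⟩ := PowerSeries.X_dvd_iff.2 hc
        exact ⟨q, fun _ => hq, fun h => absurd h hr⟩
      · exact ⟨0, fun h => absurd h hc, fun h => absurd h hr⟩
  choose q hq1 hq2 using h1
  refine ⟨Finsupp.mapRange q (hq2 0 rfl) v, ?_⟩
  ext1 b
  rw [Finsupp.smul_apply, Finsupp.mapRange_apply, smul_eq_mul]
  exact hq1 _ (h b)

lemma cong_of_pi {g : AG M} (h : piG M g = 1) :
    Cong (PowerSeries.X : PowerSeries ℚ)
      (LinearEquiv.automorphismGroup.toLinearMapMonoidHom (rhG M g)) := by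
  intro v
  have h1 := red_rhG g v
  rw [h, map_one, Module.End.one_apply] at h1
  obtain ⟨w, hw⟩ := exists_w (rhG M g v - v) (by
    intro b
    have h2 := DFunLike.congr_fun h1 b
    rw [mapf_apply, mapf_apply] at h2
    rw [Finsupp.sub_apply, map_sub, h2, sub_self])
  refine ⟨w, ?_⟩
  have : LinearEquiv.automorphismGroup.toLinearMapMonoidHom (rhG M g) v = rhG M g v := rfl
  rw [this, ← hw]
  abel

/-- Unique roots in the pure Artin group. -/
theorem unique_roots {a b : AG M} (ha : piG M a = 1) (hb : piG M b = 1) {k : ℕ} (hk : 0 < k)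
    (h : a ^ k = b ^ k) : a = b := by
  have h1 : LinearEquiv.automorphismGroup.toLinearMapMonoidHom (rhG M a)
      = LinearEquiv.automorphismGroup.toLinearMapMonoidHom (rhG M b) := by
    apply unip (cong_of_pi ha) (cong_of_pi hb) (inv_ps hk) sep_ps
    rw [← map_pow, ← map_pow, h, map_pow, map_pow]
  have h2 := toLin_inj h1
  have h3 : rhG M (a * b⁻¹) = 1 := by rw [map_mul, map_inv, h2, mul_inv_cancel]
  have h4 := rhG_injective h3
  exact mul_inv_eq_one.1 h4

/-- The main step. -/
theorem pow_normalises {X : Finset B} (hX : Irr M (X : Set B)) {β : AG M} {k : ℕ} (hk : 0 < k)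
    (h : MulAut.conj (β ^ k) • AX M (X : Set B) = AX M (X : Set B)) {n : ℕ}
    (hn : piG M (β ^ n) = 1) :
    MulAut.conj (β ^ n) • AX M (X : Set B) = AX M (X : Set B) := by
  have h1 := commute_of_normalises hX h
  set z := iota M (dd M X) with hz
  have h2 : β ^ n = z⁻¹ * β ^ n * z := by
    apply unique_roots hn _ hk
    · have h3 : (z⁻¹ * β ^ n * z) ^ k = z⁻¹ * (β ^ n) ^ k * z := by
        have := conj_pow (i := k) (a := z⁻¹) (b := β ^ n)
        rwa [inv_inv] at this
      rw [h3]
      have h4 : Commute ((β ^ n) ^ k) z := by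
        rw [← pow_mul, mul_comm, pow_mul]
        exact h1.pow_left n
      rw [mul_assoc, h4.eq]
      group
    · rw [map_mul, map_mul, hn, map_inv, mul_one, inv_mul_cancel]
  apply normalises_of_commute
  have h5 : z * β ^ n = β ^ n * z := by
    conv_lhs => rw [h2]
    group
  exact h5.symm

end Pool.Agent.MP685115
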