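import Pool.Agent.Lib.MP_685115_al.Order

/-! Representations of the finite Coxeter group coming from the folded monoid. -/

set_option linter.unusedSectionVars false
set_option linter.unusedVariables false

namespace Pool.Agent.MP685115

variable {B : Type} [Fintype B] [DecidableEq B] {M : CoxeterMatrix B}

variable (M) in
/-- The map to the Coxeter group. -/
noncomputable def piM : AM M →* M.Group :=
  liftAM (fun s => M.simple s) (fun s t _ => simple_alt s t)

lemma piM_sg (s : B) : piM M (sg M s) = M.simple s := rfl

section finite
variable [Finite M.Group]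

/-- Lifts of involutions satisfying the braid relations. -/
lemma liftable_of_alt {A : Type*} [Monoid A] (f : B → A) (h2 : ∀ s, f s * f s = 1)
    (h : ∀ s t, s ≠ t → alt (f s) (f t) (M s t) = alt (f t) (f s) (M s t)) :
    M.IsLiftable f := by
  intro s t
  by_cases hst : s = t
  · subst hst
    rw [M.diagonal, pow_one, h2]
  · exact pow_eq_one_of_alt (h2 s) (h2 t) (h s t hst)

lemma act_ph_sq (s : B) : act (FG M) (ph s) * act (FG M) (ph s) = 1 := by
  apply LinearMap.ext
  intro b
  have := act_act_rev (G := FG M) (ph s) b
  rw [rev_ph] at this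
  exact this

lemma act_ph_rel (s t : B) (h : s ≠ t) :
    alt (act (FG M) (ph s)) (act (FG M) (ph t)) (M s t)
      = alt (act (FG M) (ph t)) (act (FG M) (ph s)) (M s t) := by
  rw [← map_alt, ← map_alt, ph_rel h]

variable (M) in
/-- The action of the Coxeter group. -/
noncomputable def wact : M.Group →* Module.End ℤ (B × Idx M → ℤ) :=
  M.toCoxeterSystem.lift ⟨fun s => act (FG M) (ph s), liftable_of_alt _ act_ph_sq act_ph_rel⟩

lemma wact_simple (s : B) : wact M (M.simple s) = act (FG M) (ph s) := by
  have := M.toCoxeterSystem.lift_apply_simple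
    (liftable_of_alt (fun s => act (FG M) (ph s)) act_ph_sq act_ph_rel) s
  rwa [CoxeterMatrix.toCoxeterSystem_simple] at this

lemma wact_piM (u : AM M) : wact M (piM M u) = act (FG M) (phi M u) := by
  induction u using AM_ind with
  | h1 => simp
  | hs s u ih => rw [map_mul, map_mul, map_mul, map_mul, ih, piM_sg, wact_simple, phi_sg]

/-- Elements of the Artin monoid with reduced image. -/
def RedM (u : AM M) : Prop := Red (phi M u)

lemma N_eq_of_act {S : Type} [Fintype S] [DecidableEq S] {G : SimpleGraph S}
    [DecidableRel G.Adj] [Fact (PD G)] {u v : AM (slM G)}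
    (h : act G u = act G v) : N u = N v := by
  ext b
  rw [mem_N, mem_N]
  have h1 : act G (rev u) b.1 = act G (rev v) b.1 := by
    have h2 := act_rev_act u (act G (rev v) b.1)
    rw [h, act_act_rev] at h2
    exact h2
  rw [h1]

end finite

end Pool.Agent.MP685115
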